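import Pool.Agent.Zk79.LM.Asy

set_option autoImplicit false
set_option maxHeartbeats 400000

/-! # Comparison of two functions `E(h)` for `h → ∞` -/

namespace Pool.Agent.Zk79.LM

open Finset Diagram MeasureTheory

theorem exp_growth {a K : ℝ} (ha : 0 < a) (N : ℕ) :
    ∃ t : ℝ, 1 ≤ t ∧ K * t ^ N < Real.exp (a * t ^ 2) := by
  obtain ⟨K', hK'⟩ : ∃ K', K' = max K 1 := ⟨_, rfl⟩
  have hK1 : 1 ≤ K' := by rw [hK']; exact le_max_right _ _
  have hKK : K ≤ K' := by rw [hK']; exact le_max_left _ _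
  obtain ⟨s, hs⟩ : ∃ s : ℝ, s = K' * (N + 1).factorial / a ^ (N + 1) + 1 := ⟨_, rfl⟩
  have hs1 : 1 ≤ s := by
    rw [hs]
    have : 0 ≤ K' * (N + 1).factorial / a ^ (N + 1) := by positivity
    linarith
  refine ⟨s, hs1, ?_⟩
  have h1 := Real.pow_div_factorial_le_exp (a * s ^ 2) (by positivity) (N + 1)
  refine lt_of_lt_of_le ?_ h1
  rw [lt_div_iff₀ (by positivity)]
  have h2 : K' * (N + 1).factorial < a ^ (N + 1) * s := by
    have : K' * (N + 1).factorial / a ^ (N + 1) < s := by linarith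
    rw [div_lt_iff₀ (by positivity)] at this
    linarith
  have h3 : s ^ N * s ≤ (s ^ 2) ^ (N + 1) := by
    rw [← pow_succ, ← pow_mul]
    exact pow_le_pow_right₀ hs1 (by omega)
  calc K * s ^ N * (N + 1).factorial ≤ K' * s ^ N * (N + 1).factorial := by
        refine mul_le_mul_of_nonneg_right ?_ (by positivity)
        exact mul_le_mul_of_nonneg_right hKK (by positivity)
    _ = K' * (N + 1).factorial * s ^ N := by ring
    _ < a ^ (N + 1) * s * s ^ N := mul_lt_mul_of_pos_right h2 (by positivity)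
    _ = a ^ (N + 1) * (s ^ N * s) := by ring
    _ ≤ a ^ (N + 1) * (s ^ 2) ^ (N + 1) := mul_le_mul_of_nonneg_left h3 (by positivity)
    _ = _ := by rw [mul_pow]

theorem no_growth {a : ℝ} {f g : ℝ → ℝ} {c C : ℝ} {d d' : ℕ} (hc : 0 < c) (hC : 0 < C)
    (hf : ∀ t : ℝ, 1 ≤ t → c * (1 / t) ^ d ≤ f t) (hg : ∀ t : ℝ, 0 < t → g t ≤ C * (1 / t) ^ d')
    (h : ∀ t : ℝ, 0 < t → Real.exp (a * t ^ 2) * f t = g t) : a ≤ 0 := by
  by_contra hcon
  push Not at hcon
  obtain ⟨t, ht, h1⟩ := exp_growth (K := C / c) hcon d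
  have ht0 : 0 < t := by linarith
  have h2 := h t ht0
  have h3 := hf t ht
  have h4 := hg t ht0
  have h5 : (1 / t) ^ d' ≤ 1 := pow_le_one₀ (by positivity) (by
    rw [div_le_one ht0]
    exact ht)
  have h6 : Real.exp (a * t ^ 2) * (c * (1 / t) ^ d) ≤ C := by
    calc _ ≤ Real.exp (a * t ^ 2) * f t := mul_le_mul_of_nonneg_left h3 (Real.exp_pos _).le
      _ = g t := h2
      _ ≤ C * (1 / t) ^ d' := h4
      _ ≤ C := mul_le_of_le_one_right hC.le h5
  have h7 : C < Real.exp (a * t ^ 2) * (c * (1 / t) ^ d) := by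
    have h8 := mul_lt_mul_of_pos_right h1 (by positivity : 0 < c * (1 / t) ^ d)
    have h9 : C / c * t ^ d * (c * (1 / t) ^ d) = C := by
      have : t ^ d * (1 / t) ^ d = 1 := by
        rw [← mul_pow, mul_one_div_cancel ht0.ne', one_pow]
      calc C / c * t ^ d * (c * (1 / t) ^ d) = C / c * c * (t ^ d * (1 / t) ^ d) := by ring
        _ = C := by rw [this, mul_one, div_mul_cancel₀ _ hc.ne']
    rw [h9] at h8
    exact h8
  linarith

theorem exponent_le {f : ℝ → ℝ} {c C : ℝ} {d d' : ℕ} (hc : 0 < c) (hC : 0 < C)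
    (hf : ∀ t : ℝ, 1 ≤ t → c * (1 / t) ^ d ≤ f t)
    (hg : ∀ t : ℝ, 0 < t → f t ≤ C * (1 / t) ^ d') : d' ≤ d := by
  by_contra hcon
  push Not at hcon
  obtain ⟨t, ht⟩ : ∃ t, t = C / c + 1 := ⟨_, rfl⟩
  have ht1 : 1 ≤ t := by
    rw [ht]
    have : 0 < C / c := by positivity
    linarith
  have ht0 : 0 < t := by linarith
  have h1 := (hf t ht1).trans (hg t ht0)
  have h2 : (1 / t) ^ d' ≤ (1 / t) ^ (d + 1) := by
    refine pow_le_pow_of_le_one (by positivity) ?_ (by omega)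
    rw [div_le_one ht0]
    exact ht1
  have h3 : c * (1 / t) ^ d ≤ C * (1 / t) * (1 / t) ^ d := by
    calc _ ≤ C * (1 / t) ^ (d + 1) := h1.trans (mul_le_mul_of_nonneg_left h2 hC.le)
      _ = _ := by rw [pow_succ]; ring
  have h4 := le_of_mul_le_mul_right h3 (by positivity)
  have h5 : C < c * t := by
    rw [ht, mul_add, mul_div_cancel₀ _ hc.ne']
    linarith
  rw [mul_one_div, le_div_iff₀ ht0] at h4
  linarith

theorem ER_pos (D : Diagram) (hS : D.IsSplice) {t : ℝ} (ht : 1 ≤ t) : 0 < ER D t := by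
  obtain ⟨c, hc, h1⟩ := lower hS
  refine lt_of_lt_of_le ?_ (h1 t ht)
  have : 0 < t := by linarith
  positivity

theorem ER_nonneg (D : Diagram) {t : ℝ} (ht : 0 < t) : 0 ≤ ER D t :=
  integral_nonneg fun _ => prod_nonneg fun v _ => (psr_pos D v (by positivity)).le

/-- **comparison** -/
theorem compare {D D' : Diagram} (hS : D.IsSplice) (hS' : D'.IsSplice)
    (hκ : ∀ v ≤ D.n, ∑ a ∈ D.leaves v, 1 / (a : ℝ) < (D.valence v - 2 : ℕ))
    (hκ' : ∀ v ≤ D'.n, ∑ a ∈ D'.leaves v, 1 / (a : ℝ) < (D'.valence v - 2 : ℕ)) (ψ : ℂ)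
    (h : ∀ t : ℝ, 0 < t → Complex.exp (ψ * (t : ℂ) ^ 2) * EE D t = EE D' t) :
    D.n = D'.n ∧ ψ = 0 := by
  obtain ⟨C, hC, h1⟩ := upper hS hκ
  obtain ⟨C', hC', h1'⟩ := upper hS' hκ'
  obtain ⟨c, hc, h2⟩ := lower hS
  obtain ⟨c', hc', h2'⟩ := lower hS'
  have h3 : ∀ t : ℝ, 0 < t → Real.exp (ψ.re * t ^ 2) * ER D t = ER D' t := by
    intro t ht
    have h4 := congrArg norm (h t ht)
    rw [EE_real, EE_real, norm_mul, Complex.norm_exp, Complex.norm_real, Complex.norm_real,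
      Real.norm_eq_abs, Real.norm_eq_abs, abs_of_nonneg (ER_nonneg D ht),
      abs_of_nonneg (ER_nonneg D' ht)] at h4
    have h5 : (ψ * (t : ℂ) ^ 2).re = ψ.re * t ^ 2 := by
      rw [← Complex.ofReal_pow, Complex.re_mul_ofReal]
    rw [h5] at h4
    exact h4
  have h4 : ψ.re ≤ 0 := no_growth hc hC' h2 h1' h3
  have h5 : -ψ.re ≤ 0 := by
    refine no_growth (f := ER D') (g := ER D) hc' hC h2' h1 fun t ht => ?_
    rw [← h3 t ht, ← mul_assoc, ← Real.exp_add]
    have : -ψ.re * t ^ 2 + ψ.re * t ^ 2 = 0 := by ring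
    rw [this, Real.exp_zero, one_mul]
  have h6 : ψ.re = 0 := le_antisymm h4 (by linarith)
  have h7 : ∀ t : ℝ, 0 < t → ER D t = ER D' t := by
    intro t ht
    have := h3 t ht
    rwa [h6, zero_mul, Real.exp_zero, one_mul] at this
  have h8 : 3 * (D'.n + 1) ≤ 3 * (D.n + 1) :=
    exponent_le (f := ER D) hc hC' h2 fun t ht => by rw [h7 t ht]; exact h1' t ht
  have h9 : 3 * (D.n + 1) ≤ 3 * (D'.n + 1) :=
    exponent_le (f := ER D') hc' hC h2' fun t ht => by rw [← h7 t ht]; exact h1 t ht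
  refine ⟨by omega, ?_⟩
  have h10 : ψ.im = 0 := by
    by_contra hne
    -- the least time with `exp = -1`
    have key : ∀ t : ℝ, 1 ≤ t → Complex.exp (ψ * (t : ℂ) ^ 2) = 1 := by
      intro t ht
      have e1 := h t (by linarith)
      rw [EE_real, EE_real, ← h7 t (by linarith)] at e1
      have e2 : ((ER D t : ℝ) : ℂ) ≠ 0 := by
        exact_mod_cast (ER_pos D hS ht).ne'
      exact mul_right_cancel₀ e2 (by rw [e1, one_mul])
    -- use two times
    obtain ⟨y, hy⟩ : ∃ y, y = ψ.im := ⟨_, rfl⟩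
    have hψ : ψ = y * Complex.I := by
      apply Complex.ext
      · simp [h6]
      · simp [hy]
    have hy0 : y ≠ 0 := by rw [hy]; exact hne
    obtain ⟨t, ht⟩ : ∃ t, t = √(1 + Real.pi / |y|) := ⟨_, rfl⟩
    have hp : 0 < Real.pi / |y| := div_pos Real.pi_pos (abs_pos.2 hy0)
    have ht2 : t ^ 2 = 1 + Real.pi / |y| := by rw [ht, Real.sq_sqrt (by linarith)]
    have ht1 : 1 ≤ t := by
      rw [ht]
      apply Real.le_sqrt_of_sq_le
      linarith
    have k1 := key 1 le_rfl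
    have k2 := key t ht1
    have e3 : ψ * (t : ℂ) ^ 2 = ψ * ((1 : ℝ) : ℂ) ^ 2 + (y / |y| * Real.pi : ℝ) * Complex.I := by
      rw [← Complex.ofReal_pow, ht2, hψ]
      push_cast
      ring
    rw [e3, Complex.exp_add, k1, one_mul] at k2
    have e4 : y / |y| = 1 ∨ y / |y| = -1 := by
      rcases lt_or_gt_of_ne hy0 with h0 | h0
      · right
        rw [abs_of_neg h0, div_neg, div_self hy0]
      · left
        rw [abs_of_pos h0, div_self hy0]
    rcases e4 with e5 | e5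
    · rw [e5, one_mul, Complex.exp_pi_mul_I] at k2
      norm_num at k2
    · rw [e5] at k2
      push_cast at k2
      rw [neg_one_mul, neg_mul, Complex.exp_neg, Complex.exp_pi_mul_I] at k2
      norm_num at k2
  exact Complex.ext h6 h10

end Pool.Agent.Zk79.LM
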