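import Pool.Agent.Zk79.LM.Seif
import Pool.Agent.Zk79.LM.Cmp

set_option autoImplicit false
set_option maxHeartbeats 400000

/-! # The main theorem -/

namespace Pool.Agent.Zk79.LM

open PowerSeries Finset Diagram MeasureTheory Pool.Agent.K3h96.OS

theorem quantumTwo_inv_ne : quantumTwo⁻¹ ≠ 0 := by
  intro h
  have h1 : constantCoeff quantumTwo ≠ 0 := by
    rw [← coeff_zero_eq_constantCoeff_apply, quantumTwo]
    simp
  have h2 := PowerSeries.mul_inv_cancel quantumTwo h1
  rw [h, mul_zero] at h2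
  exact zero_ne_one h2

/-- equality of the Ohtsuki series -/
theorem of_ohtsuki {D D' : Diagram} {φ φ' : ℂ} (h : D.ohtsuki φ = D'.ohtsuki φ') :
    PowerSeries.rescale ((φ' - φ) / 4) (PowerSeries.exp ℂ) * D.gaussSeries.map (algebraMap ℝ ℂ) =
      D'.gaussSeries.map (algebraMap ℝ ℂ) := by
  unfold Diagram.ohtsuki at h
  have h1 : quantumTwo⁻¹ * (PowerSeries.rescale (-φ / 4) (PowerSeries.exp ℂ) *
      D.gaussSeries.map (algebraMap ℝ ℂ)) =
      quantumTwo⁻¹ * (PowerSeries.rescale (-φ' / 4) (PowerSeries.exp ℂ) *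
      D'.gaussSeries.map (algebraMap ℝ ℂ)) := by
    linear_combination h
  have h2 := mul_left_cancel₀ quantumTwo_inv_ne h1
  have h3 : PowerSeries.rescale (φ' / 4) (PowerSeries.exp ℂ) *
      PowerSeries.rescale (-φ' / 4) (PowerSeries.exp ℂ) = 1 := by
    rw [exp_mul_exp_eq_exp_add]
    have : φ' / 4 + -φ' / 4 = 0 := by ring
    rw [this, rescale_zero_apply]
    simp
  have h4 : PowerSeries.rescale (φ' / 4) (PowerSeries.exp ℂ) *
      PowerSeries.rescale (-φ / 4) (PowerSeries.exp ℂ) =
      PowerSeries.rescale ((φ' - φ) / 4) (PowerSeries.exp ℂ) := by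
    rw [exp_mul_exp_eq_exp_add]
    congr 2
    ring
  calc _ = PowerSeries.rescale (φ' / 4) (PowerSeries.exp ℂ) *
      (PowerSeries.rescale (-φ / 4) (PowerSeries.exp ℂ) *
        D.gaussSeries.map (algebraMap ℝ ℂ)) := by rw [← h4, mul_assoc]
    _ = (PowerSeries.rescale (φ' / 4) (PowerSeries.exp ℂ) *
      PowerSeries.rescale (-φ' / 4) (PowerSeries.exp ℂ)) *
        D'.gaussSeries.map (algebraMap ℝ ℂ) := by rw [h2, mul_assoc]
    _ = _ := by rw [h3, one_mul]

theorem gauss_zero_coeff (D : Diagram) : coeff 0 D.gaussSeries = 1 := by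
  rw [coeff_gaussSeries]
  have h1 : ∀ x : Sp D.n, coeff 0 (FF D (nsq x)) = 1 := by
    intro x
    unfold FF
    rw [coeff_zero_eq_constantCoeff_apply, map_prod]
    refine prod_eq_one fun v _ => ?_
    rw [← coeff_zero_eq_constantCoeff_apply, coeff_rescale, node_zero]
    simp
  simp_rw [h1]
  simp

/-- `ψ = 0` if the Gaussian integrals are the same -/
theorem psi_zero_of_eq {D : Diagram} {ψ : ℂ}
    (h : PowerSeries.rescale ψ (PowerSeries.exp ℂ) * D.gaussSeries.map (algebraMap ℝ ℂ) =
      D.gaussSeries.map (algebraMap ℝ ℂ)) : ψ = 0 := by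
  have h0 : D.gaussSeries.map (algebraMap ℝ ℂ) ≠ 0 := by
    intro h1
    have h2 := congrArg (coeff 0) h1
    rw [coeff_map, gauss_zero_coeff] at h2
    simp at h2
  have h1 : PowerSeries.rescale ψ (PowerSeries.exp ℂ) = 1 := by
    refine mul_right_cancel₀ h0 ?_
    rw [h, one_mul]
  have h2 := congrArg (coeff 1) h1
  rw [coeff_rescale, coeff_exp, coeff_one, if_neg one_ne_zero] at h2
  simpa using h2

theorem Pmax_zero {D : Diagram} (hn : D.n = 0) : D.Pmax = D.P 0 := by
  obtain ⟨v, hv, h1⟩ := exists_Pmax (D := D)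
  rw [← h1]
  congr 1
  omega

/-- one node on both sides -/
theorem one_one {D D' : Diagram} (h : D.IsSplice) (h' : D'.IsSplice) (hn : D.n = 0)
    (hn' : D'.n = 0) {ψ : ℂ}
    (hfg : PowerSeries.rescale ψ (PowerSeries.exp ℂ) * D.gaussSeries.map (algebraMap ℝ ℂ) =
      D'.gaussSeries.map (algebraMap ℝ ℂ)) : D = D' ∧ ψ = 0 := by
  have hP := Pmax_eq h h' hfg
  rw [Pmax_zero hn, Pmax_zero hn'] at hP
  have fin : D.P 0 = 30 → D = D' ∧ ψ = 0 := by
    intro h30
    have h1 := leaves_thirty h hn h30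
    have h2 := leaves_thirty h' hn' (by rw [← hP, h30])
    have h3 := ext_of_zero h h' hn hn' (by rw [h1, h2])
    subst h3
    exact ⟨rfl, psi_zero_of_eq hfg⟩
  rcases kappa_zero h hn with hk | hk
  · rcases kappa_zero h' hn' with hk' | hk'
    · have h1 := compare h h' (fun v hv => by
        have : v = 0 := by omega
        rw [this]
        exact hk) (fun v hv => by
        have : v = 0 := by omega
        rw [this]
        exact hk') ψ fun t ht => functions_eq D D' ψ hfg ht
      refine ⟨?_, h1.2⟩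
      rw [h1.2] at hfg
      have h2 : D.gaussSeries.map (algebraMap ℝ ℂ) = D'.gaussSeries.map (algebraMap ℝ ℂ) := by
        rw [← hfg, rescale_zero_apply]
        simp
      have h3 : D.node 0 = D'.node 0 := by
        ext k
        have h4 := congrArg (coeff k) h2
        rw [coeff_map, coeff_map] at h4
        have h5 := (algebraMap ℝ ℂ).injective h4
        rw [coeff_one_node h hn, coeff_one_node h' hn', ← hP] at h5
        have h6 : ((D.P 0 : ℝ) / 2) ^ k * mom k ≠ 0 := by
          have h7 : (1 : ℝ) ≤ D.P 0 := by exact_mod_cast P_pos h (Nat.zero_le _)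
          have := mom_pos k
          positivity
        exact mul_left_cancel₀ h6 h5
      refine ext_of_zero h h' hn hn' ?_
      unfold Diagram.node at h3
      exact leaves_eq (h.two_le 0 (Nat.zero_le _)) (h'.two_le 0 (Nat.zero_le _))
        (fun a ha b hb => leaves_coprime h (Nat.zero_le _) ha hb)
        (fun a ha b hb => leaves_coprime h' (Nat.zero_le _) ha hb) h3
    · exact fin (by rw [hP, hk'])
  · exact fin hk

/-- the number of nodes -/
theorem no_mix {D D' : Diagram} (h : D.IsSplice) (h' : D'.IsSplice) (hn : D.n = 0)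
    (hn' : 1 ≤ D'.n) {ψ : ℂ}
    (hfg : PowerSeries.rescale ψ (PowerSeries.exp ℂ) * D.gaussSeries.map (algebraMap ℝ ℂ) =
      D'.gaussSeries.map (algebraMap ℝ ℂ)) : False := by
  rcases kappa_zero h hn with hk | hk
  · have h1 := compare h h' (fun v hv => by
      have : v = 0 := by omega
      rw [this]
      exact hk) (fun v hv => kappa_pos h' hn' hv) ψ fun t ht => functions_eq D D' ψ hfg ht
    omega
  · have hP := Pmax_eq h h' hfg
    rw [Pmax_zero hn, hk] at hP
    obtain ⟨v, hv, h2⟩ := exists_P_gt h' hn'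
    have := P_le_Pmax hv
    omega

/-- **main theorem** -/
theorem main {D D' : Diagram} (h : D.IsSplice) (h' : D'.IsSplice) {φ φ' : ℂ}
    (ho : D.ohtsuki φ = D'.ohtsuki φ') :
    φ = φ' ∧ D.n = D'.n ∧ D.Pmax = D'.Pmax ∧ (D.n = 0 → D = D') := by
  have hfg := of_ohtsuki ho
  have hP := Pmax_eq h h' hfg
  have hphi : (φ' - φ) / 4 = 0 → φ = φ' := by
    intro h1
    have : φ' - φ = 0 := by
      rcases div_eq_zero_iff.1 h1 with h2 | h2
      · exact h2
      · norm_num at h2
    rw [sub_eq_zero] at this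
    exact this.symm
  rcases Nat.eq_zero_or_pos D.n with h0 | h0
  · rcases Nat.eq_zero_or_pos D'.n with h1 | h1
    · have h2 := one_one h h' h0 h1 hfg
      exact ⟨hphi h2.2, by rw [h0, h1], hP, fun _ => h2.1⟩
    · exact (no_mix h h' h0 h1 hfg).elim
  · rcases Nat.eq_zero_or_pos D'.n with h1 | h1
    · exact (no_mix h' h h1 h0 (flip_eq hfg)).elim
    · have h2 := compare h h' (fun v hv => kappa_pos h h0 hv) (fun v hv => kappa_pos h' h1 hv)
        _ fun t ht => functions_eq D D' _ hfg ht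
      exact ⟨hphi h2.2, h2.1, hP, fun h3 => by omega⟩

/-! ### finiteness -/

theorem weight_le {D : Diagram} (h : D.IsSplice) {i : ℕ} (hi : i ≤ D.n) {a : ℕ}
    (ha : a ∈ D.weights i) : a ≤ D.P i :=
  Nat.le_of_dvd (P_pos h hi) (Multiset.dvd_prod ha)

theorem leaf_mem {D : Diagram} {i a : ℕ} (ha : a ∈ D.leaves i) : a ∈ D.weights i := by
  unfold weights
  rw [Multiset.mem_add, Multiset.mem_add]
  left
  left
  exact ha

theorem up_mem {D : Diagram} {i : ℕ} (h0 : 0 < i) : D.up i ∈ D.weights i := by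
  unfold weights
  rw [Multiset.mem_add, Multiset.mem_add, if_neg (by omega)]
  left
  right
  simp

theorem down_mem {D : Diagram} {i : ℕ} (h0 : 0 < i) (hi : i ≤ D.n) :
    D.down i ∈ D.weights (D.parent i) := by
  unfold weights
  rw [Multiset.mem_add]
  right
  rw [Multiset.mem_map]
  refine ⟨i, ?_, rfl⟩
  rw [Finset.mem_val, Finset.mem_filter, Finset.mem_Icc]
  exact ⟨⟨by omega, hi⟩, rfl⟩

/-- finitely many diagrams with given bounds -/
theorem finite_bounded (N B : ℕ) : {D : Diagram | D.IsSplice ∧ D.n ≤ N ∧ D.Pmax ≤ B}.Finite := by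
  obtain ⟨f, hf⟩ : ∃ f : Diagram → ℕ × (Fin (N + 1) → ℕ) × (Fin (N + 1) → ℕ) ×
      (Fin (N + 1) → ℕ) × (Fin (N + 1) → Finset ℕ), f = fun D =>
      (D.n, (fun i => D.parent i), (fun i => D.up i), (fun i => D.down i), fun i => D.leaves i) :=
    ⟨_, rfl⟩
  have hS : ∀ M : ℕ, {g : Fin (N + 1) → ℕ | ∀ i, g i ∈ Set.Iic M}.Finite := fun M =>
    Set.Finite.pi' fun _ => Set.finite_Iic M
  have hT : {g : Fin (N + 1) → Finset ℕ | ∀ i, g i ∈
      ((range (B + 1)).powerset : Set (Finset ℕ))}.Finite :=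
    Set.Finite.pi' fun _ => Finset.finite_toSet _
  refine Set.Finite.of_injOn (f := f) (t := Set.Iic N ×ˢ {g | ∀ i, g i ∈ Set.Iic N} ×ˢ
    {g | ∀ i, g i ∈ Set.Iic B} ×ˢ {g | ∀ i, g i ∈ Set.Iic B} ×ˢ {g | ∀ i, g i ∈
      ((range (B + 1)).powerset : Set (Finset ℕ))}) ?_ ?_
    ((Set.finite_Iic N).prod ((hS N).prod ((hS B).prod ((hS B).prod hT))))
  · rintro D ⟨h, hN, hB⟩
    have hb : ∀ i ≤ D.n, ∀ a ∈ D.weights i, a ≤ B := fun i hi a ha =>
      (weight_le h hi ha).trans ((P_le_Pmax hi).trans hB)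
    rw [hf]
    refine ⟨hN, fun i => ?_, fun i => ?_, fun i => ?_, fun i => ?_⟩
    · show D.parent i ≤ N
      rcases Nat.eq_zero_or_pos (i : ℕ) with h0 | h0
      · rw [h0, h.zero.1]
        omega
      · rcases le_or_gt (i : ℕ) D.n with h1 | h1
        · have := h.parent_lt i h0 h1
          omega
        · rw [h.parent_zero i h1]
          omega
    · show D.up i ≤ B
      rcases Nat.eq_zero_or_pos (i : ℕ) with h0 | h0
      · rw [h0, h.zero.2.1]
        omega
      · rcases le_or_gt (i : ℕ) D.n with h1 | h1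
        · exact hb i h1 _ (up_mem h0)
        · rw [(h.weight_zero i h1).1]
          omega
    · show D.down i ≤ B
      rcases Nat.eq_zero_or_pos (i : ℕ) with h0 | h0
      · rw [h0, h.zero.2.2]
        omega
      · rcases le_or_gt (i : ℕ) D.n with h1 | h1
        · have h2 := h.parent_lt i h0 h1
          exact hb (D.parent i) (by omega) _ (down_mem h0 h1)
        · rw [(h.weight_zero i h1).2]
          omega
    · show D.leaves i ∈ ((range (B + 1)).powerset : Set (Finset ℕ))
      rw [Finset.mem_coe, mem_powerset]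
      intro a ha
      rw [mem_range]
      rcases le_or_gt (i : ℕ) D.n with h1 | h1
      · have := hb i h1 _ (leaf_mem ha)
        omega
      · rw [h.leaves_zero i h1] at ha
        simp at ha
  · rintro D ⟨h, hN, -⟩ D' ⟨h', hN', -⟩ he
    rw [hf] at he
    simp only [Prod.mk.injEq] at he
    obtain ⟨e0, e1, e2, e3, e4⟩ := he
    apply Diagram.ext
    · exact e0
    · funext i
      rcases le_or_gt i D.n with h1 | h1
      · exact congrFun e1 ⟨i, by omega⟩
      · rw [h.parent_zero i h1, h'.parent_zero i (by omega)]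
    · funext i
      rcases le_or_gt i D.n with h1 | h1
      · exact congrFun e2 ⟨i, by omega⟩
      · rw [(h.weight_zero i h1).1, (h'.weight_zero i (by omega)).1]
    · funext i
      rcases le_or_gt i D.n with h1 | h1
      · exact congrFun e3 ⟨i, by omega⟩
      · rw [(h.weight_zero i h1).2, (h'.weight_zero i (by omega)).2]
    · funext i
      rcases le_or_gt i D.n with h1 | h1
      · exact congrFun e4 ⟨i, by omega⟩
      · rw [h.leaves_zero i h1, h'.leaves_zero i (by omega)]

/-- finitely many diagrams with the same series -/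
theorem finite {D : Diagram} (h : D.IsSplice) (φ : ℂ) :
    {D' : Diagram | D'.IsSplice ∧ ∃ φ', D'.ohtsuki φ' = D.ohtsuki φ}.Finite := by
  refine (finite_bounded D.n D.Pmax).subset ?_
  rintro D' ⟨h', φ', ho⟩
  obtain ⟨-, h1, h2, -⟩ := main h' h ho
  exact ⟨h', h1.le, h2.le⟩

end Pool.Agent.Zk79.LM
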