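import Pool.Agent.Zk79.LM.PD

set_option autoImplicit false
set_option maxHeartbeats 400000

/-! # The Gaussian measure of the nodes -/

namespace Pool.Agent.Zk79.LM

open Finset Diagram MeasureTheory ProbabilityTheory WithLp Matrix
open scoped MatrixOrder

theorem int_abs {l : ℝ} (hl : 0 < l) : ∫ u, Real.exp (-(l * |u|)) ∂(gaussianReal 0 1) ≤ 1 / l := by
  rw [integral_gaussianReal_eq_integral_smul (by norm_num)]
  have h1 : ∫ u : ℝ, Real.exp (-(l * |u|)) = 2 / l := by
    rw [integral_comp_abs (f := fun u => Real.exp (-(l * u)))]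
    have h2 := integral_exp_mul_Ioi (neg_lt_zero.2 hl) 0
    simp only [neg_mul] at h2
    rw [h2]
    simp
    ring
  have h3 : Integrable (fun u : ℝ => Real.exp (-(l * |u|))) := by
    by_contra hn
    rw [integral_undef hn] at h1
    have : 0 < 2 / l := by positivity
    linarith
  have h4 : ∀ u : ℝ, gaussianPDFReal 0 1 u ≤ 1 / 2 := by
    intro u
    rw [gaussianPDFReal_def]
    simp only [NNReal.coe_one, mul_one, sub_zero]
    have h5 : Real.exp (-u ^ 2 / 2) ≤ 1 := by
      rw [Real.exp_le_one_iff]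
      have := sq_nonneg u
      linarith
    have h6 : (√(2 * Real.pi))⁻¹ ≤ 1 / 2 := by
      rw [one_div]
      refine inv_anti₀ (by norm_num) ?_
      apply Real.le_sqrt_of_sq_le
      have := Real.pi_gt_three
      linarith
    calc (√(2 * Real.pi))⁻¹ * Real.exp (-u ^ 2 / 2) ≤ 1 / 2 * 1 :=
          mul_le_mul h6 h5 (Real.exp_pos _).le (by norm_num)
      _ = 1 / 2 := by norm_num
  calc ∫ u, gaussianPDFReal 0 1 u • Real.exp (-(l * |u|)) ≤
        ∫ u, (1 / 2) * Real.exp (-(l * |u|)) := by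
        refine integral_mono_of_nonneg ?_ (h3.const_mul _) ?_
        · filter_upwards with u
          exact smul_nonneg (gaussianPDFReal_nonneg _ _ _) (Real.exp_pos _).le
        · filter_upwards with u
          exact mul_le_mul_of_nonneg_right (h4 u) (Real.exp_pos _).le
    _ = 1 / l := by
        rw [integral_const_mul, h1]
        ring

theorem int_sq {b : ℝ} (hb : 0 ≤ b) :
    ∫ u, Real.exp (-(b * u ^ 2)) ∂(gaussianReal 0 1) = (√(1 + 2 * b))⁻¹ := by
  rw [integral_gaussianReal_eq_integral_smul (by norm_num)]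
  have h1 : ∀ u : ℝ, gaussianPDFReal 0 1 u • Real.exp (-(b * u ^ 2)) =
      (√(2 * Real.pi))⁻¹ * Real.exp (-(b + 1 / 2) * u ^ 2) := by
    intro u
    rw [gaussianPDFReal_def]
    simp only [NNReal.coe_one, mul_one, sub_zero, smul_eq_mul]
    rw [mul_assoc, ← Real.exp_add]
    congr 2
    ring
  simp_rw [h1]
  rw [integral_const_mul, integral_gaussian, ← Real.sqrt_inv, ← Real.sqrt_inv, ← Real.sqrt_mul (by positivity)]
  congr 1
  have := Real.pi_pos
  field_simp
  ring

variable {ι : Type*} [Fintype ι]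

/-- the standard Gaussian measure on `ι → ℝ` -/
noncomputable abbrev stdPi (ι : Type*) [Fintype ι] : Measure (ι → ℝ) :=
  Measure.pi (fun _ : ι => gaussianReal 0 1)

theorem pi_abs {l : ℝ} (hl : 0 < l) :
    ∫ u : ι → ℝ, ∏ i, Real.exp (-(l * |u i|)) ∂(stdPi ι) ≤ (1 / l) ^ Fintype.card ι := by
  rw [stdPi, integral_fintype_prod_eq_prod (f := fun _ u => Real.exp (-(l * |u|)))]
  rw [← card_univ, ← prod_const]
  exact prod_le_prod (fun i _ => integral_nonneg fun u => (Real.exp_pos _).le)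
    fun i _ => int_abs hl

theorem pi_sq {b : ℝ} (hb : 0 ≤ b) :
    ∫ u : ι → ℝ, ∏ i, Real.exp (-(b * (u i) ^ 2)) ∂(stdPi ι) =
      (√(1 + 2 * b))⁻¹ ^ Fintype.card ι := by
  rw [stdPi, integral_fintype_prod_eq_prod (f := fun _ u => Real.exp (-(b * u ^ 2)))]
  rw [← card_univ, ← prod_const]
  exact prod_congr rfl fun i _ => int_sq hb

/-- integrals with respect to a nondegenerate Gaussian measure -/
theorem gauss_repr [DecidableEq ι] {S : Matrix ι ι ℝ} (hS : S.PosDef) :
    ∃ A : (ι → ℝ) → EuclideanSpace ℝ ι, Continuous A ∧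
      (multivariateGaussian 0 S = (stdPi ι).map A) ∧
      ∃ c1 c2 : ℝ, 0 < c1 ∧ 0 < c2 ∧ ∀ u : ι → ℝ,
        c1 * ‖toLp 2 u‖ ≤ ‖A u‖ ∧ ‖A u‖ ≤ c2 * ‖toLp 2 u‖ := by
  obtain ⟨L, hL⟩ : ∃ L, L = toEuclideanCLM (𝕜 := ℝ) (n := ι) (CFC.sqrt S) := ⟨_, rfl⟩
  refine ⟨fun u => L (toLp 2 u), ?_, ?_, ?_⟩
  · exact L.continuous.comp (PiLp.continuous_toLp 2 _)
  · rw [multivariateGaussian, ← map_pi_eq_stdGaussian, Measure.map_map]
    · congr 1
      funext u
      simp [hL]
    · simp only [zero_add]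
      exact (toEuclideanCLM (𝕜 := ℝ) (n := ι) (CFC.sqrt S)).continuous.measurable
    · fun_prop
  · have hinj : L.toLinearMap.ker = ⊥ := by
      rw [LinearMap.ker_eq_bot']
      intro x hx
      have h1 : L (L x) = 0 := by
        have : L x = 0 := hx
        rw [this, map_zero]
      have h2 : L (L x) = toEuclideanCLM (𝕜 := ℝ) (n := ι) S x := by
        rw [hL, ← ContinuousLinearMap.comp_apply, ← ContinuousLinearMap.mul_def, ← map_mul,
          CFC.sqrt_mul_sqrt_self _ hS.posSemidef.nonneg]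
      rw [h2] at h1
      by_contra hne
      have h3 := hS.dotProduct_mulVec_pos (x := ofLp x) (by
        intro h0
        apply hne
        ext i
        have := congrFun h0 i
        simpa using this)
      have h4 : S *ᵥ (ofLp x) = 0 := by
        have h5 := congrArg ofLp h1
        simpa using h5
      rw [h4, dotProduct_zero] at h3
      exact lt_irrefl _ h3
    obtain ⟨K, hK, hK2⟩ := L.toLinearMap.exists_antilipschitzWith hinj
    refine ⟨(K : ℝ)⁻¹, ‖L‖ + 1, by positivity, by positivity, fun u => ⟨?_, ?_⟩⟩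
    · have h6 : ‖toLp 2 u‖ ≤ K * ‖L (toLp 2 u)‖ := by
        simpa using hK2.le_mul_norm_sub (toLp 2 u) 0
      rw [inv_mul_le_iff₀ (by exact_mod_cast hK)]
      exact h6
    · refine (L.le_opNorm _).trans ?_
      exact mul_le_mul_of_nonneg_right (by linarith) (norm_nonneg _)

end Pool.Agent.Zk79.LM
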