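import Pool.Agent.Zk79.LM.Fun

set_option autoImplicit false
set_option maxHeartbeats 400000

/-! # Equal series give equal functions -/

namespace Pool.Agent.Zk79.LM

open PowerSeries Finset Diagram

theorem part_product (ψ : ℂ) (f : PowerSeries ℝ) (g : PowerSeries ℝ)
    (hfg : rescale ψ (PowerSeries.exp ℂ) * f.map (algebraMap ℝ ℂ) = g.map (algebraMap ℝ ℂ))
    (K : ℕ) (h : ℂ) : part g K h =
      ∑ i ∈ range K, (ψ * h) ^ i / (i.factorial : ℂ) * part f (K - i) h := by
  have h1 : ∀ k, ((coeff k g : ℝ) : ℂ) =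
      ∑ i ∈ range (k + 1), ψ ^ i / (i.factorial : ℂ) * ((coeff (k - i) f : ℝ) : ℂ) := by
    intro k
    have h2 := congrArg (coeff k) hfg
    rw [coeff_map, coeff_mul, Finset.Nat.sum_antidiagonal_eq_sum_range_succ_mk] at h2
    have h3 : (algebraMap ℝ ℂ) (coeff k g) = ((coeff k g : ℝ) : ℂ) := rfl
    rw [← h3, ← h2]
    refine sum_congr rfl fun i _ => ?_
    rw [coeff_rescale, coeff_exp, coeff_map]
    have h4 : (algebraMap ℝ ℂ) (coeff (k - i) f) = ((coeff (k - i) f : ℝ) : ℂ) := rfl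
    rw [h4]
    congr 1
    rw [map_div₀, map_one, map_natCast]
    ring
  unfold part
  have h2 : ∀ k ∈ range K, ((coeff k g : ℝ) : ℂ) * h ^ k = ∑ i ∈ range (k + 1),
      (fun i j => (ψ * h) ^ i / (i.factorial : ℂ) * (((coeff j f : ℝ) : ℂ) * h ^ j)) i (k - i) := by
    intro k _
    rw [h1, sum_mul]
    refine sum_congr rfl fun i hi => ?_
    rw [mem_range] at hi
    have e : h ^ k = h ^ i * h ^ (k - i) := by
      rw [← pow_add]
      congr 1
      omega
    simp only
    rw [e, mul_pow]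
    ring
  rw [sum_congr rfl h2, Finset.sum_range_diag_flip K
    (fun i j => (ψ * h) ^ i / (i.factorial : ℂ) * (((coeff j f : ℝ) : ℂ) * h ^ j))]
  refine sum_congr rfl fun i _ => ?_
  rw [mul_sum]

/-- **Equal series give equal functions.** -/
theorem functions_eq (D D' : Diagram) (ψ : ℂ)
    (hfg : rescale ψ (PowerSeries.exp ℂ) * D.gaussSeries.map (algebraMap ℝ ℂ) =
      D'.gaussSeries.map (algebraMap ℝ ℂ)) {t : ℝ} (ht : 0 < t) :
    Complex.exp (ψ * (t : ℂ) ^ 2) * EE D t = EE D' t := by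
  obtain ⟨C, A, hC, hA, h1⟩ := gevrey D t
  obtain ⟨C', A', hC', hA', h1'⟩ := gevrey D' t
  obtain ⟨B, hB⟩ : ∃ B, B = max (max A A') ‖ψ‖ := ⟨_, rfl⟩
  have hBA : A ≤ B := by rw [hB]; exact (le_max_left _ _).trans (le_max_left _ _)
  have hBA' : A' ≤ B := by rw [hB]; exact (le_max_right _ _).trans (le_max_left _ _)
  have hBψ : ‖ψ‖ ≤ B := by rw [hB]; exact le_max_right _ _
  have hB0 : 0 < B := by linarith
  obtain ⟨X, hX⟩ : ∃ X, X = Real.exp (‖ψ‖ * t ^ 2) := ⟨_, rfl⟩
  have hX0 : 0 < X := by rw [hX]; exact Real.exp_pos _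
  have key : ∀ w ∈ Sec, ‖w‖ ≤ t → ∀ K : ℕ,
      ‖Complex.exp (ψ * w ^ 2) * EE D w - EE D' w‖ ≤
        (X * C + 3 * C + C') * (B * ‖w‖ ^ 2) ^ K * K.factorial := by
    intro w hw hwt K
    have hq : 0 ≤ ‖w‖ ^ 2 := by positivity
    have hψ : ‖ψ * w ^ 2‖ ≤ ‖ψ‖ * t ^ 2 := by
      rw [norm_mul, norm_pow]
      exact mul_le_mul_of_nonneg_left (pow_le_pow_left₀ (norm_nonneg _) hwt 2) (norm_nonneg _)
    have hE : ‖EE D w‖ ≤ C := by
      have := h1 w hw hwt 0
      simpa [part] using this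
    have e1 : Complex.exp (ψ * w ^ 2) * EE D w - EE D' w =
        (Complex.exp (ψ * w ^ 2) - ∑ i ∈ range K, (ψ * w ^ 2) ^ i / (i.factorial : ℂ)) * EE D w +
        (∑ i ∈ range K, (ψ * w ^ 2) ^ i / (i.factorial : ℂ) *
          (EE D w - part D.gaussSeries (K - i) (w ^ 2))) -
        (EE D' w - part D'.gaussSeries K (w ^ 2)) := by
      rw [part_product ψ _ _ hfg K (w ^ 2)]
      have : ∑ i ∈ range K, (ψ * w ^ 2) ^ i / (i.factorial : ℂ) *
          (EE D w - part D.gaussSeries (K - i) (w ^ 2)) =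
          (∑ i ∈ range K, (ψ * w ^ 2) ^ i / (i.factorial : ℂ)) * EE D w -
          ∑ i ∈ range K, (ψ * w ^ 2) ^ i / (i.factorial : ℂ) *
            part D.gaussSeries (K - i) (w ^ 2) := by
        rw [sum_mul, ← sum_sub_distrib]
        exact sum_congr rfl fun i _ => by ring
      rw [this]
      ring
    have b1 : ‖(Complex.exp (ψ * w ^ 2) - ∑ i ∈ range K, (ψ * w ^ 2) ^ i / (i.factorial : ℂ)) *
        EE D w‖ ≤ X * C * (B * ‖w‖ ^ 2) ^ K * K.factorial := by
      rw [norm_mul]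
      have h2 := Complex.norm_exp_sub_sum_le_norm_mul_exp (ψ * w ^ 2) K
      have h3 : ‖ψ * w ^ 2‖ ^ K * Real.exp ‖ψ * w ^ 2‖ ≤ (B * ‖w‖ ^ 2) ^ K * X := by
        refine mul_le_mul ?_ ?_ (Real.exp_pos _).le (by positivity)
        · refine pow_le_pow_left₀ (norm_nonneg _) ?_ K
          rw [norm_mul, norm_pow]
          exact mul_le_mul_of_nonneg_right hBψ hq
        · rw [hX]
          exact Real.exp_le_exp.2 hψ
      calc _ ≤ ((B * ‖w‖ ^ 2) ^ K * X) * C :=
            mul_le_mul (h2.trans h3) hE (norm_nonneg _) (by positivity)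
        _ = X * C * (B * ‖w‖ ^ 2) ^ K * 1 := by ring
        _ ≤ X * C * (B * ‖w‖ ^ 2) ^ K * K.factorial := by
            refine mul_le_mul_of_nonneg_left ?_ (by positivity)
            exact_mod_cast Nat.succ_le_of_lt (Nat.factorial_pos K)
    have b2 : ‖∑ i ∈ range K, (ψ * w ^ 2) ^ i / (i.factorial : ℂ) *
        (EE D w - part D.gaussSeries (K - i) (w ^ 2))‖ ≤
        3 * C * (B * ‖w‖ ^ 2) ^ K * K.factorial := by
      have h2 : ∀ i ∈ range K, ‖(ψ * w ^ 2) ^ i / (i.factorial : ℂ) *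
          (EE D w - part D.gaussSeries (K - i) (w ^ 2))‖ ≤
          (1 / (i.factorial : ℝ)) * (C * (B * ‖w‖ ^ 2) ^ K * K.factorial) := by
        intro i hi
        rw [mem_range] at hi
        have h3 := h1 w hw hwt (K - i)
        rw [norm_mul, norm_div, norm_pow, Complex.norm_natCast]
        have h4 : ‖ψ * w ^ 2‖ ^ i ≤ (B * ‖w‖ ^ 2) ^ i := by
          refine pow_le_pow_left₀ (norm_nonneg _) ?_ i
          rw [norm_mul, norm_pow]
          exact mul_le_mul_of_nonneg_right hBψ hq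
        have h5 : (A * ‖w‖ ^ 2) ^ (K - i) ≤ (B * ‖w‖ ^ 2) ^ (K - i) :=
          pow_le_pow_left₀ (by positivity) (mul_le_mul_of_nonneg_right hBA hq) _
        have h6 : ((K - i).factorial : ℝ) ≤ K.factorial := by
          exact_mod_cast Nat.factorial_le (Nat.sub_le _ _)
        have h7 : (B * ‖w‖ ^ 2) ^ K = (B * ‖w‖ ^ 2) ^ i * (B * ‖w‖ ^ 2) ^ (K - i) := by
          rw [← pow_add]
          congr 1
          omega
        calc ‖ψ * w ^ 2‖ ^ i / (i.factorial : ℝ) *
              ‖EE D w - part D.gaussSeries (K - i) (w ^ 2)‖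
            ≤ ((B * ‖w‖ ^ 2) ^ i / (i.factorial : ℝ)) *
              (C * (A * ‖w‖ ^ 2) ^ (K - i) * (K - i).factorial) :=
              mul_le_mul (div_le_div_of_nonneg_right h4 (by positivity)) h3 (norm_nonneg _)
                (by positivity)
          _ ≤ ((B * ‖w‖ ^ 2) ^ i / (i.factorial : ℝ)) *
              (C * (B * ‖w‖ ^ 2) ^ (K - i) * K.factorial) := by
              refine mul_le_mul_of_nonneg_left ?_ (by positivity)
              exact mul_le_mul (mul_le_mul_of_nonneg_left h5 hC) h6 (by positivity) (by positivity)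
          _ = _ := by
              rw [h7]
              ring
      refine (norm_sum_le_of_le _ h2).trans ?_
      rw [← sum_mul]
      have h3 : ∑ i ∈ range K, 1 / (i.factorial : ℝ) ≤ 3 := by
        have h4 := Real.sum_le_exp_of_nonneg (x := 1) zero_le_one K
        simp only [one_pow] at h4
        have := Real.exp_one_lt_d9
        linarith
      calc _ ≤ 3 * (C * (B * ‖w‖ ^ 2) ^ K * K.factorial) :=
            mul_le_mul_of_nonneg_right h3 (by positivity)
        _ = _ := by ring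
    have b3 : ‖EE D' w - part D'.gaussSeries K (w ^ 2)‖ ≤
        C' * (B * ‖w‖ ^ 2) ^ K * K.factorial := by
      refine (h1' w hw hwt K).trans ?_
      refine mul_le_mul_of_nonneg_right (mul_le_mul_of_nonneg_left ?_ hC') (by positivity)
      exact pow_le_pow_left₀ (by positivity) (mul_le_mul_of_nonneg_right hBA' hq) _
    rw [e1]
    refine (norm_sub_le _ _).trans ((add_le_add (norm_add_le _ _) le_rfl).trans ?_)
    have : (X * C + 3 * C + C') * (B * ‖w‖ ^ 2) ^ K * K.factorial =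
        X * C * (B * ‖w‖ ^ 2) ^ K * K.factorial + 3 * C * (B * ‖w‖ ^ 2) ^ K * K.factorial +
        C' * (B * ‖w‖ ^ 2) ^ K * K.factorial := by ring
    rw [this]
    exact add_le_add (add_le_add b1 b2) b3
  have hd : DifferentiableOn ℂ (fun w : ℂ => Complex.exp (ψ * w ^ 2) * EE D w - EE D' w) Sec := by
    refine DifferentiableOn.sub (DifferentiableOn.mul ?_ (differentiableOn_EE D))
      (differentiableOn_EE D')
    exact (by fun_prop : Differentiable ℂ fun w : ℂ => Complex.exp (ψ * w ^ 2)).differentiableOn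
  have := watson hd ht (by positivity) hB0 key
  exact sub_eq_zero.1 this

end Pool.Agent.Zk79.LM
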