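import Pool.Agent.Zk79.LM.Rea
import Pool.Agent.Zk79.LM.Gau
import Pool.Agent.Zk79.LM.Uniq

set_option autoImplicit false
set_option maxHeartbeats 400000

/-! # The behaviour of `E(h)` for `h → ∞` -/

namespace Pool.Agent.Zk79.LM

open Finset Diagram MeasureTheory ProbabilityTheory WithLp

variable (D : Diagram)

/-- `E(t ^ 2)` for real `t` -/
noncomputable def ER (t : ℝ) : ℝ := ∫ x : Sp D.n, ∏ v : Fin (D.n + 1), psr D v (t * √(nsq x v)) ∂D.gauss

theorem real_mem_Sec {t : ℝ} (ht : 0 < t) : (t : ℂ) ∈ Sec := by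
  show |((t : ℂ)).im| < 3 * ((t : ℂ)).re
  rw [Complex.ofReal_im, Complex.ofReal_re, abs_zero]
  linarith

theorem EE_real (t : ℝ) : EE D t = (ER D t : ℝ) := by
  unfold EE ER
  rw [← integral_complex_ofReal]
  congr 1
  funext x
  exact PP_real D _ (nsq_nonneg x) t

theorem integrable_ER {t : ℝ} (ht : 0 < t) :
    Integrable (fun x : Sp D.n => ∏ v : Fin (D.n + 1), psr D v (t * √(nsq x v))) D.gauss := by
  have h1 := (integrable_PP D (real_mem_Sec ht)).re
  refine h1.congr ?_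
  filter_upwards with x
  rw [PP_real D _ (nsq_nonneg x) t]
  exact Complex.ofReal_re _

theorem norm_le_sum_sqrt {n : ℕ} (x : Sp n) : ‖x‖ ≤ ∑ v, √(nsq x v) := by
  have h0 : 0 ≤ ∑ v, √(nsq x v) := sum_nonneg fun _ _ => Real.sqrt_nonneg _
  have h1 : ‖x‖ ^ 2 ≤ (∑ v, √(nsq x v)) ^ 2 := by
    rw [norm_sq_eq]
    have h2 : ∀ v ∈ (univ : Finset (Fin (n + 1))), nsq x v ≤ √(nsq x v) * ∑ w, √(nsq x w) := by
      intro v _
      have h3 : √(nsq x v) ≤ ∑ w, √(nsq x w) :=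
        single_le_sum (f := fun v => √(nsq x v)) (fun _ _ => Real.sqrt_nonneg _) (mem_univ v)
      calc nsq x v = √(nsq x v) * √(nsq x v) := (Real.mul_self_sqrt (nsq_nonneg x v)).symm
        _ ≤ _ := mul_le_mul_of_nonneg_left h3 (Real.sqrt_nonneg _)
    refine (sum_le_sum h2).trans (le_of_eq ?_)
    rw [← sum_mul]
    ring
  exact abs_le_of_sq_le_sq' h1 h0 |>.2

theorem card_coord (n : ℕ) : Fintype.card (Fin (n + 1) × Fin 3) = 3 * (n + 1) := by
  rw [Fintype.card_prod, Fintype.card_fin, Fintype.card_fin, mul_comm]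

variable {D}

theorem upper (hS : D.IsSplice)
    (hκ : ∀ v ≤ D.n, ∑ a ∈ D.leaves v, 1 / (a : ℝ) < (D.valence v - 2 : ℕ)) :
    ∃ C : ℝ, 0 < C ∧ ∀ t : ℝ, 0 < t → ER D t ≤ C * (1 / t) ^ (3 * (D.n + 1)) := by
  -- a common exponent
  obtain ⟨v0, hv0⟩ := Finite.exists_min fun v : Fin (D.n + 1) =>
    ((D.valence v - 2 : ℕ) : ℝ) - ∑ a ∈ D.leaves v, 1 / (a : ℝ)
  obtain ⟨k, hk⟩ : ∃ k : ℝ, k = (((D.valence v0 - 2 : ℕ) : ℝ) - ∑ a ∈ D.leaves v0, 1 / (a : ℝ)) / 2 :=
    ⟨_, rfl⟩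
  have hk0 : 0 < k := by
    have := hκ v0 (by omega)
    rw [hk]
    linarith
  have h1 : ∀ v : Fin (D.n + 1), ∃ C : ℝ, 0 < C ∧ ∀ r : ℝ, 0 ≤ r →
      psr D v r ≤ C * Real.exp (-(k * r)) := by
    intro v
    refine psr_upper D v hk0 ?_
    have := hv0 v
    rw [hk]
    have hh := hκ v0 (by omega)
    linarith
  choose Cv hCv0 hCv using h1
  obtain ⟨A, -, hA, c1, c2, hc1, hc2, hA2⟩ := gauss_repr (cov_posDef hS)
  obtain ⟨d, hd⟩ : ∃ d : ℕ, d = 3 * (D.n + 1) := ⟨_, rfl⟩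
  have hd0 : (0 : ℝ) < d := by rw [hd]; positivity
  rw [← hd]
  refine ⟨(∏ v, Cv v) * (d / (k * c1)) ^ d, mul_pos (prod_pos fun v _ => hCv0 v) (by positivity),
    fun t ht => ?_⟩
  have hCC : 0 < ∏ v, Cv v := prod_pos fun v _ => hCv0 v
  have h2 : ∀ x : Sp D.n, ∏ v : Fin (D.n + 1), psr D v (t * √(nsq x v)) ≤
      (∏ v, Cv v) * Real.exp (-(k * t * ‖x‖)) := by
    intro x
    calc ∏ v : Fin (D.n + 1), psr D v (t * √(nsq x v)) ≤
          ∏ v : Fin (D.n + 1), (Cv v * Real.exp (-(k * (t * √(nsq x v))))) := by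
          refine prod_le_prod (fun v _ => (psr_pos D v (by positivity)).le) fun v _ => ?_
          exact hCv v _ (by positivity)
      _ = (∏ v, Cv v) * Real.exp (-(k * t * ∑ v, √(nsq x v))) := by
          rw [prod_mul_distrib, ← Real.exp_sum]
          congr 2
          rw [mul_sum, ← sum_neg_distrib]
          exact sum_congr rfl fun v _ => by ring
      _ ≤ _ := by
          refine mul_le_mul_of_nonneg_left (Real.exp_le_exp.2 ?_) hCC.le
          have := norm_le_sum_sqrt x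
          have : k * t * ‖x‖ ≤ k * t * ∑ v, √(nsq x v) :=
            mul_le_mul_of_nonneg_left this (by positivity)
          linarith
  obtain ⟨l, hl⟩ : ∃ l, l = k * t * c1 / d := ⟨_, rfl⟩
  have hl0 : 0 < l := by rw [hl]; positivity
  have h3 : ∀ u : Fin (D.n + 1) × Fin 3 → ℝ, Real.exp (-(k * t * ‖A u‖)) ≤
      ∏ i, Real.exp (-(l * |u i|)) := by
    intro u
    rw [← Real.exp_sum]
    refine Real.exp_le_exp.2 ?_
    rw [sum_neg_distrib, ← mul_sum]
    have h4 : ∑ i, |u i| ≤ d * ‖toLp 2 u‖ := by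
      calc ∑ i, |u i| ≤ ∑ _i : Fin (D.n + 1) × Fin 3, ‖toLp 2 u‖ := by
            refine sum_le_sum fun i _ => ?_
            exact PiLp.norm_apply_le (toLp 2 u) i
        _ = d * ‖toLp 2 u‖ := by
            rw [sum_const, card_univ, card_coord, nsmul_eq_mul, hd]
    have h5 := (hA2 u).1
    have h6 : l * ∑ i, |u i| ≤ k * t * ‖A u‖ := by
      calc l * ∑ i, |u i| ≤ l * (d * ‖toLp 2 u‖) := mul_le_mul_of_nonneg_left h4 hl0.le
        _ = k * t * (c1 * ‖toLp 2 u‖) := by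
            rw [hl]
            field_simp
        _ ≤ _ := mul_le_mul_of_nonneg_left h5 (by positivity)
    linarith
  have hcard : Fintype.card (Fin (D.n + 1) × Fin 3) = d := by rw [card_coord, hd]
  have h7 := pi_abs (ι := Fin (D.n + 1) × Fin 3) hl0
  rw [hcard] at h7
  have hint : Integrable (fun u : Fin (D.n + 1) × Fin 3 → ℝ => ∏ i, Real.exp (-(l * |u i|)))
      (stdPi (Fin (D.n + 1) × Fin 3)) := by
    refine Integrable.of_bound (C := 1) ?_ ?_
    · exact (Continuous.aestronglyMeasurable (by fun_prop))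
    · filter_upwards with u
      rw [Real.norm_eq_abs, abs_of_nonneg (prod_nonneg fun _ _ => (Real.exp_pos _).le)]
      refine prod_le_one (fun _ _ => (Real.exp_pos _).le) fun i _ => ?_
      rw [Real.exp_le_one_iff]
      have := mul_nonneg hl0.le (abs_nonneg (u i))
      linarith
  have h8 : ER D t ≤ (∏ v, Cv v) * ∫ x : Sp D.n, Real.exp (-(k * t * ‖x‖)) ∂D.gauss := by
    rw [← integral_const_mul]
    refine integral_mono_of_nonneg ?_ ?_ ?_
    · filter_upwards with x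
      exact prod_nonneg fun v _ => (psr_pos D v (by positivity)).le
    · refine Integrable.const_mul (Integrable.of_bound (C := 1) ?_ ?_) _
      · exact (Continuous.aestronglyMeasurable (by fun_prop))
      · filter_upwards with x
        rw [Real.norm_eq_abs, abs_of_pos (Real.exp_pos _), Real.exp_le_one_iff]
        have : 0 ≤ k * t * ‖x‖ := by positivity
        linarith
    · filter_upwards with x
      exact h2 x
  have h9 : ∫ x : Sp D.n, Real.exp (-(k * t * ‖x‖)) ∂D.gauss ≤ (1 / l) ^ d := by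
    refine le_trans ?_ h7
    have hAm : AEMeasurable A (stdPi (Fin (D.n + 1) × Fin 3)) := by
      by_contra hn
      have h10 : D.gauss = 0 := by
        unfold Diagram.gauss
        rw [hA, Measure.map_of_not_aemeasurable hn]
      have h11 : D.gauss Set.univ = 1 := measure_univ
      rw [h10] at h11
      simp at h11
    have h12 : ∫ x : Sp D.n, Real.exp (-(k * t * ‖x‖)) ∂D.gauss =
        ∫ u, Real.exp (-(k * t * ‖A u‖)) ∂(stdPi (Fin (D.n + 1) × Fin 3)) := by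
      unfold Diagram.gauss
      rw [hA]
      exact integral_map hAm (Continuous.aestronglyMeasurable (by fun_prop))
    rw [h12]
    refine integral_mono_of_nonneg ?_ hint ?_
    · filter_upwards with u
      exact (Real.exp_pos _).le
    · filter_upwards with u
      exact h3 u
  calc ER D t ≤ (∏ v, Cv v) * (1 / l) ^ d := h8.trans (mul_le_mul_of_nonneg_left h9 hCC.le)
    _ = (∏ v, Cv v) * (d / (k * c1)) ^ d * (1 / t) ^ d := by
        rw [mul_assoc, ← mul_pow]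
        congr 2
        rw [hl]
        field_simp

theorem lower (hS : D.IsSplice) :
    ∃ c : ℝ, 0 < c ∧ ∀ t : ℝ, 1 ≤ t → c * (1 / t) ^ (3 * (D.n + 1)) ≤ ER D t := by
  obtain ⟨A, -, hA, c1, c2, hc1, hc2, hA2⟩ := gauss_repr (cov_posDef hS)
  obtain ⟨M, hM⟩ : ∃ M : ℝ, M = ∑ v : Fin (D.n + 1), ((D.valence v - 2 : ℕ) : ℝ) := ⟨_, rfl⟩
  have hM0 : 0 ≤ M := by rw [hM]; exact sum_nonneg fun _ _ => Nat.cast_nonneg _
  obtain ⟨d, hd⟩ : ∃ d : ℕ, d = 3 * (D.n + 1) := ⟨_, rfl⟩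
  rw [← hd]
  refine ⟨Real.exp (-M) * (√(1 + 2 * (M * c2 ^ 2)))⁻¹ ^ d, by positivity, fun t ht => ?_⟩
  have ht0 : 0 < t := by linarith
  have h2 : ∀ x : Sp D.n, Real.exp (-M) * Real.exp (-(M * t ^ 2 * ‖x‖ ^ 2)) ≤
      ∏ v : Fin (D.n + 1), psr D v (t * √(nsq x v)) := by
    intro x
    rw [← Real.exp_add]
    calc Real.exp (-M + -(M * t ^ 2 * ‖x‖ ^ 2)) ≤
          Real.exp (∑ v : Fin (D.n + 1), -(((D.valence v - 2 : ℕ) : ℝ) * (t * √(nsq x v)))) := by
          refine Real.exp_le_exp.2 ?_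
          rw [sum_neg_distrib]
          have h3 : ∑ v : Fin (D.n + 1), ((D.valence v - 2 : ℕ) : ℝ) * (t * √(nsq x v)) ≤
              ∑ v : Fin (D.n + 1), ((D.valence v - 2 : ℕ) : ℝ) * (1 + t ^ 2 * ‖x‖ ^ 2) := by
            refine sum_le_sum fun v _ => mul_le_mul_of_nonneg_left ?_ (Nat.cast_nonneg _)
            have h4 : nsq x v ≤ ‖x‖ ^ 2 := by
              rw [norm_sq_eq]
              exact single_le_sum (f := fun v => nsq x v) (fun v _ => nsq_nonneg x v) (mem_univ v)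
            have h5 : (t * √(nsq x v)) ^ 2 ≤ t ^ 2 * ‖x‖ ^ 2 := by
              rw [mul_pow, Real.sq_sqrt (nsq_nonneg x v)]
              exact mul_le_mul_of_nonneg_left h4 (by positivity)
            nlinarith [sq_nonneg (t * √(nsq x v) - 1)]
          rw [← sum_mul, ← hM] at h3
          linarith
      _ = ∏ v : Fin (D.n + 1), Real.exp (-(((D.valence v - 2 : ℕ) : ℝ) * (t * √(nsq x v)))) :=
          Real.exp_sum _ _
      _ ≤ _ := prod_le_prod (fun _ _ => (Real.exp_pos _).le) fun v _ =>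
          psr_lower D v (by positivity)
  have hAm : AEMeasurable A (stdPi (Fin (D.n + 1) × Fin 3)) := by
    by_contra hn
    have h10 : D.gauss = 0 := by
      unfold Diagram.gauss
      rw [hA, Measure.map_of_not_aemeasurable hn]
    have h11 : D.gauss Set.univ = 1 := measure_univ
    rw [h10] at h11
    simp at h11
  have hb : ∀ (f : Sp D.n → ℝ), Continuous f → (∀ x, 0 ≤ f x) → (∀ x, f x ≤ 1) →
      Integrable f D.gauss := by
    intro f hf h0 h1
    refine Integrable.of_bound (C := 1) hf.aestronglyMeasurable ?_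
    filter_upwards with x
    rw [Real.norm_eq_abs, abs_of_nonneg (h0 x)]
    exact h1 x
  have h8 : Real.exp (-M) * ∫ x : Sp D.n, Real.exp (-(M * t ^ 2 * ‖x‖ ^ 2)) ∂D.gauss ≤ ER D t := by
    rw [← integral_const_mul]
    refine integral_mono ?_ (integrable_ER D ht0) h2
    refine (hb _ (by fun_prop) (fun x => (Real.exp_pos _).le) fun x => ?_).const_mul _
    rw [Real.exp_le_one_iff]
    have : 0 ≤ M * t ^ 2 * ‖x‖ ^ 2 := by positivity
    linarith
  obtain ⟨b, hb'⟩ : ∃ b, b = M * t ^ 2 * c2 ^ 2 := ⟨_, rfl⟩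
  have hb0 : 0 ≤ b := by rw [hb']; positivity
  have h3 : ∀ u : Fin (D.n + 1) × Fin 3 → ℝ, ∏ i, Real.exp (-(b * u i ^ 2)) ≤
      Real.exp (-(M * t ^ 2 * ‖A u‖ ^ 2)) := by
    intro u
    rw [← Real.exp_sum]
    refine Real.exp_le_exp.2 ?_
    rw [sum_neg_distrib, ← mul_sum]
    have h4 : ∑ i, u i ^ 2 = ‖toLp 2 u‖ ^ 2 := by
      rw [EuclideanSpace.real_norm_sq_eq]
    have h5 := (hA2 u).2
    have h6 : ‖A u‖ ^ 2 ≤ c2 ^ 2 * ‖toLp 2 u‖ ^ 2 := by
      rw [← mul_pow]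
      exact pow_le_pow_left₀ (norm_nonneg _) h5 2
    rw [h4, hb']
    have h7 : M * t ^ 2 * ‖A u‖ ^ 2 ≤ M * t ^ 2 * (c2 ^ 2 * ‖toLp 2 u‖ ^ 2) :=
      mul_le_mul_of_nonneg_left h6 (by positivity)
    linarith
  have hcard : Fintype.card (Fin (D.n + 1) × Fin 3) = d := by rw [card_coord, hd]
  have h7 := pi_sq (ι := Fin (D.n + 1) × Fin 3) hb0
  rw [hcard] at h7
  have h9 : (√(1 + 2 * b))⁻¹ ^ d ≤ ∫ x : Sp D.n, Real.exp (-(M * t ^ 2 * ‖x‖ ^ 2)) ∂D.gauss := by
    rw [← h7]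
    have h12 : ∫ x : Sp D.n, Real.exp (-(M * t ^ 2 * ‖x‖ ^ 2)) ∂D.gauss =
        ∫ u, Real.exp (-(M * t ^ 2 * ‖A u‖ ^ 2)) ∂(stdPi (Fin (D.n + 1) × Fin 3)) := by
      unfold Diagram.gauss
      rw [hA]
      exact integral_map hAm (Continuous.aestronglyMeasurable (by fun_prop))
    rw [h12]
    refine integral_mono_of_nonneg ?_ ?_ ?_
    · filter_upwards with u
      exact prod_nonneg fun _ _ => (Real.exp_pos _).le
    · refine Integrable.of_bound (C := 1) ?_ ?_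
      · exact ((by fun_prop : Continuous fun x : Sp D.n => Real.exp (-(M * t ^ 2 * ‖x‖ ^ 2))).measurable.comp_aemeasurable hAm).aestronglyMeasurable
      · filter_upwards with u
        rw [Real.norm_eq_abs, abs_of_pos (Real.exp_pos _), Real.exp_le_one_iff]
        have : 0 ≤ M * t ^ 2 * ‖A u‖ ^ 2 := by positivity
        linarith
    · filter_upwards with u
      exact h3 u
  have h10 : √(1 + 2 * b) ≤ √(1 + 2 * (M * c2 ^ 2)) * t := by
    rw [← Real.sqrt_sq ht0.le, ← Real.sqrt_mul (by positivity)]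
    refine Real.sqrt_le_sqrt ?_
    rw [hb']
    nlinarith [mul_nonneg hM0 (sq_nonneg c2)]
  have h11 : (√(1 + 2 * (M * c2 ^ 2)))⁻¹ ^ d * (1 / t) ^ d ≤ (√(1 + 2 * b))⁻¹ ^ d := by
    rw [← mul_pow]
    refine pow_le_pow_left₀ (by positivity) ?_ d
    rw [one_div, ← mul_inv]
    refine inv_anti₀ (Real.sqrt_pos.2 (by linarith)) h10
  calc Real.exp (-M) * (√(1 + 2 * (M * c2 ^ 2)))⁻¹ ^ d * (1 / t) ^ d
      = Real.exp (-M) * ((√(1 + 2 * (M * c2 ^ 2)))⁻¹ ^ d * (1 / t) ^ d) := by ring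
    _ ≤ Real.exp (-M) * ∫ x : Sp D.n, Real.exp (-(M * t ^ 2 * ‖x‖ ^ 2)) ∂D.gauss :=
        mul_le_mul_of_nonneg_left (h11.trans h9) (Real.exp_pos _).le
    _ ≤ _ := h8

end Pool.Agent.Zk79.LM
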