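import Pool.Agent.Zk79.LM.Defs

set_option autoImplicit false

/-! # Elementary facts on splice diagrams -/

namespace Pool.Agent.Zk79.LM

namespace Diagram

variable {D : Diagram}

/-- the children of the node `i` -/
def children (D : Diagram) (i : ℕ) : Finset ℕ := (Finset.Icc 1 D.n).filter (fun c => D.parent c = i)

theorem mem_children {i c : ℕ} : c ∈ D.children i ↔ (1 ≤ c ∧ c ≤ D.n) ∧ D.parent c = i := by
  unfold children
  rw [Finset.mem_filter, Finset.mem_Icc]

/-- the number or the weight belonging to the edge to the parent -/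
def upw (D : Diagram) (i : ℕ) : ℕ := if i = 0 then 1 else D.up i

theorem P_eq (i : ℕ) :
    D.P i = (∏ a ∈ D.leaves i, a) * D.upw i * ∏ c ∈ D.children i, D.down c := by
  unfold P weights upw
  rw [Multiset.prod_add, Multiset.prod_add]
  congr 2
  · rw [Finset.prod_eq_multiset_prod, Multiset.map_id']
  · split_ifs <;> simp

theorem valence_eq (i : ℕ) :
    D.valence i = (D.leaves i).card + (if i = 0 then 0 else 1) + (D.children i).card := by
  unfold valence weights children
  rw [Multiset.card_add, Multiset.card_add, Multiset.card_map]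
  congr 2
  split_ifs <;> simp

variable (h : D.IsSplice)
include h

theorem up_pos {i : ℕ} (h0 : 0 < i) (hi : i ≤ D.n) : 1 ≤ D.up i := by
  apply h.pos i hi
  unfold weights
  rw [if_neg (by omega)]
  simp

theorem upw_pos {i : ℕ} (hi : i ≤ D.n) : 1 ≤ D.upw i := by
  unfold upw
  split_ifs with h0
  · exact le_rfl
  · exact up_pos h (by omega) hi

theorem down_pos {i : ℕ} (h0 : 0 < i) (hi : i ≤ D.n) : 1 ≤ D.down i := by
  apply h.pos (D.parent i) (by have := h.parent_lt i h0 hi; omega)
  unfold weights
  rw [Multiset.mem_add]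
  right
  rw [Multiset.mem_map]
  refine ⟨i, ?_, rfl⟩
  rw [Finset.mem_val, Finset.mem_filter, Finset.mem_Icc]
  exact ⟨⟨h0, hi⟩, rfl⟩

theorem leafprod_pos {i : ℕ} (hi : i ≤ D.n) : 1 ≤ ∏ a ∈ D.leaves i, a := by
  refine Nat.succ_le_of_lt (Finset.prod_pos fun a ha => ?_)
  have h1 := h.two_le i hi a ha
  omega

theorem childprod_pos (i : ℕ) : 1 ≤ ∏ c ∈ D.children i, D.down c := by
  refine Nat.succ_le_of_lt (Finset.prod_pos fun c hc => ?_)
  have h1 := mem_children.1 hc
  exact down_pos h h1.1.1 h1.1.2

theorem P_pos {i : ℕ} (hi : i ≤ D.n) : 1 ≤ D.P i := by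
  rw [P_eq]
  have h1 := leafprod_pos h hi
  have h2 := upw_pos h hi
  have h3 := childprod_pos h i
  exact Nat.mul_pos (Nat.mul_pos h1 h2) h3

theorem det_real {i : ℕ} (h0 : 0 < i) (hi : i ≤ D.n) :
    D.ratio i ^ 2 * D.P (D.parent i) < D.P i := by
  unfold ratio
  have h1 : (1 : ℝ) ≤ D.up i := by exact_mod_cast up_pos h h0 hi
  have h2 : (1 : ℝ) ≤ D.down i := by exact_mod_cast down_pos h h0 hi
  have h3 : (1 : ℝ) ≤ D.P i := by exact_mod_cast P_pos h hi
  have h4 : (D.P i : ℝ) * D.P (D.parent i) < (D.up i * D.down i) ^ 2 := by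
    exact_mod_cast h.det i h0 hi
  have h5 : (0 : ℝ) < (D.up i * D.down i) ^ 2 := by positivity
  rw [show (D.P i : ℝ) / D.up i / D.down i = D.P i / (D.up i * D.down i) by rw [div_div], div_pow,
    div_mul_eq_mul_div, div_lt_iff₀ h5]
  have h6 : (D.P i : ℝ) * (D.P i * D.P (D.parent i)) < D.P i * (D.up i * D.down i) ^ 2 :=
    mul_lt_mul_of_pos_left h4 (by linarith)
  nlinarith

/-- the sum of the reciprocals of the leaf weights -/
theorem sum_recip_le {i : ℕ} (hi : i ≤ D.n) :
    ∑ a ∈ D.leaves i, 1 / (a : ℝ) ≤ (D.leaves i).card / 3 + 1 / 6 := by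
  have h1 : ∀ a ∈ D.leaves i, 1 / (a : ℝ) ≤ 1 / 3 + (if a = 2 then 1 / 6 else 0) := by
    intro a ha
    have := h.two_le i hi a ha
    split_ifs with h2
    · rw [h2]; norm_num
    · have h3 : (3 : ℝ) ≤ a := by exact_mod_cast (by omega : 3 ≤ a)
      rw [add_zero]
      exact one_div_le_one_div_of_le (by norm_num) h3
  refine (Finset.sum_le_sum h1).trans ?_
  rw [Finset.sum_add_distrib, Finset.sum_const, nsmul_eq_mul, Finset.sum_ite_eq']
  split_ifs <;> linarith

theorem sum_recip_le' {i : ℕ} (hi : i ≤ D.n) :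
    ∑ a ∈ D.leaves i, 1 / (a : ℝ) ≤ (D.leaves i).card / 4 + 1 / 3 := by
  have h1 : ∀ a ∈ D.leaves i, 1 / (a : ℝ) ≤ 1 / 4 + (if a = 2 then 1 / 4 else 0) +
      (if a = 3 then 1 / 12 else 0) := by
    intro a ha
    have := h.two_le i hi a ha
    split_ifs with h2 h3 h3
    · omega
    · rw [h2]; norm_num
    · rw [h3]; norm_num
    · have h3 : (4 : ℝ) ≤ a := by exact_mod_cast (by omega : 4 ≤ a)
      rw [add_zero, add_zero]
      exact one_div_le_one_div_of_le (by norm_num) h3
  refine (Finset.sum_le_sum h1).trans ?_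
  rw [Finset.sum_add_distrib, Finset.sum_add_distrib, Finset.sum_const, nsmul_eq_mul,
    Finset.sum_ite_eq', Finset.sum_ite_eq']
  split_ifs <;> linarith

theorem kappa_pos (hn : 1 ≤ D.n) {i : ℕ} (hi : i ≤ D.n) :
    ∑ a ∈ D.leaves i, 1 / (a : ℝ) < (D.valence i - 2 : ℕ) := by
  have h3 := h.three_le i hi
  refine (sum_recip_le h hi).trans_lt ?_
  rw [Nat.cast_sub (by omega)]
  have h4 := D.valence_eq i
  have he : 1 ≤ (if i = 0 then 0 else 1) + (D.children i).card := by
    rcases Nat.eq_zero_or_pos i with h0 | h0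
    · subst h0
      have : 1 ∈ D.children 0 := by
        rw [mem_children]
        have := h.parent_lt 1 one_pos hn
        omega
      have := Finset.card_pos.2 ⟨1, this⟩
      omega
    · rw [if_neg (by omega)]
      omega
  have h5 : (D.valence i : ℝ) = (D.leaves i).card +
      ((if i = 0 then 0 else 1) + (D.children i).card : ℕ) := by
    rw [h4]
    push_cast
    ring
  have h6 : (3 : ℝ) ≤ D.valence i := by exact_mod_cast h3
  have h7 : (1 : ℝ) ≤ ((if i = 0 then 0 else 1) + (D.children i).card : ℕ) := by exact_mod_cast he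
  push_cast at h5 h7 ⊢
  linarith

theorem leaves_coprime {i : ℕ} (hi : i ≤ D.n) {a b : ℕ} (ha : a ∈ D.leaves i)
    (hb : b ∈ D.leaves i) (hab : a ≠ b) : a.Coprime b := by
  have hp := h.coprime i hi
  have hsub : ∀ a ∈ D.leaves i, a ∈ D.weights i := by
    intro a ha
    unfold weights
    rw [Multiset.mem_add, Multiset.mem_add]
    exact Or.inl (Or.inl ha)
  exact hp.forall (hsub a ha) (hsub b hb) hab

omit h in
theorem sorted_three {a b c : ℕ} (ha : 2 ≤ a) (hab : a < b) (hbc : b < c) (h1 : a.Coprime b)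
    (h2 : a.Coprime c) (h3 : b.Coprime c) :
    1 / (a : ℝ) + 1 / b + 1 / c < 1 ∨ a * b * c = 30 := by
  by_cases ha3 : 3 ≤ a
  · left
    have e1 : (3 : ℝ) ≤ a := by exact_mod_cast ha3
    have e2 : (4 : ℝ) ≤ b := by exact_mod_cast (by omega : 4 ≤ b)
    have e3 : (5 : ℝ) ≤ c := by exact_mod_cast (by omega : 5 ≤ c)
    have f1 := one_div_le_one_div_of_le (by norm_num) e1
    have f2 := one_div_le_one_div_of_le (by norm_num) e2
    have f3 := one_div_le_one_div_of_le (by norm_num) e3
    linarith
  obtain rfl : a = 2 := by omega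
  have hb : ¬ 2 ∣ b := by
    intro hd
    have := Nat.dvd_gcd dvd_rfl hd
    rw [h1] at this
    omega
  have hc : ¬ 2 ∣ c := by
    intro hd
    have := Nat.dvd_gcd dvd_rfl hd
    rw [h2] at this
    omega
  by_cases hb3 : b = 3
  · subst hb3
    by_cases hc5 : c = 5
    · right
      subst hc5
      norm_num
    · left
      have e3 : (7 : ℝ) ≤ c := by exact_mod_cast (by omega : 7 ≤ c)
      have f3 := one_div_le_one_div_of_le (by norm_num) e3
      push_cast
      linarith
  · left
    have e2 : (5 : ℝ) ≤ b := by exact_mod_cast (by omega : 5 ≤ b)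
    have e3 : (6 : ℝ) ≤ c := by exact_mod_cast (by omega : 6 ≤ c)
    have f2 := one_div_le_one_div_of_le (by norm_num) e2
    have f3 := one_div_le_one_div_of_le (by norm_num) e3
    push_cast
    linarith

theorem kappa_zero (hn : D.n = 0) :
    ∑ a ∈ D.leaves 0, 1 / (a : ℝ) < (D.valence 0 - 2 : ℕ) ∨ D.P 0 = 30 := by
  have h3 := h.three_le 0 (Nat.zero_le _)
  have hc : D.children 0 = ∅ := by
    unfold children
    rw [hn]
    rfl
  have h4 := D.valence_eq 0
  rw [hc, if_pos rfl, Finset.card_empty, add_zero, add_zero] at h4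
  have hP : D.P 0 = ∏ a ∈ D.leaves 0, a := by
    rw [P_eq, hc, upw, if_pos rfl, Finset.prod_empty, mul_one, mul_one]
  rcases Nat.lt_or_ge (D.valence 0) 4 with h5 | h5
  · have h6 : (D.leaves 0).card = 3 := by omega
    have hv : D.valence 0 - 2 = 1 := by omega
    rw [hv, hP]
    obtain ⟨a, b, c, hab, hac, hbc, e⟩ := Finset.card_eq_three.1 h6
    have two : ∀ x ∈ D.leaves 0, 2 ≤ x := h.two_le 0 (Nat.zero_le _)
    have cop : ∀ x ∈ D.leaves 0, ∀ y ∈ D.leaves 0, x ≠ y → x.Coprime y :=
      fun x hx y hy hxy => leaves_coprime h (Nat.zero_le _) hx hy hxy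
    have ma : a ∈ D.leaves 0 := by rw [e]; simp
    have mb : b ∈ D.leaves 0 := by rw [e]; simp
    have mc : c ∈ D.leaves 0 := by rw [e]; simp
    have s1 : ∑ x ∈ D.leaves 0, 1 / (x : ℝ) = 1 / a + 1 / b + 1 / c := by
      rw [e, Finset.sum_insert, Finset.sum_insert, Finset.sum_singleton]
      · ring
      · simpa using hbc
      · simp [hab, hac]
    have s2 : ∏ x ∈ D.leaves 0, x = a * b * c := by
      rw [e, Finset.prod_insert, Finset.prod_insert, Finset.prod_singleton]
      · ring
      · simpa using hbc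
      · simp [hab, hac]
    rw [s1, s2]
    push_cast
    have := two a ma
    have := two b mb
    have := two c mc
    rcases lt_or_gt_of_ne hab with h1 | h1 <;> rcases lt_or_gt_of_ne hbc with h2 | h2 <;>
      rcases lt_or_gt_of_ne hac with h3 | h3
    · rcases sorted_three (by omega) h1 h2 (cop _ ma _ mb hab) (cop _ ma _ mc hac)
        (cop _ mb _ mc hbc) with h7 | h7
      · left; linarith
      · right; rw [← h7]
    · omega
    · rcases sorted_three (by omega) h3 h2 (cop _ ma _ mc hac) (cop _ ma _ mb hab)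
        (cop _ mc _ mb hbc.symm) with h7 | h7
      · left; linarith
      · right; rw [← h7]; ring
    · rcases sorted_three (by omega) h3 h1 (cop _ mc _ ma hac.symm) (cop _ mc _ mb hbc.symm)
        (cop _ ma _ mb hab) with h7 | h7
      · left; linarith
      · right; rw [← h7]; ring
    · rcases sorted_three (by omega) h1 h3 (cop _ mb _ ma hab.symm) (cop _ mb _ mc hbc)
        (cop _ ma _ mc hac) with h7 | h7
      · left; linarith
      · right; rw [← h7]; ring
    · rcases sorted_three (by omega) h2 h3 (cop _ mb _ mc hbc) (cop _ mb _ ma hab.symm)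
        (cop _ mc _ ma hac.symm) with h7 | h7
      · left; linarith
      · right; rw [← h7]; ring
    · omega
    · rcases sorted_three (by omega) h2 h1 (cop _ mc _ mb hbc.symm) (cop _ mc _ ma hac.symm)
        (cop _ mb _ ma hab.symm) with h7 | h7
      · left; linarith
      · right; rw [← h7]; ring
  · left
    refine (sum_recip_le' h (Nat.zero_le _)).trans_lt ?_
    rw [Nat.cast_sub (by omega), h4]
    have h6 : (4 : ℝ) ≤ (D.leaves 0).card := by exact_mod_cast (by omega : 4 ≤ (D.leaves 0).card)
    push_cast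
    linarith

theorem six_le_of_two {i : ℕ} (hi : i ≤ D.n) (h2 : 2 ≤ (D.leaves i).card) :
    6 ≤ ∏ a ∈ D.leaves i, a := by
  obtain ⟨t, ht, htc⟩ := Finset.exists_subset_card_eq h2
  obtain ⟨a, b, hab, e⟩ := Finset.card_eq_two.1 htc
  have ha := h.two_le i hi a (ht (by rw [e]; simp))
  have hb := h.two_le i hi b (ht (by rw [e]; simp))
  have h6 : 6 ≤ ∏ x ∈ t, x := by
    rw [e, Finset.prod_pair hab]
    rcases lt_or_gt_of_ne hab with h1 | h1
    · have : 3 ≤ b := by omega
      nlinarith
    · have : 3 ≤ a := by omega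
      nlinarith
  refine h6.trans (Finset.prod_le_prod_of_subset_of_one_le' ht fun x hx _ => ?_)
  have := h.two_le i hi x hx
  omega

theorem two_le_of_one {i : ℕ} (hi : i ≤ D.n) (h1 : 1 ≤ (D.leaves i).card) :
    2 ≤ ∏ a ∈ D.leaves i, a := by
  obtain ⟨a, ha⟩ := Finset.card_pos.1 h1
  refine (h.two_le i hi a ha).trans ?_
  refine Finset.single_le_prod' (f := fun x => x) (fun x hx => ?_) ha
  have := h.two_le i hi x hx
  omega

/-- the product of the other weights at the parent -/
def rest (D : Diagram) (i c : ℕ) : ℕ :=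
  (∏ a ∈ D.leaves i, a) * D.upw i * ∏ c' ∈ (D.children i).erase c, D.down c'

omit h in
theorem P_rest {i c : ℕ} (hc : c ∈ D.children i) : D.P i = D.down c * D.rest i c := by
  rw [P_eq, rest, ← Finset.mul_prod_erase _ _ hc]
  ring

/-- the edge inequality if the product beyond the edge is at least 6 and all products are at most 30 -/
theorem edge {i c : ℕ} (hc : c ∈ D.children i) (hP : ∀ v ≤ D.n, D.P v ≤ 30)
    (hA : 6 * D.up c ≤ D.P c) : 6 * D.rest i c < 5 * D.down c := by
  obtain ⟨⟨hc1, hcn⟩, hpc⟩ := mem_children.1 hc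
  have hu := up_pos h hc1 hcn
  have hd := down_pos h hc1 hcn
  have h1 := h.det c hc1 hcn
  rw [hpc, P_rest hc] at h1
  have h2 := hP c hcn
  have h3 : D.up c ≤ 5 := by omega
  have h4 : 6 * D.up c * (D.down c * D.rest i c) < (D.up c * D.down c) ^ 2 :=
    (Nat.mul_le_mul_right _ hA).trans_lt h1
  have h5 : (D.up c * D.down c) * (6 * D.rest i c) < (D.up c * D.down c) * (D.up c * D.down c) := by
    calc (D.up c * D.down c) * (6 * D.rest i c) = 6 * D.up c * (D.down c * D.rest i c) := by ring
      _ < _ := h4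
      _ = _ := by ring
  have h6 := Nat.lt_of_mul_lt_mul_left h5
  refine h6.trans_le (Nat.mul_le_mul_right _ h3)

theorem unique_child {i c c' : ℕ} (hi : i ≤ D.n) (hc : c ∈ D.children i) (hc' : c' ∈ D.children i)
    (h1 : 6 * D.rest i c < 5 * D.down c) (h2 : 6 * D.rest i c' < 5 * D.down c') : c = c' := by
  by_contra hne
  have key : ∀ c c' : ℕ, c ≠ c' → c' ∈ D.children i → D.down c' ≤ D.rest i c := by
    intro c c' hne hc'
    unfold rest
    have e1 := leafprod_pos h hi
    have e2 := upw_pos h hi
    have e3 : D.down c' ≤ ∏ c'' ∈ (D.children i).erase c, D.down c'' :=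
      Finset.single_le_prod' (f := D.down) (fun x hx => by
        have := mem_children.1 (Finset.mem_of_mem_erase hx)
        exact down_pos h this.1.1 this.1.2) (Finset.mem_erase.2 ⟨hne.symm, hc'⟩)
    calc D.down c' ≤ 1 * ∏ c'' ∈ (D.children i).erase c, D.down c'' := by rw [one_mul]; exact e3
      _ ≤ _ := Nat.mul_le_mul_right _ (Nat.mul_pos e1 e2)
  have k1 := key c c' hne hc'
  have k2 := key c' c (Ne.symm hne) hc
  omega

/-- some node has product at least 31, if there are at least two nodes -/
theorem exists_P_gt (hn : 1 ≤ D.n) : ∃ v ≤ D.n, 30 < D.P v := by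
  by_contra hcon
  push Not at hcon
  have claim : ∀ k i : ℕ, D.n ≤ i + k → 1 ≤ i → i ≤ D.n → 6 * D.up i ≤ D.P i := by
    intro k
    induction k with
    | zero =>
      intro i h1 h2 h3
      have hch : D.children i = ∅ := by
        rw [Finset.eq_empty_iff_forall_notMem]
        intro c hc
        have h4 := mem_children.1 hc
        have := h.parent_lt c h4.1.1 h4.1.2
        omega
      have h5 := h.three_le i h3
      rw [valence_eq, hch, Finset.card_empty, if_neg (by omega)] at h5
      have h6 := six_le_of_two h h3 (by omega)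
      rw [P_eq, hch, Finset.prod_empty, mul_one, upw, if_neg (by omega)]
      exact Nat.mul_le_mul_right _ h6
    | succ k ih =>
      intro i h1 h2 h3
      have hA : ∀ c ∈ D.children i, 6 * D.rest i c < 5 * D.down c := by
        intro c hc
        have h4 := mem_children.1 hc
        have h5 := h.parent_lt c h4.1.1 h4.1.2
        exact edge h hc hcon (ih c (by omega) h4.1.1 h4.1.2)
      have h5 := h.three_le i h3
      rw [valence_eq, if_neg (by omega)] at h5
      rcases (D.children i).eq_empty_or_nonempty with hch | ⟨c, hc⟩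
      · rw [hch, Finset.card_empty] at h5
        have h6 := six_le_of_two h h3 (by omega)
        rw [P_eq, hch, Finset.prod_empty, mul_one, upw, if_neg (by omega)]
        exact Nat.mul_le_mul_right _ h6
      · have hs : D.children i = {c} := by
          rw [Finset.eq_singleton_iff_unique_mem]
          exact ⟨hc, fun c' hc' => unique_child h h3 hc' hc (hA c' hc') (hA c hc)⟩
        rw [hs, Finset.card_singleton] at h5
        have h6 := two_le_of_one h h3 (by omega)
        have h7 := hA c hc
        have h8 : D.rest i c = (∏ a ∈ D.leaves i, a) * D.up i := by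
          unfold rest upw
          rw [hs, if_neg (by omega), Finset.erase_singleton, Finset.prod_empty, mul_one]
        have hu := up_pos h (by omega) h3
        have h9 : 2 ≤ D.rest i c := by
          rw [h8]
          nlinarith
        have h10 : 3 ≤ D.down c := by omega
        rw [P_rest hc, h8]
        have h11 : 3 * (2 * D.up i) ≤ D.down c * ((∏ a ∈ D.leaves i, a) * D.up i) :=
          Nat.mul_le_mul h10 (Nat.mul_le_mul_right _ h6)
        omega
  have hA : ∀ c ∈ D.children 0, 6 * D.rest 0 c < 5 * D.down c := by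
    intro c hc
    have h4 := mem_children.1 hc
    exact edge h hc hcon (claim D.n c (by omega) h4.1.1 h4.1.2)
  have hc : 1 ∈ D.children 0 := by
    rw [mem_children]
    have := h.parent_lt 1 one_pos hn
    omega
  have hs : D.children 0 = {1} := by
    rw [Finset.eq_singleton_iff_unique_mem]
    exact ⟨hc, fun c' hc' => unique_child h (Nat.zero_le _) hc' hc (hA c' hc') (hA 1 hc)⟩
  have h5 := h.three_le 0 (Nat.zero_le _)
  rw [valence_eq, if_pos rfl, hs, Finset.card_singleton] at h5
  have h6 := six_le_of_two h (Nat.zero_le _) (by omega : 2 ≤ (D.leaves 0).card)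
  have h7 := hA 1 hc
  have h8 : D.rest 0 1 = ∏ a ∈ D.leaves 0, a := by
    unfold rest upw
    rw [hs, if_pos rfl, Finset.erase_singleton, Finset.prod_empty, mul_one, mul_one]
  have h9 := hcon 0 (Nat.zero_le _)
  rw [P_rest hc, h8] at h9
  rw [h8] at h7
  have h10 : 8 ≤ D.down 1 := by omega
  have h11 : 8 * 6 ≤ D.down 1 * ∏ a ∈ D.leaves 0, a := Nat.mul_le_mul h10 h6
  omega

end Diagram

end Pool.Agent.Zk79.LM
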