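import Mathlib
import Pool.Agent.K3h96.OS.Defs

set_option autoImplicit false

/-!
# Splice diagrams and the Ohtsuki series of the links of surface singularities

An integral homology sphere `M` (not the 3-sphere) is the link of a complex surface singularity if and
only if it is given by a splice diagram as below (Eisenbud, Neumann): a tree whose edges have a weight
at each end which is a node; at every node of valence `≥ 3` the weights are pairwise coprime and
positive, the weights of the edges to leaves are `≥ 2`, and all edge determinants are positive.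
-/

namespace Pool.Agent.Zk79.LM

open PowerSeries MeasureTheory ProbabilityTheory Pool.Agent.K3h96.OS

/-- A tree with weights. The nodes are `0, …, n`; the node `i ≠ 0` is joined to the node
`parent i < i`, and this edge has the weight `up i` at the node `i` and the weight `down i` at the node
`parent i`; `leaves i` is the set of the weights (at the node `i`) of the edges from `i` to leaves.
(Every finite tree can be numbered so that `parent i < i`.) -/
@[ext] structure Diagram where
  /-- the number of the last node -/
  n : ℕ
  /-- the neighbour of the node `i` with a smaller number, `0 < i ≤ n` -/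
  parent : ℕ → ℕ
  /-- the weight at `i` of the edge from `i` to `parent i` -/
  up : ℕ → ℕ
  /-- the weight at `parent i` of the edge from `i` to `parent i` -/
  down : ℕ → ℕ
  /-- the weights of the edges from `i` to leaves -/
  leaves : ℕ → Finset ℕ

namespace Diagram

variable (D : Diagram)

/-- the multiset of all weights at the node `i` -/
def weights (i : ℕ) : Multiset ℕ :=
  (D.leaves i).val + (if i = 0 then 0 else {D.up i}) +
    ((Finset.Icc 1 D.n).filter (fun c => D.parent c = i)).val.map D.down

/-- the product of all weights at the node `i` -/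
def P (i : ℕ) : ℕ := (D.weights i).prod

/-- the valence of the node `i` -/
def valence (i : ℕ) : ℕ := Multiset.card (D.weights i)

/-- `D` is a splice diagram of an integral homology sphere which is the link of a surface
singularity (in minimal form). The last four conditions fix the unused values. -/
structure IsSplice : Prop where
  parent_lt : ∀ i, 0 < i → i ≤ D.n → D.parent i < i
  three_le : ∀ i ≤ D.n, 3 ≤ D.valence i
  two_le : ∀ i ≤ D.n, ∀ a ∈ D.leaves i, 2 ≤ a
  pos : ∀ i ≤ D.n, ∀ a ∈ D.weights i, 1 ≤ a
  coprime : ∀ i ≤ D.n, (D.weights i).Pairwise Nat.Coprime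
  /-- the edge determinant `up i * down i - (P i / up i) * (P (parent i) / down i)` is positive -/
  det : ∀ i, 0 < i → i ≤ D.n → D.P i * D.P (D.parent i) < (D.up i * D.down i) ^ 2
  zero : D.parent 0 = 0 ∧ D.up 0 = 0 ∧ D.down 0 = 0
  parent_zero : ∀ i, D.n < i → D.parent i = 0
  weight_zero : ∀ i, D.n < i → D.up i = 0 ∧ D.down i = 0
  leaves_zero : ∀ i, D.n < i → D.leaves i = ∅

/-- `P i / up i / down i`, the quotient of the linking numbers of the fibre of the node `i` and of the
fibre of its parent with a fibre beyond the parent -/
noncomputable def ratio (i : ℕ) : ℝ := (D.P i : ℝ) / D.up i / D.down i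

/-- The linking number of the fibres of the nodes `i` and `j` (of two fibres of the node `i`, if
`i = j`): the product of all weights adjacent to, but not on, the path from `i` to `j`. -/
noncomputable def lk (i j : ℕ) : ℝ :=
  if i = j then D.P i
  else if j < i then (if D.parent i < i then D.ratio i * lk (D.parent i) j else 0)
  else (if D.parent j < j then D.ratio j * lk i (D.parent j) else 0)
termination_by i + j

/-- the covariances: `ℓ(v, w) / 2` for equal coordinates, otherwise `0` -/
noncomputable def cov : Matrix (Fin (D.n + 1) × Fin 3) (Fin (D.n + 1) × Fin 3) ℝ :=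
  fun p q => if p.2 = q.2 then D.lk p.1 q.1 / 2 else 0

/-- the law of the family `x_v ∈ ℝ³`, `v` a node, of centred Gaussian vectors with the covariances
`E x_v x_w^T = ℓ(v, w) / 2` times the unit matrix -/
noncomputable def gauss : Measure (EuclideanSpace ℝ (Fin (D.n + 1) × Fin 3)) :=
  multivariateGaussian 0 D.cov

/-- `|x_v| ^ 2` -/
def nsq {n : ℕ} (x : EuclideanSpace ℝ (Fin (n + 1) × Fin 3)) (v : Fin (n + 1)) : ℝ :=
  ∑ a : Fin 3, x (v, a) ^ 2

end Diagram

/-- the power series `S(z) = ∑ z ^ k / (2 k + 1)!`, so that `S(y ^ 2) = sinh y / y` -/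
noncomputable def sinhc : PowerSeries ℝ := PowerSeries.mk fun k => 1 / ((2 * k + 1).factorial : ℝ)

namespace Diagram

variable (D : Diagram)

/-- the power series `G_v(z)` with
`G_v(y ^ 2) = ∏ (sinh (y / a) / (y / a)) / (sinh y / y) ^ (valence v - 2)`, the product over the weights
`a` of the edges to leaves -/
noncomputable def node (v : ℕ) : PowerSeries ℝ :=
  (∏ a ∈ D.leaves v, rescale (1 / (a : ℝ) ^ 2) sinhc) * sinhc⁻¹ ^ (D.valence v - 2)

/-- the formal Gaussian integral `⟨∏_v G_v(h |x_v| ^ 2)⟩` -/
noncomputable def gaussSeries : PowerSeries ℝ :=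
  PowerSeries.mk fun k =>
    ∫ x, coeff k (∏ v : Fin (D.n + 1), rescale (nsq x v) (D.node v)) ∂D.gauss

/-- The Ohtsuki series of the homology sphere with the splice diagram `D`, in the variable
`h = log q`: `q ^ (-φ / 4) * (h / (q ^ (1 / 2) - q ^ (-1 / 2))) * ⟨∏_v G_v(h |x_v| ^ 2)⟩`. -/
noncomputable def ohtsuki (φ : ℂ) : PowerSeries ℂ :=
  rescale (-φ / 4) (PowerSeries.exp ℂ) * quantumTwo⁻¹ * D.gaussSeries.map (algebraMap ℝ ℂ)

end Diagram

end Pool.Agent.Zk79.LM
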