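import Pool.Agent.Zk79.LM.Sec

set_option autoImplicit false
set_option maxHeartbeats 400000

/-! # A lemma of Watson's type -/

namespace Pool.Agent.Zk79.LM

open Filter Topology

theorem small_of_bounds {y d C : ℝ} (hy : 0 < y) (hC : 0 ≤ C)
    (hb : ∀ K : ℕ, d ≤ C * y ^ K * K.factorial) :
    d ≤ 2 * C * Real.exp (-(Real.log 2 / 2) / y) := by
  obtain ⟨K, hK⟩ : ∃ K : ℕ, K = ⌊1 / (2 * y)⌋₊ := ⟨_, rfl⟩
  have h1 : (K : ℝ) ≤ 1 / (2 * y) := by rw [hK]; exact Nat.floor_le (by positivity)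
  have h2 : 1 / (2 * y) < K + 1 := by rw [hK]; exact Nat.lt_floor_add_one _
  have h3 : (K.factorial : ℝ) ≤ (K : ℝ) ^ K := by exact_mod_cast Nat.factorial_le_pow K
  have h4 : y ^ K * K.factorial ≤ (1 / 2) ^ K := by
    calc y ^ K * K.factorial ≤ y ^ K * (K : ℝ) ^ K := mul_le_mul_of_nonneg_left h3 (by positivity)
      _ = (y * K) ^ K := (mul_pow _ _ _).symm
      _ ≤ (1 / 2) ^ K := by
          refine pow_le_pow_left₀ (by positivity) ?_ K
          calc y * K ≤ y * (1 / (2 * y)) := mul_le_mul_of_nonneg_left h1 hy.le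
            _ = 1 / 2 := by field_simp
  have h5 : (1 / 2 : ℝ) ^ K ≤ 2 * Real.exp (-(Real.log 2 / 2) / y) := by
    have e : (1 / 2 : ℝ) ^ K = Real.exp (-(Real.log 2) * K) := by
      rw [neg_mul, Real.exp_neg, mul_comm, Real.exp_nat_mul, Real.exp_log (by norm_num), one_div,
        inv_pow]
    have e2 : 2 * Real.exp (-(Real.log 2 / 2) / y) =
        Real.exp (Real.log 2 + -(Real.log 2 / 2) / y) := by
      rw [Real.exp_add, Real.exp_log (by norm_num)]
    rw [e, e2]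
    refine Real.exp_le_exp.2 ?_
    have h6 : 0 < Real.log 2 := Real.log_pos (by norm_num)
    have h7 : -(Real.log 2 / 2) / y = -(Real.log 2) * (1 / (2 * y)) := by
      field_simp
    rw [h7]
    nlinarith
  calc d ≤ C * y ^ K * K.factorial := hb K
    _ = C * (y ^ K * K.factorial) := by ring
    _ ≤ C * (2 * Real.exp (-(Real.log 2 / 2) / y)) :=
        mul_le_mul_of_nonneg_left (h4.trans h5) hC
    _ = _ := by ring

/-- the map of the half-plane to the sector -/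
noncomputable def gm (t : ℝ) (u : ℂ) : ℂ := t * (1 + u) ^ ((-(2 / 3) : ℝ) : ℂ)

theorem one_add_mem {u : ℂ} (hu : 0 ≤ u.re) : 1 + u ∈ Complex.slitPlane := by
  left
  simp only [Complex.add_re, Complex.one_re]
  linarith

theorem norm_gm {t : ℝ} (ht : 0 < t) (u : ℂ) : ‖gm t u‖ = t * ‖1 + u‖ ^ (-(2 / 3) : ℝ) := by
  rw [gm, norm_mul, Complex.norm_real, Real.norm_eq_abs, abs_of_pos ht, Complex.norm_cpow_real]

theorem one_le_norm {u : ℂ} (hu : 0 ≤ u.re) : 1 ≤ ‖1 + u‖ := by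
  have h1 := Complex.abs_re_le_norm (1 + u)
  have h2 : (1 + u).re = 1 + u.re := by simp
  rw [h2, abs_of_pos (by linarith)] at h1
  linarith

theorem gm_mem {t : ℝ} (ht : 0 < t) {u : ℂ} (hu : 0 ≤ u.re) : gm t u ∈ Sec := by
  have h0 : (1 + u) ≠ 0 := Complex.slitPlane_ne_zero (one_add_mem hu)
  have hre : 0 < (1 + u).re := by
    simp only [Complex.add_re, Complex.one_re]
    linarith
  have harg : |Complex.arg (1 + u)| < Real.pi / 2 := Complex.abs_arg_lt_pi_div_two_iff.2 (Or.inl hre)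
  obtain ⟨θ, hθ⟩ : ∃ θ, θ = Complex.arg (1 + u) * (-(2 / 3)) := ⟨_, rfl⟩
  have hθ1 : |θ| ≤ Real.pi / 3 := by
    rw [hθ, abs_mul, abs_neg, abs_of_pos (by norm_num : (0 : ℝ) < 2 / 3)]
    linarith
  obtain ⟨ρ, hρ⟩ : ∃ ρ, ρ = Real.exp (Real.log ‖1 + u‖ * (-(2 / 3))) := ⟨_, rfl⟩
  have hρ0 : 0 < ρ := by rw [hρ]; exact Real.exp_pos _
  have e : gm t u = ((t * ρ : ℝ) : ℂ) * Complex.exp (θ * Complex.I) := by
    rw [gm, Complex.cpow_def_of_ne_zero h0, Complex.log, hρ, hθ]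
    push_cast
    rw [mul_assoc, ← Complex.exp_add]
    congr 2
    ring
  have hre2 : (gm t u).re = t * ρ * Real.cos θ := by
    rw [e, Complex.re_ofReal_mul, Complex.exp_ofReal_mul_I_re]
  have him2 : (gm t u).im = t * ρ * Real.sin θ := by
    rw [e, Complex.im_ofReal_mul, Complex.exp_ofReal_mul_I_im]
  have hcos : 1 / 2 ≤ Real.cos θ := by
    rw [← Real.cos_abs θ, ← Real.cos_pi_div_three]
    exact Real.cos_le_cos_of_nonneg_of_le_pi (abs_nonneg _) (by linarith [Real.pi_pos]) hθ1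
  have hpos : 0 < t * ρ := mul_pos ht hρ0
  show |(gm t u).im| < 3 * (gm t u).re
  rw [hre2, him2, abs_mul, abs_of_pos hpos]
  have hsin := Real.abs_sin_le_one θ
  nlinarith

theorem differentiableAt_gm (t : ℝ) {u : ℂ} (hu : 0 ≤ u.re) : DifferentiableAt ℂ (gm t) u := by
  unfold gm
  refine DifferentiableAt.const_mul ?_ _
  exact DifferentiableAt.cpow (by fun_prop) (by fun_prop) (one_add_mem hu)

/-- **Watson's lemma.** -/
theorem watson {F : ℂ → ℂ} (hd : DifferentiableOn ℂ F Sec) {t : ℝ} (ht : 0 < t) {C A : ℝ}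
    (hC : 0 ≤ C) (hA : 0 < A)
    (hb : ∀ w ∈ Sec, ‖w‖ ≤ t → ∀ K : ℕ, ‖F w‖ ≤ C * (A * ‖w‖ ^ 2) ^ K * K.factorial) :
    F t = 0 := by
  obtain ⟨c, hc⟩ : ∃ c, c = Real.log 2 / 2 / (A * t ^ 2) := ⟨_, rfl⟩
  have hc0 : 0 < c := by
    rw [hc]
    have : 0 < Real.log 2 := Real.log_pos (by norm_num)
    positivity
  have key : ∀ u : ℂ, 0 ≤ u.re →
      ‖F (gm t u)‖ ≤ 2 * C * Real.exp (-c * ‖1 + u‖ ^ (4 / 3 : ℝ)) := by
    intro u hu
    have h1 := one_le_norm hu
    have hn := norm_gm ht u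
    have h2 : ‖1 + u‖ ^ (-(2 / 3) : ℝ) ≤ 1 :=
      Real.rpow_le_one_of_one_le_of_nonpos h1 (by norm_num)
    have h3 : ‖gm t u‖ ≤ t := by
      rw [hn]
      exact mul_le_of_le_one_right ht.le h2
    have h4 : 0 < ‖1 + u‖ ^ (-(2 / 3) : ℝ) := Real.rpow_pos_of_pos (by linarith) _
    have h5 : 0 < A * ‖gm t u‖ ^ 2 := by rw [hn]; positivity
    have h6 := small_of_bounds h5 hC (hb _ (gm_mem ht hu) h3)
    refine h6.trans (le_of_eq ?_)
    congr 2
    rw [hn, hc, mul_pow, ← Real.rpow_natCast (‖1 + u‖ ^ (-(2 / 3) : ℝ)) 2, ← Real.rpow_mul (by linarith)]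
    have e : (-(2 / 3) : ℝ) * ((2 : ℕ) : ℝ) = -(4 / 3) := by norm_num
    rw [e, Real.rpow_neg (by linarith)]
    have h7 : ‖1 + u‖ ^ (4 / 3 : ℝ) ≠ 0 := (Real.rpow_pos_of_pos (by linarith) _).ne'
    have h8 : t ≠ 0 := ht.ne'
    have h9 : A ≠ 0 := hA.ne'
    field_simp
  have hbd : ∀ u : ℂ, 0 ≤ u.re → ‖F (gm t u)‖ ≤ 2 * C := by
    intro u hu
    refine (key u hu).trans ?_
    refine mul_le_of_le_one_right (by positivity) ?_
    rw [Real.exp_le_one_iff]
    have : 0 ≤ ‖1 + u‖ ^ (4 / 3 : ℝ) := Real.rpow_nonneg (norm_nonneg _) _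
    nlinarith
  have hz := PhragmenLindelof.eq_zero_on_right_half_plane_of_superexponential_decay
    (f := fun u => F (gm t u)) ?_ ?_ ?_ ?_
  · have h1 := hz (by simp : (0 : ℂ) ∈ {z : ℂ | 0 ≤ z.re})
    have h2 : gm t 0 = t := by
      rw [gm, add_zero, Complex.one_cpow, mul_one]
    simpa [h2] using h1
  · refine DifferentiableOn.diffContOnCl ?_
    have hcl : closure {z : ℂ | 0 < z.re} = {z : ℂ | 0 ≤ z.re} := Complex.closure_setOfPred_lt_re 0
    rw [hcl]
    intro u hu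
    have hu' : 0 ≤ u.re := hu
    refine (DifferentiableAt.comp u ?_ (differentiableAt_gm t hu')).differentiableWithinAt
    exact hd.differentiableAt (isOpen_Sec.mem_nhds (gm_mem ht hu'))
  · refine ⟨1, by norm_num, 0, ?_⟩
    refine Asymptotics.IsBigO.of_bound (2 * C) ?_
    refine mem_inf_of_right ?_
    intro u hu
    have hu' : 0 < u.re := hu
    simp only [zero_mul, Real.exp_zero, norm_one, mul_one, Set.mem_ofPred_eq]
    exact hbd u hu'.le
  · intro n
    have h1 : ∀ᶠ x : ℝ in atTop, (n + 1 : ℝ) / c ≤ (1 + x) ^ (1 / 3 : ℝ) := by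
      have := (tendsto_rpow_atTop (by norm_num : (0 : ℝ) < 1 / 3)).comp
        (tendsto_atTop_add_const_left atTop (1 : ℝ) tendsto_id)
      exact this.eventually_ge_atTop _
    have h2 : Tendsto (fun x : ℝ => 2 * C * Real.exp (-x)) atTop (𝓝 0) := by
      have := (Real.tendsto_exp_neg_atTop_nhds_zero).const_mul (2 * C)
      simpa using this
    refine squeeze_zero_norm' ?_ h2
    filter_upwards [h1, eventually_ge_atTop 0] with x hx hx0
    have hk := key x (by simpa using hx0)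
    have e : ‖(1 : ℂ) + x‖ = 1 + x := by
      have : (1 : ℂ) + x = ((1 + x : ℝ) : ℂ) := by push_cast; ring
      rw [this, Complex.norm_real, Real.norm_eq_abs, abs_of_nonneg (by linarith)]
    rw [e] at hk
    rw [norm_mul, norm_norm, Real.norm_eq_abs, abs_of_nonneg (by positivity), ← Real.exp_nat_mul]
    have h3 : (1 + x) ^ (4 / 3 : ℝ) = (1 + x) * (1 + x) ^ (1 / 3 : ℝ) := by
      rw [show (4 / 3 : ℝ) = 1 + 1 / 3 by norm_num, Real.rpow_add (by linarith), Real.rpow_one]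
    have h4 : (n + 1) * x ≤ c * (1 + x) ^ (4 / 3 : ℝ) := by
      rw [h3]
      rw [div_le_iff₀ hc0] at hx
      have : 0 ≤ (1 + x) ^ (1 / 3 : ℝ) := Real.rpow_nonneg (by linarith) _
      nlinarith
    calc Real.exp (n * x) * ‖F (gm t x)‖
        ≤ Real.exp (n * x) * (2 * C * Real.exp (-c * (1 + x) ^ (4 / 3 : ℝ))) :=
          mul_le_mul_of_nonneg_left hk (Real.exp_pos _).le
      _ = 2 * C * Real.exp (n * x + -c * (1 + x) ^ (4 / 3 : ℝ)) := by
          rw [Real.exp_add]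
          ring
      _ ≤ 2 * C * Real.exp (-x) := by
          refine mul_le_mul_of_nonneg_left (Real.exp_le_exp.2 ?_) (by positivity)
          linarith
  · exact ⟨2 * C, fun x => hbd _ (by simp)⟩

end Pool.Agent.Zk79.LM
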