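import Pool.Agent.Zk79.LM.Point
import Pool.Agent.Zk79.LM.Wat

set_option autoImplicit false
set_option maxHeartbeats 400000

/-! # The function `E(h)` and its asymptotic expansion -/

namespace Pool.Agent.Zk79.LM

open PowerSeries Finset MeasureTheory Filter Topology ProbabilityTheory Diagram

theorem holo_integral {X : Type*} [MeasurableSpace X] {μ : Measure X} {U : Set ℂ} (hU : IsOpen U)
    {F : ℂ → X → ℂ} (hF : ∀ x, DifferentiableOn ℂ (fun w => F w x) U)
    (hm : ∀ w ∈ U, AEStronglyMeasurable (F w) μ) {b : X → ℝ} (hb : Integrable b μ)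
    (hbd : ∀ w ∈ U, ∀ x, ‖F w x‖ ≤ b x) : DifferentiableOn ℂ (fun w => ∫ x, F w x ∂μ) U := by
  intro w0 hw0
  obtain ⟨ε, hε, hball⟩ := Metric.isOpen_iff.1 hU w0 hw0
  obtain ⟨r, hr, hr2⟩ : ∃ r : ℝ, 0 < r ∧ 2 * r = ε := ⟨ε / 2, by positivity, by ring⟩
  have hin : ∀ w ∈ Metric.ball w0 r, Metric.closedBall w r ⊆ U := by
    intro w hw z hz
    apply hball
    rw [Metric.mem_ball] at hw ⊢
    rw [Metric.mem_closedBall] at hz
    have := dist_triangle z w w0
    linarith
  have hmemU : ∀ w ∈ Metric.ball w0 r, w ∈ U := fun w hw =>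
    hin w hw (Metric.mem_closedBall_self hr.le)
  have hdiff : ∀ x, ∀ w ∈ Metric.ball w0 r, HasDerivAt (fun w => F w x)
      (deriv (fun w => F w x) w) w := fun x w hw =>
    ((hF x).differentiableAt (hU.mem_nhds (hmemU w hw))).hasDerivAt
  have hmeas : AEStronglyMeasurable (fun x => deriv (fun w => F w x) w0) μ := by
    have hw00 : w0 ∈ Metric.ball w0 r := Metric.mem_ball_self hr
    obtain ⟨s, hs⟩ : ∃ s : ℕ → ℂ, s = fun n : ℕ => ((r / (n + 2) : ℝ) : ℂ) := ⟨_, rfl⟩
    have hs1 : ∀ n, w0 + s n ∈ U := by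
      intro n
      apply hmemU
      rw [Metric.mem_ball, dist_eq_norm, add_sub_cancel_left, hs, Complex.norm_real,
        Real.norm_eq_abs, abs_of_pos (by positivity)]
      rw [div_lt_iff₀ (by positivity)]
      have : (0 : ℝ) ≤ n := Nat.cast_nonneg n
      nlinarith
    have hs2 : Tendsto s atTop (𝓝[≠] 0) := by
      rw [tendsto_nhdsWithin_iff]
      constructor
      · rw [hs]
        have h1 : Tendsto (fun n : ℕ => r / ((n : ℝ) + 2)) atTop (𝓝 0) := by
          refine Tendsto.div_atTop tendsto_const_nhds ?_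
          exact tendsto_atTop_add_const_right atTop 2 tendsto_natCast_atTop_atTop
        have h2 := (Complex.continuous_ofReal.tendsto 0).comp h1
        rw [Complex.ofReal_zero] at h2
        exact h2
      · filter_upwards with n
        rw [hs]
        simp only [Set.mem_compl_iff, Set.mem_singleton_iff]
        have : r / ((n : ℝ) + 2) ≠ 0 := by positivity
        exact_mod_cast this
    refine aestronglyMeasurable_of_tendsto_ae (u := atTop)
      (f := fun n x => (s n)⁻¹ • (F (w0 + s n) x - F w0 x)) (fun n => ?_) ?_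
    · show AEStronglyMeasurable ((s n)⁻¹ • (F (w0 + s n) - F w0)) μ
      exact ((hm _ (hs1 n)).sub (hm w0 hw0)).const_smul _
    · filter_upwards with x
      have h3 := (hdiff x w0 hw00).tendsto_slope_zero
      exact h3.comp hs2
  have h1 := hasDerivAt_integral_of_dominated_loc_of_deriv_le (μ := μ) (𝕜 := ℂ) (F := F)
    (F' := fun w x => deriv (fun w => F w x) w) (x₀ := w0) (s := Metric.ball w0 r)
    (bound := fun x => b x / r) (Metric.ball_mem_nhds w0 hr) ?_ ?_ hmeas ?_ (hb.div_const r) ?_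
  · exact h1.2.differentiableAt.differentiableWithinAt
  · filter_upwards [hU.mem_nhds hw0] with w hw
    exact hm w hw
  · exact hb.mono' (hm w0 hw0) (by filter_upwards with x; exact hbd w0 hw0 x)
  · filter_upwards with x w hw
    refine Complex.norm_deriv_le_of_forall_mem_sphere_norm_le hr ?_ ?_
    · refine DifferentiableOn.diffContOnCl ?_
      exact (hF x).mono ((closure_mono (Metric.ball_subset_closedBall)).trans
        (by rw [Metric.isClosed_closedBall.closure_eq]; exact hin w hw))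
    · intro z hz
      exact hbd z (hin w hw (Metric.sphere_subset_closedBall hz)) x
  · filter_upwards with x w hw
    exact hdiff x w hw

variable (D : Diagram)

/-- the space of the Gaussian vectors -/
abbrev Sp (n : ℕ) := EuclideanSpace ℝ (Fin (n + 1) × Fin 3)

theorem nsq_nonneg {n : ℕ} (x : Sp n) (v : Fin (n + 1)) : 0 ≤ nsq x v :=
  sum_nonneg fun _ _ => sq_nonneg _

theorem norm_sq_eq {n : ℕ} (x : Sp n) : ‖x‖ ^ 2 = ∑ v, nsq x v := by
  rw [EuclideanSpace.real_norm_sq_eq, Fintype.sum_prod_type]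
  rfl

theorem nsq_le {n : ℕ} (x : Sp n) (v : Fin (n + 1)) : nsq x v ≤ 1 + ‖x‖ ^ 2 := by
  rw [norm_sq_eq]
  have := single_le_sum (f := fun v => nsq x v) (fun v _ => nsq_nonneg x v) (mem_univ v)
  linarith

theorem continuous_nsq {n : ℕ} (v : Fin (n + 1)) : Continuous fun x : Sp n => nsq x v := by
  unfold nsq
  fun_prop

theorem continuous_coeff_prod {n : ℕ} (s : Finset (Fin (n + 1))) (f : Fin (n + 1) → PowerSeries ℝ)
    (k : ℕ) : Continuous fun x : Sp n => coeff k (∏ v ∈ s, rescale (nsq x v) (f v)) := by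
  classical
  induction s using Finset.induction_on generalizing k with
  | empty => simp only [prod_empty]; exact continuous_const
  | insert i s hi ih =>
    simp only [prod_insert hi, coeff_mul, coeff_rescale]
    refine continuous_finsetSum _ fun p _ => ?_
    exact (((continuous_nsq i).pow _).mul continuous_const).mul (ih p.2)

theorem continuous_FF (k : ℕ) : Continuous fun x : Sp D.n => coeff k (FF D (nsq x)) :=
  continuous_coeff_prod univ _ k

theorem continuous_PP {w : ℂ} (hw : w ∈ Sec) :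
    Continuous fun x : Sp D.n => PP D (nsq x) (w ^ 2) := by
  unfold PP psi
  refine continuous_finsetProd _ fun v _ => ?_
  have h1 : ∀ c : ℂ, Continuous fun x : Sp D.n => Sf (c * ((nsq x v : ℂ) * w ^ 2)) := fun c =>
    differentiable_Sf.continuous.comp (continuous_const.mul
      ((Complex.continuous_ofReal.comp (continuous_nsq v)).mul continuous_const))
  refine Continuous.mul (continuous_finsetProd _ fun a _ => h1 _) ?_
  refine Continuous.pow (Continuous.inv₀ ?_ fun x => Sf_ne hw (nsq_nonneg x v)) _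
  simpa using h1 1

/-- the function `E`, in the variable `w`, `h = w ^ 2` -/
noncomputable def EE (w : ℂ) : ℂ := ∫ x, PP D (nsq x) (w ^ 2) ∂D.gauss

instance : IsGaussian D.gauss := by
  unfold Diagram.gauss
  infer_instance

theorem sqrt_bound {a C0 N : ℝ} (hC : 0 < C0) (hN : 0 ≤ N) :
    a * √N ≤ a ^ 2 / (2 * C0) + C0 / 2 * N := by
  obtain ⟨q, hq⟩ : ∃ q, q = √N := ⟨_, rfl⟩
  have h1 : N = q ^ 2 := by rw [hq, Real.sq_sqrt hN]
  rw [← hq, h1]
  have h2 : 0 ≤ (a - C0 * q) ^ 2 / (2 * C0) := by positivity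
  have h3 : (a - C0 * q) ^ 2 / (2 * C0) = a ^ 2 / (2 * C0) + C0 / 2 * q ^ 2 - a * q := by
    field_simp
    ring
  linarith

/-- the dominating function -/
theorem norm_PP_dom {R C0 : ℝ} (hC : 0 < C0) {w : ℂ} (hw : w ∈ Sec) (hR : ‖w‖ ≤ R) (x : Sp D.n) :
    ‖PP D (nsq x) (w ^ 2)‖ ≤ cc D * Real.exp ((lc D * R) ^ 2 / (2 * C0)) *
      Real.exp (C0 * (1 + ‖x‖ ^ 2)) := by
  have hN : (0 : ℝ) ≤ 1 + ‖x‖ ^ 2 := by positivity
  refine (norm_PP_le (nsq_nonneg x) (nsq_le x) hw).trans ?_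
  rw [mul_assoc, ← Real.exp_add]
  refine mul_le_mul_of_nonneg_left (Real.exp_le_exp.2 ?_) (cc_pos D).le
  have h1 := sqrt_bound (a := lc D * R) hC hN
  have h2 : (lc D : ℝ) * (‖w‖ * √(1 + ‖x‖ ^ 2)) ≤ lc D * R * √(1 + ‖x‖ ^ 2) := by
    rw [← mul_assoc]
    exact mul_le_mul_of_nonneg_right (mul_le_mul_of_nonneg_left hR (by positivity))
      (Real.sqrt_nonneg _)
  have h3 : 0 ≤ C0 * (1 + ‖x‖ ^ 2) := by positivity
  linarith

theorem exists_exp : ∃ C0 : ℝ, 0 < C0 ∧
    Integrable (fun x : Sp D.n => Real.exp (C0 * (1 + ‖x‖ ^ 2))) D.gauss := by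
  obtain ⟨C0, h0, h1⟩ := IsGaussian.exists_integrable_exp_sq D.gauss
  refine ⟨C0, h0, ?_⟩
  have : (fun x : Sp D.n => Real.exp (C0 * (1 + ‖x‖ ^ 2))) =
      fun x => Real.exp C0 * Real.exp (C0 * ‖x‖ ^ 2) := by
    funext x
    rw [← Real.exp_add]
    ring_nf
  rw [this]
  exact h1.const_mul _

theorem integrable_PP {w : ℂ} (hw : w ∈ Sec) :
    Integrable (fun x : Sp D.n => PP D (nsq x) (w ^ 2)) D.gauss := by
  obtain ⟨C0, h0, h1⟩ := exists_exp D
  refine (h1.const_mul (cc D * Real.exp ((lc D * ‖w‖) ^ 2 / (2 * C0)))).mono'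
    (continuous_PP D hw).aestronglyMeasurable ?_
  filter_upwards with x
  exact norm_PP_dom D h0 hw le_rfl x

/-- `E` is holomorphic in the sector -/
theorem differentiableOn_EE : DifferentiableOn ℂ (EE D) Sec := by
  obtain ⟨C0, h0, h1⟩ := exists_exp D
  intro w hw
  obtain ⟨R, hR⟩ : ∃ R, R = ‖w‖ + 1 := ⟨_, rfl⟩
  have hU : IsOpen (Sec ∩ Metric.ball (0 : ℂ) R) := isOpen_Sec.inter Metric.isOpen_ball
  have h2 : DifferentiableOn ℂ (EE D) (Sec ∩ Metric.ball 0 R) := by
    refine holo_integral hU (F := fun w x => PP D (nsq x) (w ^ 2)) (fun x => ?_)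
      (fun w hw => (continuous_PP D hw.1).aestronglyMeasurable) (h1.const_mul _)
      (fun w hw x => norm_PP_dom D h0 hw.1 (by
        have := hw.2
        rw [mem_ball_zero_iff] at this
        exact this.le) x)
    unfold PP
    refine DifferentiableOn.fun_finsetProd fun v _ => ?_
    exact (differentiableOn_psi D v (nsq_nonneg x v)).mono Set.inter_subset_left
  have hmem : w ∈ Sec ∩ Metric.ball (0 : ℂ) R := ⟨hw, by
    rw [mem_ball_zero_iff, hR]
    linarith⟩
  exact (h2.differentiableAt (hU.mem_nhds hmem)).differentiableWithinAt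

theorem integrable_coeff (k : ℕ) :
    Integrable (fun x : Sp D.n => coeff k (FF D (nsq x))) D.gauss := by
  obtain ⟨C0, h0, h1⟩ := exists_exp D
  refine (h1.const_mul (MM D * (1 / 2) ^ k * ((k.factorial : ℝ) * (1 / C0) ^ k))).mono'
    (continuous_FF D k).aestronglyMeasurable ?_
  filter_upwards with x
  have hN : (1 : ℝ) ≤ 1 + ‖x‖ ^ 2 := by
    have := sq_nonneg ‖x‖
    linarith
  rw [Real.norm_eq_abs]
  refine (coeff_FF_le (nsq_nonneg x) (nsq_le x) hN k).trans ?_
  have h2 := Real.pow_div_factorial_le_exp (C0 * (1 + ‖x‖ ^ 2)) (by positivity) k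
  rw [div_le_iff₀ (by positivity)] at h2
  have h3 : (1 + ‖x‖ ^ 2) ^ k ≤ (k.factorial : ℝ) * (1 / C0) ^ k *
      Real.exp (C0 * (1 + ‖x‖ ^ 2)) := by
    calc (1 + ‖x‖ ^ 2) ^ k = (C0 * (1 + ‖x‖ ^ 2)) ^ k * (1 / C0) ^ k := by
          rw [← mul_pow]
          congr 1
          field_simp
      _ ≤ (Real.exp (C0 * (1 + ‖x‖ ^ 2)) * k.factorial) * (1 / C0) ^ k :=
          mul_le_mul_of_nonneg_right h2 (by positivity)
      _ = _ := by ring
  rw [div_pow, ← one_div_mul_eq_div, ← one_div_pow]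
  calc MM D * ((1 / 2) ^ k * (1 + ‖x‖ ^ 2) ^ k) = MM D * (1 / 2) ^ k * (1 + ‖x‖ ^ 2) ^ k := by ring
    _ ≤ MM D * (1 / 2) ^ k * ((k.factorial : ℝ) * (1 / C0) ^ k *
        Real.exp (C0 * (1 + ‖x‖ ^ 2))) :=
        mul_le_mul_of_nonneg_left h3 (mul_nonneg (MM_nonneg D) (by positivity))
    _ = _ := by ring

theorem coeff_gaussSeries (k : ℕ) :
    coeff k D.gaussSeries = ∫ x, coeff k (FF D (nsq x)) ∂D.gauss := by
  rw [Diagram.gaussSeries, coeff_mk]
  rfl

/-- **the asymptotic expansion of `E`** -/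
theorem gevrey (R : ℝ) : ∃ C A : ℝ, 0 ≤ C ∧ 1 ≤ A ∧ ∀ w ∈ Sec, ‖w‖ ≤ R → ∀ K : ℕ,
    ‖EE D w - part D.gaussSeries K (w ^ 2)‖ ≤ C * (A * ‖w‖ ^ 2) ^ K * K.factorial := by
  obtain ⟨C0, h0, h1⟩ := exists_exp D
  obtain ⟨I, hI⟩ : ∃ I, I = ∫ x : Sp D.n, Real.exp (C0 * (1 + ‖x‖ ^ 2)) ∂D.gauss := ⟨_, rfl⟩
  have hI0 : 0 ≤ I := by
    rw [hI]
    exact integral_nonneg fun x => (Real.exp_pos _).le
  obtain ⟨C1, hC1⟩ : ∃ C1, C1 = (2 * MM D + cc D) * Real.exp ((lc D * R) ^ 2 / (2 * C0)) :=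
    ⟨_, rfl⟩
  have hC10 : 0 ≤ C1 := by
    rw [hC1]
    have := MM_nonneg D
    have := cc_pos D
    positivity
  refine ⟨C1 * I, max 1 (2 / C0), by positivity, le_max_left _ _, ?_⟩
  intro w hw hwR K
  have hpart : part D.gaussSeries K (w ^ 2) = ∫ x, part (FF D (nsq x)) K (w ^ 2) ∂D.gauss := by
    unfold part
    rw [integral_finsetSum]
    · refine sum_congr rfl fun k _ => ?_
      rw [coeff_gaussSeries, integral_mul_const, integral_complex_ofReal]
    · intro k _
      exact (integrable_coeff D k).ofReal.mul_const _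
  have hpi : Integrable (fun x : Sp D.n => part (FF D (nsq x)) K (w ^ 2)) D.gauss := by
    unfold part
    exact integrable_finsetSum _ fun k _ => (integrable_coeff D k).ofReal.mul_const _
  rw [EE, hpart, ← integral_sub (integrable_PP D hw) hpi]
  have hb : ∀ x : Sp D.n, ‖PP D (nsq x) (w ^ 2) - part (FF D (nsq x)) K (w ^ 2)‖ ≤
      C1 * ((max 1 (2 / C0) * ‖w‖ ^ 2) ^ K * K.factorial) *
        Real.exp (C0 * (1 + ‖x‖ ^ 2)) := by
    intro x
    have hN : (1 : ℝ) ≤ 1 + ‖x‖ ^ 2 := by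
      have := sq_nonneg ‖x‖
      linarith
    refine (rem_point (nsq_nonneg x) (nsq_le x) hN hw K).trans ?_
    have h2 := Real.pow_div_factorial_le_exp (C0 / 2 * (1 + ‖x‖ ^ 2)) (by positivity) K
    rw [div_le_iff₀ (by positivity)] at h2
    have h3 : ((1 + ‖x‖ ^ 2) * ‖w‖ ^ 2) ^ K ≤ (max 1 (2 / C0) * ‖w‖ ^ 2) ^ K * K.factorial *
        Real.exp (C0 / 2 * (1 + ‖x‖ ^ 2)) := by
      calc ((1 + ‖x‖ ^ 2) * ‖w‖ ^ 2) ^ K =
            (C0 / 2 * (1 + ‖x‖ ^ 2)) ^ K * (2 / C0 * ‖w‖ ^ 2) ^ K := by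
            rw [← mul_pow]
            congr 1
            field_simp
        _ ≤ (Real.exp (C0 / 2 * (1 + ‖x‖ ^ 2)) * K.factorial) *
            (max 1 (2 / C0) * ‖w‖ ^ 2) ^ K := by
            refine mul_le_mul h2 ?_ (by positivity) (by positivity)
            refine pow_le_pow_left₀ (by positivity) ?_ K
            exact mul_le_mul_of_nonneg_right (le_max_right _ _) (by positivity)
        _ = _ := by ring
    have h4 : Real.exp (lc D * (‖w‖ * √(1 + ‖x‖ ^ 2))) ≤
        Real.exp ((lc D * R) ^ 2 / (2 * C0)) * Real.exp (C0 / 2 * (1 + ‖x‖ ^ 2)) := by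
      rw [← Real.exp_add]
      refine Real.exp_le_exp.2 ?_
      have h5 := sqrt_bound (a := lc D * R) h0 (by positivity : (0 : ℝ) ≤ 1 + ‖x‖ ^ 2)
      have h6 : (lc D : ℝ) * (‖w‖ * √(1 + ‖x‖ ^ 2)) ≤ lc D * R * √(1 + ‖x‖ ^ 2) := by
        rw [← mul_assoc]
        exact mul_le_mul_of_nonneg_right (mul_le_mul_of_nonneg_left hwR (by positivity))
          (Real.sqrt_nonneg _)
      linarith
    have h7 : 0 ≤ 2 * MM D + cc D := by
      have := MM_nonneg D
      have := cc_pos D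
      linarith
    calc (2 * MM D + cc D) * ((1 + ‖x‖ ^ 2) * ‖w‖ ^ 2) ^ K *
          Real.exp (lc D * (‖w‖ * √(1 + ‖x‖ ^ 2)))
        ≤ (2 * MM D + cc D) * ((max 1 (2 / C0) * ‖w‖ ^ 2) ^ K * K.factorial *
          Real.exp (C0 / 2 * (1 + ‖x‖ ^ 2))) *
          (Real.exp ((lc D * R) ^ 2 / (2 * C0)) * Real.exp (C0 / 2 * (1 + ‖x‖ ^ 2))) := by
          refine mul_le_mul (mul_le_mul_of_nonneg_left h3 h7) h4 (Real.exp_pos _).le ?_
          exact mul_nonneg h7 (by positivity)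
      _ = C1 * ((max 1 (2 / C0) * ‖w‖ ^ 2) ^ K * K.factorial) *
          (Real.exp (C0 / 2 * (1 + ‖x‖ ^ 2)) * Real.exp (C0 / 2 * (1 + ‖x‖ ^ 2))) := by
          rw [hC1]
          ring
      _ = _ := by
          rw [← Real.exp_add]
          congr 2
          ring
  refine (norm_integral_le_of_norm_le (h1.const_mul _) (by filter_upwards with x; exact hb x)).trans ?_
  rw [integral_const_mul, ← hI]
  exact le_of_eq (by ring)

end Pool.Agent.Zk79.LM
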