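import Pool.Agent.Zk79.LM.Comb

set_option autoImplicit false

/-! # The matrix of the linking numbers is positive definite -/

namespace Pool.Agent.Zk79.LM

namespace Diagram

open Finset

variable {D : Diagram}

theorem lk_self (i : ℕ) : D.lk i i = D.P i := by
  rw [lk, if_pos rfl]

variable (h : D.IsSplice)
include h

theorem lk_lt {i j : ℕ} (hji : j < i) (hi : i ≤ D.n) :
    D.lk i j = D.ratio i * D.lk (D.parent i) j := by
  rw [lk, if_neg (by omega), if_pos hji, if_pos (h.parent_lt i (by omega) hi)]

theorem lk_gt {i j : ℕ} (hij : i < j) (hj : j ≤ D.n) :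
    D.lk i j = D.ratio j * D.lk i (D.parent j) := by
  rw [lk, if_neg (by omega), if_neg (by omega), if_pos (h.parent_lt j (by omega) hj)]

theorem lk_symm' : ∀ N i j : ℕ, i + j ≤ N → i ≤ D.n → j ≤ D.n → D.lk i j = D.lk j i := by
  intro N
  induction N with
  | zero =>
    intro i j hN _ _
    obtain rfl : i = 0 := by omega
    obtain rfl : j = 0 := by omega
    rfl
  | succ N ih =>
    intro i j hN hi hj
    rcases lt_trichotomy i j with h1 | h1 | h1
    · have hp := h.parent_lt j (by omega) hj
      rw [lk_gt h h1 hj, lk_lt h h1 hj, ih i (D.parent j) (by omega) hi (by omega)]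
    · rw [h1]
    · have hp := h.parent_lt i (by omega) hi
      rw [lk_gt h h1 hi, lk_lt h h1 hi, ih (D.parent i) j (by omega) (by omega) hj]

theorem lk_symm {i j : ℕ} (hi : i ≤ D.n) (hj : j ≤ D.n) : D.lk i j = D.lk j i :=
  lk_symm' h (i + j) i j le_rfl hi hj

omit h in
/-- the bilinear form of the first `k` nodes -/
noncomputable def bil (D : Diagram) (k : ℕ) (x y : ℕ → ℝ) : ℝ :=
  ∑ i ∈ range k, ∑ j ∈ range k, x i * D.lk i j * y j

omit h in
theorem bil_add_left (k : ℕ) (x x' y : ℕ → ℝ) :
    D.bil k (fun i => x i + x' i) y = D.bil k x y + D.bil k x' y := by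
  unfold bil
  rw [← sum_add_distrib]
  refine sum_congr rfl fun i _ => ?_
  rw [← sum_add_distrib]
  exact sum_congr rfl fun j _ => by ring

omit h in
theorem bil_add_right (k : ℕ) (x y y' : ℕ → ℝ) :
    D.bil k x (fun i => y i + y' i) = D.bil k x y + D.bil k x y' := by
  unfold bil
  rw [← sum_add_distrib]
  refine sum_congr rfl fun i _ => ?_
  rw [← sum_add_distrib]
  exact sum_congr rfl fun j _ => by ring

omit h in
theorem bil_single_left (k p : ℕ) (hp : p < k) (c : ℝ) (y : ℕ → ℝ) :
    D.bil k (fun i => if i = p then c else 0) y = ∑ j ∈ range k, c * D.lk p j * y j := by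
  unfold bil
  rw [sum_eq_single p]
  · simp
  · intro b _ hb
    simp [hb]
  · intro hn
    exact absurd (mem_range.2 hp) hn

omit h in
theorem bil_single_right (k p : ℕ) (hp : p < k) (c : ℝ) (x : ℕ → ℝ) :
    D.bil k x (fun i => if i = p then c else 0) = ∑ j ∈ range k, x j * D.lk j p * c := by
  unfold bil
  refine sum_congr rfl fun i _ => ?_
  rw [sum_eq_single p]
  · simp
  · intro b _ hb
    simp [hb]
  · intro hn
    exact absurd (mem_range.2 hp) hn

theorem bil_succ {k : ℕ} (hk0 : 0 < k) (hk : k ≤ D.n) (x : ℕ → ℝ) :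
    D.bil (k + 1) x x = D.bil k
      (fun i => x i + if i = D.parent k then D.ratio k * x k else 0)
      (fun i => x i + if i = D.parent k then D.ratio k * x k else 0) +
      (D.P k - D.ratio k ^ 2 * D.P (D.parent k)) * x k ^ 2 := by
  have hp := h.parent_lt k hk0 hk
  rw [bil_add_left, bil_add_right, bil_add_right, bil_single_left _ _ hp, bil_single_right _ _ hp,
    bil_single_left _ _ hp]
  have e1 : D.bil (k + 1) x x = D.bil k x x + (∑ j ∈ range k, x j * D.lk j k * x k) +
      (∑ j ∈ range k, x k * D.lk k j * x j) + x k * D.lk k k * x k := by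
    unfold bil
    rw [sum_range_succ, sum_range_succ]
    have : ∑ i ∈ range k, ∑ j ∈ range (k + 1), x i * D.lk i j * x j =
        ∑ i ∈ range k, ∑ j ∈ range k, x i * D.lk i j * x j +
        ∑ i ∈ range k, x i * D.lk i k * x k := by
      rw [← sum_add_distrib]
      exact sum_congr rfl fun i _ => sum_range_succ _ _
    rw [this]
    ring
  have e2 : ∑ j ∈ range k, x j * D.lk j k * x k =
      ∑ j ∈ range k, x j * D.lk j (D.parent k) * (D.ratio k * x k) := by
    refine sum_congr rfl fun j hj => ?_
    rw [mem_range] at hj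
    rw [lk_gt h hj hk]
    ring
  have e3 : ∑ j ∈ range k, x k * D.lk k j * x j =
      ∑ j ∈ range k, D.ratio k * x k * D.lk (D.parent k) j * x j := by
    refine sum_congr rfl fun j hj => ?_
    rw [mem_range] at hj
    rw [lk_lt h hj hk]
    ring
  have e4 : ∑ j ∈ range k, D.ratio k * x k * D.lk (D.parent k) j *
      (if j = D.parent k then D.ratio k * x k else 0) =
      D.ratio k * x k * D.P (D.parent k) * (D.ratio k * x k) := by
    rw [sum_eq_single (D.parent k)]
    · rw [if_pos rfl, lk_self]
    · intro b _ hb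
      rw [if_neg hb, mul_zero]
    · intro hn
      exact absurd (mem_range.2 hp) hn
  rw [e1, e2, e3, e4, lk_self]
  ring

theorem bil_pos : ∀ k, k ≤ D.n + 1 → ∀ x : ℕ → ℝ,
    0 ≤ D.bil k x x ∧ (D.bil k x x = 0 → ∀ j < k, x j = 0) := by
  intro k
  induction k with
  | zero =>
    intro _ x
    refine ⟨by simp [bil], fun _ j hj => absurd hj (by omega)⟩
  | succ k ih =>
    intro hk x
    rcases Nat.eq_zero_or_pos k with h0 | h0
    · subst h0
      have hP : (1 : ℝ) ≤ D.P 0 := by exact_mod_cast P_pos h (Nat.zero_le _)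
      have e : D.bil (0 + 1) x x = D.P 0 * x 0 ^ 2 := by
        unfold bil
        rw [sum_range_one, sum_range_one, lk_self]
        ring
      rw [e]
      refine ⟨by positivity, fun h1 j hj => ?_⟩
      obtain rfl : j = 0 := by omega
      rcases mul_eq_zero.1 h1 with h2 | h2
      · linarith
      · exact pow_eq_zero_iff (two_ne_zero) |>.1 h2
    · rw [bil_succ h h0 (by omega)]
      obtain ⟨i1, i2⟩ := ih (by omega)
        (fun i => x i + if i = D.parent k then D.ratio k * x k else 0)
      have hd := det_real h h0 (by omega : k ≤ D.n)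
      have h3 : 0 ≤ (D.P k - D.ratio k ^ 2 * D.P (D.parent k)) * x k ^ 2 :=
        mul_nonneg (by linarith) (sq_nonneg _)
      refine ⟨add_nonneg i1 h3, fun h4 j hj => ?_⟩
      have h5 : (D.P k - D.ratio k ^ 2 * D.P (D.parent k)) * x k ^ 2 = 0 := by linarith
      have h6 : x k = 0 := by
        rcases mul_eq_zero.1 h5 with h7 | h7
        · linarith
        · exact pow_eq_zero_iff (two_ne_zero) |>.1 h7
      rcases Nat.lt_or_ge j k with h8 | h8
      · have h9 := i2 (by linarith) j h8
        simpa [h6] using h9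
      · obtain rfl : j = k := by omega
        exact h6

theorem cov_posDef : D.cov.PosDef := by
  apply Matrix.PosDef.of_dotProduct_mulVec_pos
  · ext p q
    rw [Matrix.conjTranspose_apply]
    simp only [cov, star_trivial]
    by_cases h1 : p.2 = q.2
    · rw [if_pos h1, if_pos h1.symm, lk_symm h (by omega) (by omega)]
    · rw [if_neg h1, if_neg (Ne.symm h1)]
  · intro x hx
    have e : star x ⬝ᵥ (D.cov.mulVec x) = ∑ a : Fin 3, (1 / 2) *
        D.bil (D.n + 1) (fun i => if hi : i < D.n + 1 then x (⟨i, hi⟩, a) else 0)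
          (fun i => if hi : i < D.n + 1 then x (⟨i, hi⟩, a) else 0) := by
      have e1 : star x ⬝ᵥ (D.cov.mulVec x) = ∑ a : Fin 3, ∑ v : Fin (D.n + 1),
          ∑ w : Fin (D.n + 1), x (v, a) * (D.lk v w / 2) * x (w, a) := by
        rw [dotProduct, Fintype.sum_prod_type, Finset.sum_comm]
        refine sum_congr rfl fun a _ => sum_congr rfl fun v _ => ?_
        rw [Matrix.mulVec, dotProduct, Fintype.sum_prod_type, Finset.sum_comm,
          Finset.sum_eq_single a]
        · rw [mul_sum]
          refine sum_congr rfl fun w _ => ?_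
          simp only [cov, star_trivial, if_true]
          ring
        · intro b _ hb
          refine sum_eq_zero fun w _ => ?_
          simp only [cov]
          rw [if_neg (Ne.symm hb), zero_mul]
        · intro hn
          exact absurd (mem_univ _) hn
      rw [e1]
      refine sum_congr rfl fun a _ => ?_
      unfold bil
      rw [mul_sum, Finset.sum_range]
      refine sum_congr rfl fun v _ => ?_
      rw [mul_sum, Finset.sum_range]
      refine sum_congr rfl fun w _ => ?_
      beta_reduce
      rw [dif_pos v.2, dif_pos w.2]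
      ring
    rw [e]
    have h1 : ∀ a : Fin 3, 0 ≤ (1 / 2 : ℝ) *
        D.bil (D.n + 1) (fun i => if hi : i < D.n + 1 then x (⟨i, hi⟩, a) else 0)
          (fun i => if hi : i < D.n + 1 then x (⟨i, hi⟩, a) else 0) := fun a =>
      mul_nonneg (by norm_num) (bil_pos h _ le_rfl _).1
    apply lt_of_le_of_ne (sum_nonneg fun a _ => h1 a)
    intro h2
    apply hx
    have h3 := (sum_eq_zero_iff_of_nonneg fun a _ => h1 a).1 h2.symm
    ext ⟨v, a⟩
    have h4 := h3 a (mem_univ _)
    have h5 := (bil_pos h _ le_rfl _).2 (by linarith) v v.2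
    rw [dif_pos v.2] at h5
    exact h5

end Diagram

end Pool.Agent.Zk79.LM
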