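import Pool.Agent.Zk79.LM.Fun
import Pool.Agent.Zk79.LM.PD

set_option autoImplicit false
set_option maxHeartbeats 400000

/-! # The moments of `|x_v| ^ 2` -/

namespace Pool.Agent.Zk79.LM

open Finset Diagram MeasureTheory ProbabilityTheory WithLp Matrix

/-- the space `ℝ³` -/
abbrev E3 : Type := EuclideanSpace ℝ (Fin 3)

/-- the moments of the standard Gaussian measure -/
noncomputable def mom (k : ℕ) : ℝ := ∫ u : E3, ‖u‖ ^ (2 * k) ∂(stdGaussian E3)

/-- `x_v` -/
noncomputable def pr {n : ℕ} (v : Fin (n + 1)) (x : Sp n) : E3 := toLp 2 fun a : Fin 3 => x (v, a)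

/-- the vector with the component `t` at `v` -/
noncomputable def io {n : ℕ} (v : Fin (n + 1)) (t : E3) : Sp n :=
  toLp 2 fun p => if p.1 = v then t p.2 else 0

theorem inner_pr {n : ℕ} (v : Fin (n + 1)) (x : Sp n) (t : E3) :
    inner ℝ (pr v x) t = inner ℝ x (io v t) := by
  rw [PiLp.inner_apply, PiLp.inner_apply, Fintype.sum_prod_type]
  rw [Finset.sum_eq_single v]
  · refine sum_congr rfl fun a _ => ?_
    simp [pr, io]
  · intro w _ hw
    refine sum_eq_zero fun a _ => ?_
    simp [io, hw]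
  · intro h
    exact absurd (mem_univ v) h

theorem nsq_eq_pr {n : ℕ} (v : Fin (n + 1)) (x : Sp n) : nsq x v = ‖pr v x‖ ^ 2 := by
  rw [EuclideanSpace.real_norm_sq_eq]
  rfl

theorem continuous_pr {n : ℕ} (v : Fin (n + 1)) : Continuous (pr v : Sp n → E3) := by
  unfold pr
  refine (PiLp.continuous_toLp 2 _).comp ?_
  fun_prop

theorem quad (D : Diagram) (v : Fin (D.n + 1)) (t : E3) :
    ofLp (io v t) ⬝ᵥ (D.cov *ᵥ ofLp (io v t)) = D.lk v v / 2 * ‖t‖ ^ 2 := by
  have h1 : ∀ a : Fin 3, (D.cov *ᵥ ofLp (io v t)) (v, a) = D.lk v v / 2 * t a := by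
    intro a
    rw [mulVec, dotProduct, Fintype.sum_prod_type, Finset.sum_eq_single v]
    · rw [Finset.sum_eq_single a]
      · simp [Diagram.cov, io]
      · intro b _ hb
        simp [Diagram.cov, Ne.symm hb]
      · intro h
        exact absurd (mem_univ a) h
    · intro w _ hw
      refine sum_eq_zero fun b _ => ?_
      simp [io, hw]
    · intro h
      exact absurd (mem_univ v) h
  rw [dotProduct, Fintype.sum_prod_type, Finset.sum_eq_single v]
  · rw [EuclideanSpace.real_norm_sq_eq, mul_sum]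
    refine sum_congr rfl fun a _ => ?_
    rw [h1]
    simp only [io, if_true]
    ring
  · intro w _ hw
    refine sum_eq_zero fun b _ => ?_
    simp [io, hw]
  · intro h
    exact absurd (mem_univ v) h

theorem map_pr {D : Diagram} (hS : D.IsSplice) (v : Fin (D.n + 1)) :
    D.gauss.map (pr v) = (stdGaussian E3).map (fun u => √((D.P v : ℝ) / 2) • u) := by
  have h1 : Measurable (pr v : Sp D.n → E3) := (continuous_pr v).measurable
  have : IsProbabilityMeasure (D.gauss.map (pr v : Sp D.n → E3)) :=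
    Measure.isProbabilityMeasure_map h1.aemeasurable
  have : IsProbabilityMeasure ((stdGaussian E3).map (fun u => √((D.P v : ℝ) / 2) • u)) :=
    Measure.isProbabilityMeasure_map (by fun_prop)
  apply Measure.ext_of_charFun
  funext t
  rw [charFun_map_smul, charFun_stdGaussian, charFun_apply,
    integral_map h1.aemeasurable (by fun_prop)]
  have h2 : ∀ x : Sp D.n, Complex.exp ((inner ℝ (pr v x) t : ℝ) * Complex.I) =
      Complex.exp ((inner ℝ x (io v t) : ℝ) * Complex.I) := by
    intro x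
    rw [inner_pr]
  simp_rw [h2]
  rw [← charFun_apply, Diagram.gauss, charFun_multivariateGaussian (cov_posDef hS).posSemidef]
  congr 1
  have e : (‖√((D.P v : ℝ) / 2)‖ * ‖t‖) ^ 2 = (D.P v : ℝ) / 2 * ‖t‖ ^ 2 := by
    rw [mul_pow, Real.norm_eq_abs, sq_abs, Real.sq_sqrt (by positivity)]
  rw [quad, lk_self, norm_smul, inner_zero_right, ← Complex.ofReal_pow, e]
  push_cast
  ring

theorem integrable_pow_std (k : ℕ) : Integrable (fun u : E3 => ‖u‖ ^ (2 * k)) (stdGaussian E3) := by
  have h1 : MemLp id ((2 * k : ℕ) : ENNReal) (stdGaussian E3) :=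
    IsGaussian.memLp_id _ _ (ENNReal.natCast_ne_top _)
  exact h1.integrable_norm_pow'

theorem integrable_nsq_pow {D : Diagram} (v : Fin (D.n + 1)) (k : ℕ) :
    Integrable (fun x : Sp D.n => nsq x v ^ k) D.gauss := by
  have h1 : MemLp id ((2 * k : ℕ) : ENNReal) D.gauss :=
    IsGaussian.memLp_id _ _ (ENNReal.natCast_ne_top _)
  refine h1.integrable_norm_pow'.mono' ((continuous_nsq v).pow k).aestronglyMeasurable ?_
  filter_upwards with x
  rw [Real.norm_eq_abs, abs_of_nonneg (pow_nonneg (nsq_nonneg x v) k), pow_mul]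
  refine pow_le_pow_left₀ (nsq_nonneg x v) ?_ k
  rw [id, norm_sq_eq]
  exact single_le_sum (f := fun v => nsq x v) (fun v _ => nsq_nonneg x v) (mem_univ v)

theorem integral_nsq_pow {D : Diagram} (hS : D.IsSplice) (v : Fin (D.n + 1)) (k : ℕ) :
    ∫ x : Sp D.n, nsq x v ^ k ∂D.gauss = ((D.P v : ℝ) / 2) ^ k * mom k := by
  have h1 : ∫ x : Sp D.n, nsq x v ^ k ∂D.gauss = ∫ y : E3, ‖y‖ ^ (2 * k) ∂(D.gauss.map (pr v)) := by
    rw [integral_map (continuous_pr v).aemeasurable (by fun_prop)]
    refine integral_congr_ae ?_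
    filter_upwards with x
    rw [nsq_eq_pr, pow_mul]
  rw [h1, map_pr hS, integral_map (by fun_prop) (by fun_prop), mom, ← integral_const_mul]
  refine integral_congr_ae ?_
  filter_upwards with u
  rw [norm_smul, mul_pow, pow_mul ‖√((D.P v : ℝ) / 2)‖, Real.norm_eq_abs, sq_abs,
    Real.sq_sqrt (by positivity)]

theorem mom_zero : mom 0 = 1 := by
  unfold mom
  simp

theorem one_le_mom_one : 1 ≤ mom 1 := by
  have h1 : ∫ u : E3, (u 0) ^ 2 ∂(stdGaussian E3) = 1 := by
    have h2 := (measurePreserving_eval_multivariateGaussian (ι := Fin 3)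
      (μ := 0) (S := 1) Matrix.PosSemidef.one (i := 0))
    rw [multivariateGaussian_zero_one] at h2
    have h3 := h2.map_eq
    have h4 : ∫ u : E3, (u 0) ^ 2 ∂(stdGaussian E3) =
        ∫ x : ℝ, x ^ 2 ∂((stdGaussian E3).map fun u => u 0) := by
      rw [integral_map h2.measurable.aemeasurable (by fun_prop)]
    rw [h4, h3]
    have h5 := variance_id_gaussianReal (μ := ((0 : E3) 0)) (v := ((1 : Matrix (Fin 3) (Fin 3) ℝ) 0 0).toNNReal)
    rw [variance_of_integral_eq_zero (by fun_prop) (by simp)] at h5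
    simpa using h5
  rw [← h1]
  unfold mom
  refine integral_mono_of_nonneg ?_ (integrable_pow_std 1) ?_
  · filter_upwards with u
    positivity
  · filter_upwards with u
    rw [mul_one, EuclideanSpace.real_norm_sq_eq]
    exact single_le_sum (f := fun i => u i ^ 2) (fun _ _ => sq_nonneg _) (mem_univ 0)

theorem pow_ineq {r : ℝ} (hr : 0 ≤ r) (k : ℕ) : r ^ k + r - 1 ≤ r ^ (k + 1) := by
  rcases le_total 1 r with h | h
  · have h1 : 1 ≤ r ^ k := one_le_pow₀ h
    rw [pow_succ]
    nlinarith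
  · have h1 : r ^ k ≤ 1 := pow_le_one₀ hr h
    rw [pow_succ]
    nlinarith

theorem mom_succ (k : ℕ) : mom k ≤ mom (k + 1) := by
  have h1 : ∫ u : E3, (‖u‖ ^ (2 * k) + ‖u‖ ^ (2 * 1) - 1) ∂(stdGaussian E3) ≤ mom (k + 1) := by
    refine integral_mono (((integrable_pow_std k).add (integrable_pow_std 1)).sub
      (integrable_const _)) (integrable_pow_std _) fun u => ?_
    have h2 := pow_ineq (sq_nonneg ‖u‖) k
    simp only [pow_mul, pow_one]
    exact h2
  have h2 := one_le_mom_one
  have h3 : ∫ _u : E3, (1 : ℝ) ∂(stdGaussian E3) = 1 := by simp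
  have h4 : ∫ u : E3, (‖u‖ ^ (2 * k) + ‖u‖ ^ (2 * 1) - 1) ∂(stdGaussian E3) =
      mom k + mom 1 - 1 := by
    rw [integral_sub (f := fun u : E3 => ‖u‖ ^ (2 * k) + ‖u‖ ^ (2 * 1))
      ((integrable_pow_std k).add (integrable_pow_std 1)) (integrable_const _),
      integral_add (integrable_pow_std k) (integrable_pow_std 1), h3]
    rfl
  linarith

theorem mom_mono : Monotone mom := monotone_nat_of_le_succ mom_succ

theorem mom_pos (k : ℕ) : 0 < mom k := by
  have := mom_mono (Nat.zero_le k)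
  rw [mom_zero] at this
  linarith

end Pool.Agent.Zk79.LM
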