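import Pool.Agent.Zk79.LM.Rad
import Pool.Agent.Zk79.LM.Mom

set_option autoImplicit false
set_option maxHeartbeats 400000

/-! # The growth of the coefficients of the Gaussian integral -/

namespace Pool.Agent.Zk79.LM

open PowerSeries Finset Diagram MeasureTheory

/-- the product of the series of the nodes with the sign of the variable changed -/
noncomputable def YY (D : Diagram) (s : Fin (D.n + 1) → ℝ) : PowerSeries ℝ :=
  ∏ v : Fin (D.n + 1), PowerSeries.rescale (s v) (yy D v)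

theorem YY_eq (D : Diagram) (s : Fin (D.n + 1) → ℝ) :
    YY D s = PowerSeries.rescale (-1) (FF D s) := by
  unfold YY FF yy
  rw [map_prod]
  refine prod_congr rfl fun v _ => ?_
  rw [rescale_rescale, rescale_rescale, mul_comm]

theorem coeff_YY (D : Diagram) (s : Fin (D.n + 1) → ℝ) (k : ℕ) :
    coeff k (YY D s) = (-1) ^ k * coeff k (FF D s) := by
  rw [YY_eq, coeff_rescale]

variable {D : Diagram}

theorem NN_YY (h : D.IsSplice) {s : Fin (D.n + 1) → ℝ} (hs : ∀ v, 0 ≤ s v) : NN (YY D s) :=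
  NN_prod _ _ fun v _ => (NN_yy' h (by omega)).rescale (hs v)

theorem integrable_YY (k : ℕ) :
    Integrable (fun x : Sp D.n => coeff k (YY D (nsq x))) D.gauss := by
  simp only [coeff_YY]
  exact (integrable_coeff D k).const_mul _

theorem int_YY (k : ℕ) : ∫ x : Sp D.n, coeff k (YY D (nsq x)) ∂D.gauss =
    (-1) ^ k * coeff k D.gaussSeries := by
  simp only [coeff_YY]
  rw [integral_const_mul, coeff_gaussSeries]

theorem abs_coeff_eq (h : D.IsSplice) (k : ℕ) : |coeff k D.gaussSeries| =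
    ∫ x : Sp D.n, coeff k (YY D (nsq x)) ∂D.gauss := by
  have h1 : 0 ≤ ∫ x : Sp D.n, coeff k (YY D (nsq x)) ∂D.gauss :=
    integral_nonneg fun x => NN_YY h (nsq_nonneg x) k
  rw [int_YY] at h1 ⊢
  rw [← abs_of_nonneg h1, abs_mul, abs_pow, abs_neg, abs_one, one_pow, one_mul]

/-- lower bound -/
theorem al_lower (h : D.IsSplice) {v : ℕ} (hv : v ≤ D.n) (k : ℕ) :
    coeff k (yy D v) * ((D.P v : ℝ) / 2) ^ k * mom k ≤ |coeff k D.gaussSeries| := by
  rw [abs_coeff_eq h]
  obtain ⟨w, hw⟩ : ∃ w : Fin (D.n + 1), (w : ℕ) = v := ⟨⟨v, by omega⟩, rfl⟩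
  have h1 := integral_nsq_pow h w k
  rw [hw] at h1
  rw [mul_assoc, ← h1, ← integral_const_mul]
  refine integral_mono ((integrable_nsq_pow w k).const_mul _) (integrable_YY k) fun x => ?_
  have h2 := coeff_le_prod univ (fun v : Fin (D.n + 1) => PowerSeries.rescale (nsq x v) (yy D v))
    (fun v _ => (NN_yy' h (by omega)).rescale (nsq_nonneg x v)) (fun v _ => by
      rw [coeff_rescale, yy_zero]; simp) (mem_univ w) k
  rw [coeff_rescale, hw, mul_comm] at h2
  exact h2

/-- the vector of the variances -/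
noncomputable def bv (D : Diagram) (v : Fin (D.n + 1)) : ℝ := (D.P v : ℝ) / 2

theorem bv_pos (h : D.IsSplice) (v : Fin (D.n + 1)) : 0 < bv D v := by
  have h1 : (1 : ℝ) ≤ D.P v := by exact_mod_cast P_pos h (by omega : (v : ℕ) ≤ D.n)
  unfold bv
  linarith

theorem YY_le (h : D.IsSplice) {s : Fin (D.n + 1) → ℝ} (hs : ∀ v, 0 ≤ s v) (k : ℕ) :
    coeff k (YY D s) ≤ (∑ v, (s v / bv D v) ^ k) * coeff k (YY D (bv D)) := by
  obtain ⟨w, hw⟩ := Finite.exists_max fun v : Fin (D.n + 1) => s v / bv D v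
  have h0 : ∀ v, 0 ≤ s v / bv D v := fun v => div_nonneg (hs v) (bv_pos h v).le
  obtain ⟨R, hR⟩ : ∃ R, R = s w / bv D w := ⟨_, rfl⟩
  have hR0 : 0 ≤ R := by rw [hR]; exact h0 w
  have h1 : coeff k (YY D s) ≤ coeff k (PowerSeries.rescale R (YY D (bv D))) := by
    unfold YY
    rw [map_prod (PowerSeries.rescale R)]
    refine coeff_prod_mono _ _ _
      (fun (v : Fin (D.n + 1)) _ => (NN_yy' h (by omega : (v : ℕ) ≤ D.n)).rescale (hs v))
      (fun v _ j => ?_) k
    rw [rescale_rescale, coeff_rescale, coeff_rescale]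
    refine mul_le_mul_of_nonneg_right (pow_le_pow_left₀ (hs v) ?_ j) (NN_yy' h (by omega) j)
    have h2 : s v / bv D v ≤ R := by rw [hR]; exact hw v
    rw [div_le_iff₀ (bv_pos h v)] at h2
    linarith
  refine h1.trans ?_
  rw [coeff_rescale]
  refine mul_le_mul_of_nonneg_right ?_ (NN_YY h (fun v => (bv_pos h v).le) k)
  rw [hR]
  exact single_le_sum (f := fun v => (s v / bv D v) ^ k) (fun v _ => pow_nonneg (h0 v) k)
    (mem_univ w)

/-- upper bound -/
theorem al_upper (h : D.IsSplice) (k : ℕ) : |coeff k D.gaussSeries| ≤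
    (D.n + 1) * mom k * coeff k (YY D (bv D)) := by
  rw [abs_coeff_eq h]
  have h1 : ∫ x : Sp D.n, (∑ v, (nsq x v / bv D v) ^ k) * coeff k (YY D (bv D)) ∂D.gauss =
      (D.n + 1) * mom k * coeff k (YY D (bv D)) := by
    rw [integral_mul_const, integral_finsetSum]
    · congr 1
      have h2 : ∀ v ∈ (univ : Finset (Fin (D.n + 1))),
          ∫ x : Sp D.n, (nsq x v / bv D v) ^ k ∂D.gauss = mom k := by
        intro v _
        have h3 := integral_nsq_pow h v k
        have h4 : ∀ x : Sp D.n, (nsq x v / bv D v) ^ k = (bv D v ^ k)⁻¹ * nsq x v ^ k := by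
          intro x
          rw [div_pow, div_eq_inv_mul]
        simp_rw [h4]
        rw [integral_const_mul, h3]
        have h5 : (bv D v) ^ k ≠ 0 := (pow_pos (bv_pos h v) k).ne'
        unfold bv at h5 ⊢
        rw [inv_mul_cancel_left₀ h5]
      rw [sum_congr rfl h2, sum_const, card_univ, Fintype.card_fin, nsmul_eq_mul]
      push_cast
      ring
    · intro v _
      simp only [div_pow]
      exact (integrable_nsq_pow v k).div_const _
  rw [← h1]
  refine integral_mono (integrable_YY k) ?_ fun x => YY_le h (nsq_nonneg x) k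
  refine Integrable.mul_const (integrable_finsetSum _ fun v _ => ?_) _
  simp only [div_pow]
  exact (integrable_nsq_pow v k).div_const _

/-- the normalised coefficients -/
noncomputable def AG (D : Diagram) : PowerSeries ℝ :=
  PowerSeries.mk fun k => |coeff k D.gaussSeries| / mom k

theorem coeff_AG (k : ℕ) : coeff k (AG D) = |coeff k D.gaussSeries| / mom k := by
  rw [AG, coeff_mk]

theorem NN_AG : NN (AG D) := by
  intro k
  rw [coeff_AG]
  exact div_nonneg (abs_nonneg _) (mom_pos k).le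

theorem Wr_AG (h : D.IsSplice) {t : ℝ} (ht : 0 ≤ t)
    (hb : ∀ v ≤ D.n, (D.P v : ℝ) / 2 * t < Real.pi ^ 2) : Wr t (AG D) := by
  have h1 : Wr t (YY D (bv D)) := by
    refine Wr_prod ht _ _ fun v _ => Wr_rescale (bv_pos h v).le ?_
    exact Wr_yy D v (mul_nonneg (bv_pos h v).le ht) (hb v (by omega))
  have h2 : Summable fun k => ((D.n : ℝ) + 1) * (|coeff k (YY D (bv D))| * t ^ k) :=
    h1.mul_left _
  refine Summable.of_nonneg_of_le (fun k => by positivity) (fun k => ?_) h2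
  rw [abs_of_nonneg (NN_AG k), coeff_AG, ← mul_assoc]
  refine mul_le_mul_of_nonneg_right ?_ (pow_nonneg ht k)
  rw [div_le_iff₀ (mom_pos k)]
  refine (al_upper h k).trans ?_
  rw [abs_of_nonneg (NN_YY h (fun v => (bv_pos h v).le) k)]
  exact le_of_eq (by ring)

theorem not_Wr_AG (h : D.IsSplice) {t : ℝ} (ht : 0 ≤ t) {v : ℕ} (hv : v ≤ D.n)
    (hb : Real.pi ^ 2 ≤ (D.P v : ℝ) / 2 * t) : ¬ Wr t (AG D) := by
  intro h0
  refine not_Wr_yy h hv hb ?_
  refine Summable.of_nonneg_of_le (fun k => by positivity) (fun k => ?_) h0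
  rw [abs_of_nonneg (NN_AG k), coeff_AG, abs_of_nonneg (NN_yy' h hv k), mul_pow, ← mul_assoc]
  refine mul_le_mul_of_nonneg_right ?_ (pow_nonneg ht k)
  rw [le_div_iff₀ (mom_pos k)]
  exact al_lower h hv k

theorem norm_coeff_exp (ψ : ℂ) (i : ℕ) :
    ‖coeff i (PowerSeries.rescale ψ (PowerSeries.exp ℂ))‖ = ‖ψ‖ ^ i / (i.factorial : ℝ) := by
  rw [coeff_rescale, coeff_exp, norm_mul, norm_pow, map_div₀, map_one, map_natCast, norm_div,
    norm_one, Complex.norm_natCast, mul_one_div]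

theorem Wr_transfer {D D' : Diagram} {ψ : ℂ}
    (hfg : PowerSeries.rescale ψ (PowerSeries.exp ℂ) * D.gaussSeries.map (algebraMap ℝ ℂ) =
      D'.gaussSeries.map (algebraMap ℝ ℂ)) {t : ℝ} (ht : 0 ≤ t) (h : Wr t (AG D)) :
    Wr t (AG D') := by
  obtain ⟨E, hE⟩ : ∃ E : PowerSeries ℝ, E = PowerSeries.mk fun i => ‖ψ‖ ^ i / (i.factorial : ℝ) :=
    ⟨_, rfl⟩
  have hEk : ∀ i, coeff i E = ‖ψ‖ ^ i / (i.factorial : ℝ) := by
    intro i
    rw [hE, coeff_mk]
  have hEW : Wr t E := by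
    have h1 := Real.summable_pow_div_factorial (‖ψ‖ * t)
    unfold Wr
    convert h1 using 2 with i
    rw [hEk, abs_of_nonneg (by positivity), mul_pow]
    ring
  refine Summable.of_nonneg_of_le (fun k => by positivity) (fun k => ?_) (hEW.mul ht h)
  refine mul_le_mul_of_nonneg_right ?_ (pow_nonneg ht k)
  rw [abs_of_nonneg (NN_AG k)]
  refine le_trans ?_ (le_abs_self _)
  rw [coeff_AG, div_le_iff₀ (mom_pos k), coeff_mul, sum_mul]
  have h1 := congrArg (coeff k) hfg
  rw [coeff_map, coeff_mul] at h1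
  have h2 : |coeff k D'.gaussSeries| = ‖(algebraMap ℝ ℂ) (coeff k D'.gaussSeries)‖ := by
    rw [norm_algebraMap', Real.norm_eq_abs]
  rw [h2, ← h1]
  refine norm_sum_le_of_le _ fun p hp => ?_
  rw [norm_mul, norm_coeff_exp, coeff_map, norm_algebraMap', Real.norm_eq_abs, hEk, coeff_AG,
    mul_assoc]
  refine mul_le_mul_of_nonneg_left ?_ (by positivity)
  rw [div_mul_eq_mul_div, le_div_iff₀ (mom_pos _)]
  refine mul_le_mul_of_nonneg_left (mom_mono ?_) (abs_nonneg _)
  have := mem_antidiagonal.1 hp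
  omega

/-- the greatest product of the weights at a node -/
def Diagram.Pmax (D : Diagram) : ℕ := (Finset.range (D.n + 1)).sup D.P

theorem P_le_Pmax {v : ℕ} (hv : v ≤ D.n) : D.P v ≤ D.Pmax :=
  Finset.le_sup (f := D.P) (mem_range.2 (by omega))

theorem exists_Pmax : ∃ v ≤ D.n, D.P v = D.Pmax := by
  obtain ⟨v, hv, h1⟩ := Finset.exists_mem_eq_sup (Finset.range (D.n + 1)) ⟨0, by simp⟩ D.P
  exact ⟨v, by have := mem_range.1 hv; omega, h1.symm⟩

theorem Pmax_le {D D' : Diagram} (h : D.IsSplice) (h' : D'.IsSplice) {ψ : ℂ}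
    (hfg : PowerSeries.rescale ψ (PowerSeries.exp ℂ) * D.gaussSeries.map (algebraMap ℝ ℂ) =
      D'.gaussSeries.map (algebraMap ℝ ℂ)) : D'.Pmax ≤ D.Pmax := by
  by_contra hcon
  push Not at hcon
  obtain ⟨v, hv, hvP⟩ := exists_Pmax (D := D')
  have hp : (0 : ℝ) < Real.pi ^ 2 := by positivity
  have h0 : (0 : ℝ) < D'.Pmax := by exact_mod_cast (by omega : 0 < D'.Pmax)
  obtain ⟨t, ht⟩ : ∃ t, t = 2 * Real.pi ^ 2 / D'.Pmax := ⟨_, rfl⟩
  have ht0 : 0 ≤ t := by rw [ht]; positivity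
  refine not_Wr_AG h' ht0 hv ?_ (Wr_transfer hfg ht0 (Wr_AG h ht0 fun w hw => ?_))
  · rw [hvP, ht]
    apply le_of_eq
    field_simp
  · have h1 : (D.P w : ℝ) ≤ D.Pmax := by exact_mod_cast P_le_Pmax hw
    have h2 : (D.Pmax : ℝ) < D'.Pmax := by exact_mod_cast hcon
    rw [ht]
    have e : (D.P w : ℝ) / 2 * (2 * Real.pi ^ 2 / D'.Pmax) = D.P w / D'.Pmax * Real.pi ^ 2 := by
      field_simp
    rw [e]
    have h3 : (D.P w : ℝ) / D'.Pmax < 1 := by
      rw [div_lt_one h0]
      linarith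
    nlinarith

theorem flip_eq {ψ : ℂ} {F G : PowerSeries ℂ}
    (hfg : PowerSeries.rescale ψ (PowerSeries.exp ℂ) * F = G) :
    PowerSeries.rescale (-ψ) (PowerSeries.exp ℂ) * G = F := by
  have h1 := congrArg (PowerSeries.rescale ψ) (PowerSeries.exp_mul_exp_neg_eq_one (A := ℂ))
  rw [map_mul, map_one] at h1
  have h2 : PowerSeries.rescale ψ (PowerSeries.evalNegHom (PowerSeries.exp ℂ)) =
      PowerSeries.rescale (-ψ) (PowerSeries.exp ℂ) := by
    rw [PowerSeries.evalNegHom, rescale_rescale, neg_one_mul]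
  rw [h2] at h1
  rw [← hfg, ← mul_assoc, mul_comm (PowerSeries.rescale (-ψ) _), h1, one_mul]

theorem Pmax_eq {D D' : Diagram} (h : D.IsSplice) (h' : D'.IsSplice) {ψ : ℂ}
    (hfg : PowerSeries.rescale ψ (PowerSeries.exp ℂ) * D.gaussSeries.map (algebraMap ℝ ℂ) =
      D'.gaussSeries.map (algebraMap ℝ ℂ)) : D.Pmax = D'.Pmax :=
  le_antisymm (Pmax_le h' h (flip_eq hfg)) (Pmax_le h h' hfg)

end Pool.Agent.Zk79.LM
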