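import Pool.Agent.Zk79.LM.Sec

set_option autoImplicit false
set_option maxHeartbeats 400000

/-! # Pointwise remainder estimates -/

namespace Pool.Agent.Zk79.LM

open PowerSeries Finset

/-- weighted norm -/
noncomputable def nrm (r : ℝ) (f : PowerSeries ℝ) : ℝ := ∑' k, |coeff k f| * r ^ k

theorem nrm_nonneg {r : ℝ} (hr : 0 ≤ r) (f : PowerSeries ℝ) : 0 ≤ nrm r f :=
  tsum_nonneg fun _ => by positivity

theorem coeff_le_nrm {r : ℝ} (hr : 0 ≤ r) {f : PowerSeries ℝ} (hf : Wr r f) (k : ℕ) :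
    |coeff k f| * r ^ k ≤ nrm r f :=
  hf.le_tsum k (fun _ _ => by positivity)

theorem nrm_mul_le {r : ℝ} (hr : 0 ≤ r) {f g : PowerSeries ℝ} (hf : Wr r f) (hg : Wr r g) :
    nrm r (f * g) ≤ nrm r f * nrm r g := by
  have hf' : Summable fun k => ‖|coeff k f| * r ^ k‖ := hf.norm
  have hg' : Summable fun k => ‖|coeff k g| * r ^ k‖ := hg.norm
  unfold nrm
  rw [tsum_mul_tsum_eq_tsum_sum_antidiagonal_of_summable_norm hf' hg']
  refine Summable.tsum_le_tsum (fun k => ?_) (hf.mul hr hg)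
    (summable_norm_sum_mul_antidiagonal_of_summable_norm hf' hg').of_norm
  rw [coeff_mul, ← abs_of_nonneg (pow_nonneg hr k), ← abs_mul, sum_mul]
  refine (abs_sum_le_sum_abs _ _).trans (sum_le_sum fun x hx => ?_)
  rw [abs_mul, abs_mul, ← mem_antidiagonal.1 hx, pow_add, abs_mul,
    abs_of_nonneg (pow_nonneg hr _), abs_of_nonneg (pow_nonneg hr _)]
  exact le_of_eq (by ring)

theorem nrm_one {r : ℝ} : nrm r 1 = 1 := by
  unfold nrm
  rw [tsum_eq_single 0]
  · simp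
  · intro k hk
    rw [coeff_one, if_neg hk, abs_zero, zero_mul]

theorem nrm_prod_le {ι : Type*} {r : ℝ} (hr : 0 ≤ r) (s : Finset ι) (f : ι → PowerSeries ℝ)
    (hf : ∀ i ∈ s, Wr r (f i)) : nrm r (∏ i ∈ s, f i) ≤ ∏ i ∈ s, nrm r (f i) := by
  classical
  induction s using Finset.induction_on with
  | empty => rw [prod_empty, prod_empty, nrm_one]
  | insert i s hi ih =>
    rw [prod_insert hi, prod_insert hi]
    have h1 := hf i (mem_insert_self _ _)
    have h2 := Wr_prod hr s f fun j hj => hf j (mem_insert_of_mem hj)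
    exact (nrm_mul_le hr h1 h2).trans (mul_le_mul_of_nonneg_left
      (ih fun j hj => hf j (mem_insert_of_mem hj)) (nrm_nonneg hr _))

theorem nrm_rescale_le {r c : ℝ} (hr : 0 ≤ r) (hc : 0 ≤ c) {s : ℝ} (hcr : c * r ≤ s)
    {f : PowerSeries ℝ} (hf : Wr s f) : nrm r (PowerSeries.rescale c f) ≤ nrm s f := by
  have h1 : Wr (c * r) f := hf.mono (mul_nonneg hc hr) hcr
  refine Summable.tsum_le_tsum (fun k => ?_) (Wr_rescale hc h1) hf
  rw [coeff_rescale, abs_mul, abs_of_nonneg (pow_nonneg hc k)]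
  calc c ^ k * |coeff k f| * r ^ k = |coeff k f| * (c * r) ^ k := by rw [mul_pow]; ring
    _ ≤ _ := mul_le_mul_of_nonneg_left (pow_le_pow_left₀ (mul_nonneg hc hr) hcr k) (abs_nonneg _)

variable (D : Diagram)

/-- the product of the rescaled series -/
noncomputable def FF (t : Fin (D.n + 1) → ℝ) : PowerSeries ℝ :=
  ∏ v : Fin (D.n + 1), rescale (t v) (D.node v)

/-- the product of the functions -/
noncomputable def PP (t : Fin (D.n + 1) → ℝ) (h : ℂ) : ℂ :=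
  ∏ v : Fin (D.n + 1), psi D v (t v * h)

/-- the constant of the coefficient bound -/
noncomputable def MM : ℝ := ∏ v : Fin (D.n + 1), nrm 2 (D.node v)

theorem MM_nonneg : 0 ≤ MM D := prod_nonneg fun _ _ => nrm_nonneg (by norm_num) _

variable {D} {t : Fin (D.n + 1) → ℝ} {N : ℝ}

theorem Wr_factor (h0 : ∀ v, 0 ≤ t v) (hN : ∀ v, t v ≤ N) (hN1 : 1 ≤ N) (v : Fin (D.n + 1)) :
    Wr (2 / N) (rescale (t v) (D.node v)) := by
  refine Wr_rescale (h0 v) ((Wr_node D v).mono (by have := h0 v; positivity) ?_)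
  rw [mul_div_assoc', div_le_iff₀ (by linarith)]
  nlinarith [hN v]

theorem Wr_FF (h0 : ∀ v, 0 ≤ t v) (hN : ∀ v, t v ≤ N) (hN1 : 1 ≤ N) : Wr (2 / N) (FF D t) :=
  Wr_prod (by positivity) _ _ fun v _ => Wr_factor h0 hN hN1 v

theorem coeff_FF_le (h0 : ∀ v, 0 ≤ t v) (hN : ∀ v, t v ≤ N) (hN1 : 1 ≤ N) (k : ℕ) :
    |coeff k (FF D t)| ≤ MM D * (N / 2) ^ k := by
  have hr : (0 : ℝ) ≤ 2 / N := by positivity
  have h1 := coeff_le_nrm hr (Wr_FF h0 hN hN1) k
  have h2 : nrm (2 / N) (FF D t) ≤ MM D := by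
    refine (nrm_prod_le hr _ _ fun v _ => Wr_factor h0 hN hN1 v).trans ?_
    refine prod_le_prod (fun _ _ => nrm_nonneg hr _) fun v _ => ?_
    refine nrm_rescale_le hr (h0 v) ?_ (Wr_node D v)
    rw [mul_div_assoc', div_le_iff₀ (by linarith)]
    nlinarith [hN v]
  have h3 : (0 : ℝ) < (2 / N) ^ k := by positivity
  have h4 : (N / 2) ^ k * (2 / N) ^ k = 1 := by
    rw [← mul_pow]
    have : N / 2 * (2 / N) = 1 := by
      have : N ≠ 0 := by linarith
      field_simp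
    rw [this, one_pow]
  have h5 := h1.trans h2
  calc |coeff k (FF D t)| = (|coeff k (FF D t)| * (2 / N) ^ k) * (N / 2) ^ k := by
        linear_combination (-|coeff k (FF D t)|) * h4
    _ ≤ MM D * (N / 2) ^ k := mul_le_mul_of_nonneg_right h5 (by positivity)

theorem ev_FF (h0 : ∀ v, 0 ≤ t v) (hN : ∀ v, t v ≤ N) (hN1 : 1 ≤ N) {h : ℂ}
    (hh : N * ‖h‖ ≤ 1) : ev (FF D t) h = PP D t h := by
  have h1 : ‖h‖ ≤ 2 / N := by
    rw [le_div_iff₀ (by linarith)]
    linarith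
  unfold FF PP
  rw [ev_prod (r := 2 / N) (by positivity) _ _ (fun v _ => Wr_factor h0 hN hN1 v) h1]
  refine prod_congr rfl fun v _ => ?_
  rw [ev_rescale, ev_node]
  rw [norm_mul, Complex.norm_real, Real.norm_eq_abs, abs_of_nonneg (h0 v)]
  have := mul_le_mul_of_nonneg_right (hN v) (norm_nonneg h)
  linarith

/-- the partial sums -/
noncomputable def part (f : PowerSeries ℝ) (K : ℕ) (h : ℂ) : ℂ :=
  ∑ k ∈ range K, ((coeff k f : ℝ) : ℂ) * h ^ k

theorem rem_small (h0 : ∀ v, 0 ≤ t v) (hN : ∀ v, t v ≤ N) (hN1 : 1 ≤ N) {h : ℂ}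
    (hh : N * ‖h‖ ≤ 1) (K : ℕ) :
    ‖PP D t h - part (FF D t) K h‖ ≤ 2 * MM D * (N * ‖h‖) ^ K := by
  have h1 : ‖h‖ ≤ 2 / N := by
    rw [le_div_iff₀ (by linarith)]
    linarith
  have hs := (Wr_FF h0 hN hN1).summable h1
  have h2 : PP D t h - part (FF D t) K h =
      ∑' k, ((coeff (k + K) (FF D t) : ℝ) : ℂ) * h ^ (k + K) := by
    rw [← ev_FF h0 hN hN1 hh, ev, part, ← hs.of_norm.sum_add_tsum_nat_add K]
    ring
  rw [h2]
  have hq0 : 0 ≤ N * ‖h‖ / 2 := by positivity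
  have hq : N * ‖h‖ / 2 ≤ 1 / 2 := by linarith
  have h3 : ∀ k, ‖((coeff (k + K) (FF D t) : ℝ) : ℂ) * h ^ (k + K)‖ ≤
      MM D * (N * ‖h‖) ^ K * (1 / 2) ^ k := by
    intro k
    rw [norm_mul, norm_pow, Complex.norm_real, Real.norm_eq_abs]
    calc |coeff (k + K) (FF D t)| * ‖h‖ ^ (k + K) ≤ MM D * (N / 2) ^ (k + K) * ‖h‖ ^ (k + K) :=
          mul_le_mul_of_nonneg_right (coeff_FF_le h0 hN hN1 _) (by positivity)
      _ = MM D * ((N * ‖h‖ / 2) ^ K * (N * ‖h‖ / 2) ^ k) := by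
          rw [mul_assoc, ← mul_pow, ← pow_add, add_comm K k]
          congr 2
          ring
      _ ≤ MM D * ((N * ‖h‖) ^ K * (1 / 2) ^ k) := by
          refine mul_le_mul_of_nonneg_left ?_ (MM_nonneg D)
          refine mul_le_mul ?_ (pow_le_pow_left₀ hq0 hq k) (by positivity) (by positivity)
          exact pow_le_pow_left₀ hq0 (by linarith [mul_nonneg (by linarith : (0 : ℝ) ≤ N) (norm_nonneg h)]) K
      _ = _ := by ring
  have h4 : Summable fun k : ℕ => MM D * (N * ‖h‖) ^ K * (1 / 2 : ℝ) ^ k :=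
    (summable_geometric_of_lt_one (by norm_num) (by norm_num)).mul_left _
  have h5 := tsum_of_norm_bounded h4.hasSum h3
  refine h5.trans ?_
  rw [tsum_mul_left, tsum_geometric_of_lt_one (by norm_num) (by norm_num)]
  exact le_of_eq (by ring)

theorem part_large (h0 : ∀ v, 0 ≤ t v) (hN : ∀ v, t v ≤ N) (hN1 : 1 ≤ N) {h : ℂ}
    (hh : 1 ≤ N * ‖h‖) (K : ℕ) : ‖part (FF D t) K h‖ ≤ 2 * MM D * (N * ‖h‖) ^ K := by
  unfold part
  have h1 : ∀ k ∈ range K, ‖((coeff k (FF D t) : ℝ) : ℂ) * h ^ k‖ ≤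
      MM D * (N * ‖h‖) ^ K * (1 / 2) ^ k := by
    intro k hk
    rw [mem_range] at hk
    rw [norm_mul, norm_pow, Complex.norm_real, Real.norm_eq_abs]
    calc |coeff k (FF D t)| * ‖h‖ ^ k ≤ MM D * (N / 2) ^ k * ‖h‖ ^ k :=
          mul_le_mul_of_nonneg_right (coeff_FF_le h0 hN hN1 _) (by positivity)
      _ = MM D * ((N * ‖h‖) ^ k * (1 / 2) ^ k) := by
          rw [mul_assoc, ← mul_pow, ← mul_pow]
          congr 2
          ring
      _ ≤ MM D * ((N * ‖h‖) ^ K * (1 / 2) ^ k) := by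
          refine mul_le_mul_of_nonneg_left ?_ (MM_nonneg D)
          exact mul_le_mul_of_nonneg_right (pow_le_pow_right₀ hh hk.le) (by positivity)
      _ = _ := by ring
  refine (norm_sum_le_of_le _ h1).trans ?_
  rw [← mul_sum]
  have h2 : ∑ k ∈ range K, (1 / 2 : ℝ) ^ k ≤ 2 := by
    rw [geom_sum_eq (by norm_num), div_le_iff_of_neg (by norm_num)]
    have : (0 : ℝ) ≤ (1 / 2) ^ K := by positivity
    linarith
  have h3 : 0 ≤ MM D * (N * ‖h‖) ^ K := mul_nonneg (MM_nonneg D) (by positivity)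
  nlinarith

/-- exponent and constant of the bound of the product -/
def lc (D : Diagram) : ℕ := ∑ v : Fin (D.n + 1), (D.leaves v).card

/-- the constant of the bound of the product -/
def cc (D : Diagram) : ℝ := ∏ v : Fin (D.n + 1), 4 ^ (D.valence v - 2)

theorem cc_pos (D : Diagram) : 0 < cc D := prod_pos fun _ _ => by positivity

theorem norm_PP_le (h0 : ∀ v, 0 ≤ t v) (hN : ∀ v, t v ≤ N) {w : ℂ} (hw : w ∈ Sec) :
    ‖PP D t (w ^ 2)‖ ≤ cc D * Real.exp (lc D * (‖w‖ * √N)) := by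
  unfold PP
  rw [norm_prod]
  have h1 : ∀ v ∈ (univ : Finset (Fin (D.n + 1))), ‖psi D v (t v * w ^ 2)‖ ≤
      4 ^ (D.valence v - 2) * Real.exp ((D.leaves v).card * (‖w‖ * √N)) := by
    intro v _
    refine (norm_psi_le D v hw (h0 v)).trans (mul_le_mul_of_nonneg_left ?_ (by positivity))
    refine Real.exp_le_exp.2 (mul_le_mul_of_nonneg_left ?_ (by positivity))
    exact mul_le_mul_of_nonneg_left (Real.sqrt_le_sqrt (hN v)) (norm_nonneg _)
  refine (prod_le_prod (fun _ _ => norm_nonneg _) h1).trans ?_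
  rw [prod_mul_distrib, ← Real.exp_sum, ← sum_mul]
  unfold cc lc
  push_cast
  exact le_rfl

/-- **the pointwise remainder estimate** -/
theorem rem_point (h0 : ∀ v, 0 ≤ t v) (hN : ∀ v, t v ≤ N) (hN1 : 1 ≤ N) {w : ℂ} (hw : w ∈ Sec)
    (K : ℕ) : ‖PP D t (w ^ 2) - part (FF D t) K (w ^ 2)‖ ≤
      (2 * MM D + cc D) * (N * ‖w‖ ^ 2) ^ K * Real.exp (lc D * (‖w‖ * √N)) := by
  have hE : 1 ≤ Real.exp (lc D * (‖w‖ * √N)) := Real.one_le_exp (by positivity)
  have hM := MM_nonneg D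
  have hc := cc_pos D
  have hX : 0 ≤ (N * ‖w‖ ^ 2) ^ K := by positivity
  rcases le_total (N * ‖w ^ 2‖) 1 with h1 | h1
  · refine (rem_small h0 hN hN1 h1 K).trans ?_
    rw [norm_pow]
    calc 2 * MM D * (N * ‖w‖ ^ 2) ^ K ≤ (2 * MM D + cc D) * (N * ‖w‖ ^ 2) ^ K :=
          mul_le_mul_of_nonneg_right (by linarith) hX
      _ ≤ _ := le_mul_of_one_le_right (by positivity) hE
  · have h2 := part_large h0 hN hN1 h1 K
    have h3 := norm_PP_le h0 hN hw
    rw [norm_pow] at h1 h2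
    have h4 : 1 ≤ (N * ‖w‖ ^ 2) ^ K := one_le_pow₀ h1
    calc ‖PP D t (w ^ 2) - part (FF D t) K (w ^ 2)‖
        ≤ cc D * Real.exp (lc D * (‖w‖ * √N)) + 2 * MM D * (N * ‖w‖ ^ 2) ^ K :=
          (norm_sub_le _ _).trans (add_le_add h3 h2)
      _ ≤ cc D * (N * ‖w‖ ^ 2) ^ K * Real.exp (lc D * (‖w‖ * √N)) +
          2 * MM D * (N * ‖w‖ ^ 2) ^ K * Real.exp (lc D * (‖w‖ * √N)) := by
          refine add_le_add ?_ (le_mul_of_one_le_right (by positivity) hE)
          refine mul_le_mul_of_nonneg_right ?_ (by positivity)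
          exact le_mul_of_one_le_right hc.le h4
      _ = _ := by ring

end Pool.Agent.Zk79.LM
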