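import Pool.Agent.Zk79.LM.Defs

set_option autoImplicit false
set_option maxHeartbeats 400000

/-! # Weighted absolutely summable power series and their values -/

namespace Pool.Agent.Zk79.LM

open PowerSeries Finset

/-- absolutely summable on the closed disc of radius `r` -/
def Wr (r : ℝ) (f : PowerSeries ℝ) : Prop := Summable fun k => |coeff k f| * r ^ k

/-- the value of a power series -/
noncomputable def ev (f : PowerSeries ℝ) (z : ℂ) : ℂ := ∑' k, ((coeff k f : ℝ) : ℂ) * z ^ k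

theorem Wr.mono {r s : ℝ} {f : PowerSeries ℝ} (hf : Wr s f) (hr : 0 ≤ r) (hrs : r ≤ s) : Wr r f := by
  refine Summable.of_nonneg_of_le (fun k => by positivity) (fun k => ?_) hf
  exact mul_le_mul_of_nonneg_left (pow_le_pow_left₀ hr hrs k) (abs_nonneg _)

theorem Wr.summable {r : ℝ} {f : PowerSeries ℝ} (hf : Wr r f) {z : ℂ} (hz : ‖z‖ ≤ r) :
    Summable fun k => ‖((coeff k f : ℝ) : ℂ) * z ^ k‖ := by
  refine Summable.of_nonneg_of_le (fun k => norm_nonneg _) (fun k => ?_) hf
  rw [norm_mul, norm_pow, Complex.norm_real, Real.norm_eq_abs]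
  exact mul_le_mul_of_nonneg_left (pow_le_pow_left₀ (norm_nonneg _) hz k) (abs_nonneg _)

theorem Wr.hasSum {r : ℝ} {f : PowerSeries ℝ} (hf : Wr r f) {z : ℂ} (hz : ‖z‖ ≤ r) :
    HasSum (fun k => ((coeff k f : ℝ) : ℂ) * z ^ k) (ev f z) :=
  (hf.summable hz).of_norm.hasSum

theorem Wr.mul {r : ℝ} (hr : 0 ≤ r) {f g : PowerSeries ℝ} (hf : Wr r f) (hg : Wr r g) :
    Wr r (f * g) := by
  have hf' : Summable fun k => ‖coeff k f * r ^ k‖ := by
    unfold Wr at hf
    convert hf using 2 with k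
    rw [norm_mul, Real.norm_eq_abs, Real.norm_eq_abs, abs_of_nonneg (pow_nonneg hr k)]
  have hg' : Summable fun k => ‖coeff k g * r ^ k‖ := by
    unfold Wr at hg
    convert hg using 2 with k
    rw [norm_mul, Real.norm_eq_abs, Real.norm_eq_abs, abs_of_nonneg (pow_nonneg hr k)]
  have h := summable_norm_sum_mul_antidiagonal_of_summable_norm hf' hg'
  unfold Wr
  convert h using 2 with k
  rw [coeff_mul, ← abs_of_nonneg (pow_nonneg hr k), ← abs_mul, Real.norm_eq_abs, sum_mul]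
  congr 1
  refine sum_congr rfl fun x hx => ?_
  rw [← mem_antidiagonal.1 hx, pow_add]
  ring

theorem ev_mul {r : ℝ} {f g : PowerSeries ℝ} (hf : Wr r f) (hg : Wr r g) {z : ℂ} (hz : ‖z‖ ≤ r) :
    ev (f * g) z = ev f z * ev g z := by
  unfold ev
  rw [tsum_mul_tsum_eq_tsum_sum_antidiagonal_of_summable_norm (hf.summable hz) (hg.summable hz)]
  refine tsum_congr fun k => ?_
  rw [coeff_mul, Complex.ofReal_sum, sum_mul]
  refine sum_congr rfl fun x hx => ?_
  rw [← mem_antidiagonal.1 hx, pow_add]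
  push_cast
  ring

theorem Wr_one {r : ℝ} : Wr r 1 := by
  refine summable_of_ne_finset_zero (s := {0}) fun k hk => ?_
  rw [mem_singleton] at hk
  rw [coeff_one, if_neg hk, abs_zero, zero_mul]

theorem ev_one (z : ℂ) : ev 1 z = 1 := by
  unfold ev
  rw [tsum_eq_single 0]
  · simp
  · intro k hk
    rw [coeff_one, if_neg hk, Complex.ofReal_zero, zero_mul]

theorem Wr.pow {r : ℝ} (hr : 0 ≤ r) {f : PowerSeries ℝ} (hf : Wr r f) (m : ℕ) : Wr r (f ^ m) := by
  induction m with
  | zero => rw [pow_zero]; exact Wr_one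
  | succ m ih => rw [pow_succ]; exact ih.mul hr hf

theorem ev_pow {r : ℝ} (hr : 0 ≤ r) {f : PowerSeries ℝ} (hf : Wr r f) {z : ℂ} (hz : ‖z‖ ≤ r)
    (m : ℕ) : ev (f ^ m) z = ev f z ^ m := by
  induction m with
  | zero => rw [pow_zero, pow_zero, ev_one]
  | succ m ih => rw [pow_succ, pow_succ, ev_mul (hf.pow hr m) hf hz, ih]

theorem Wr_prod {ι : Type*} {r : ℝ} (hr : 0 ≤ r) (s : Finset ι) (f : ι → PowerSeries ℝ)
    (hf : ∀ i ∈ s, Wr r (f i)) : Wr r (∏ i ∈ s, f i) := by
  classical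
  induction s using Finset.induction_on with
  | empty => rw [prod_empty]; exact Wr_one
  | insert i s hi ih =>
    rw [prod_insert hi]
    exact (hf i (mem_insert_self _ _)).mul hr (ih fun j hj => hf j (mem_insert_of_mem hj))

theorem ev_prod {ι : Type*} {r : ℝ} (hr : 0 ≤ r) (s : Finset ι) (f : ι → PowerSeries ℝ)
    (hf : ∀ i ∈ s, Wr r (f i)) {z : ℂ} (hz : ‖z‖ ≤ r) :
    ev (∏ i ∈ s, f i) z = ∏ i ∈ s, ev (f i) z := by
  classical
  induction s using Finset.induction_on with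
  | empty => rw [prod_empty, prod_empty, ev_one]
  | insert i s hi ih =>
    rw [prod_insert hi, prod_insert hi, ev_mul (hf i (mem_insert_self _ _))
      (Wr_prod hr s f fun j hj => hf j (mem_insert_of_mem hj)) hz,
      ih fun j hj => hf j (mem_insert_of_mem hj)]

theorem Wr_rescale {r c : ℝ} (hc : 0 ≤ c) {f : PowerSeries ℝ} (hf : Wr (c * r) f) :
    Wr r (PowerSeries.rescale c f) := by
  unfold Wr at hf ⊢
  convert hf using 2 with k
  rw [coeff_rescale, abs_mul, abs_of_nonneg (pow_nonneg hc k), mul_pow]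
  ring

theorem ev_rescale (c : ℝ) (f : PowerSeries ℝ) (z : ℂ) :
    ev (PowerSeries.rescale c f) z = ev f (c * z) := by
  unfold ev
  refine tsum_congr fun k => ?_
  rw [coeff_rescale, mul_pow]
  push_cast
  ring

/-! ### the series `sinhc` -/

theorem coeff_sinhc (k : ℕ) : coeff k sinhc = 1 / ((2 * k + 1).factorial : ℝ) := by
  rw [sinhc, coeff_mk]

theorem Wr_sinhc (r : ℝ) : Wr r sinhc := by
  have h1 : Wr |r| sinhc := by
    refine Summable.of_nonneg_of_le (fun k => by positivity) (fun k => ?_)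
      (Real.summable_pow_div_factorial |r|)
    rw [coeff_sinhc, abs_of_nonneg (by positivity), one_div, inv_mul_eq_div]
    refine div_le_div_of_nonneg_left (by positivity) (by positivity) ?_
    exact_mod_cast Nat.factorial_le (by omega : k ≤ 2 * k + 1)
  unfold Wr at h1 ⊢
  refine Summable.of_norm ?_
  convert h1 using 2 with k
  rw [norm_mul, norm_pow, Real.norm_eq_abs, Real.norm_eq_abs, abs_abs]

/-- the entire function `S`, `S(y ^ 2) = sinh y / y` -/
noncomputable def Sf (z : ℂ) : ℂ := ev sinhc z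

theorem mul_Sf (w : ℂ) : w * Sf (w ^ 2) = Complex.sinh w := by
  have h1 := (Wr_sinhc ‖w ^ 2‖).hasSum le_rfl
  have h2 := h1.mul_left w
  have h3 := Complex.hasSum_sinh w
  have h4 : (fun k : ℕ => w * (((coeff k sinhc : ℝ) : ℂ) * (w ^ 2) ^ k)) =
      fun k : ℕ => w ^ (2 * k + 1) / ((2 * k + 1).factorial : ℂ) := by
    funext k
    rw [coeff_sinhc]
    rw [← pow_mul, pow_succ w (2 * k)]
    push_cast
    ring
  rw [h4] at h2
  exact h2.unique h3

theorem Sf_zero : Sf 0 = 1 := by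
  unfold Sf ev
  rw [tsum_eq_single 0]
  · rw [coeff_sinhc]
    simp
  · intro k hk
    rw [zero_pow hk, mul_zero]

theorem norm_Sf_le (z : ℂ) : ‖Sf z‖ ≤ Real.exp (√‖z‖) := by
  obtain ⟨r, hr⟩ : ∃ r, r = √‖z‖ := ⟨_, rfl⟩
  have hr0 : 0 ≤ r := by rw [hr]; exact Real.sqrt_nonneg _
  have hr2 : r ^ 2 = ‖z‖ := by rw [hr]; exact Real.sq_sqrt (norm_nonneg _)
  rw [← hr]
  have h1 := (Wr_sinhc ‖z‖).summable (z := z) le_rfl
  have h2 : ‖Sf z‖ ≤ ∑' k, ‖((coeff k sinhc : ℝ) : ℂ) * z ^ k‖ := norm_tsum_le_tsum_norm h1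
  refine h2.trans ?_
  have h3 : HasSum (fun k : ℕ => r ^ (2 * k) / ((2 * k).factorial : ℝ)) (Real.cosh r) := by
    exact Real.hasSum_cosh r
  have h4 : ∑' k, ‖((coeff k sinhc : ℝ) : ℂ) * z ^ k‖ ≤ Real.cosh r := by
    rw [← h3.tsum_eq]
    refine h1.tsum_le_tsum (fun k => ?_) h3.summable
    rw [norm_mul, norm_pow, ← hr2, ← pow_mul, Complex.norm_real, coeff_sinhc, Real.norm_eq_abs,
      abs_of_nonneg (by positivity), one_div, inv_mul_eq_div]
    refine div_le_div_of_nonneg_left (by positivity) (by positivity) ?_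
    exact_mod_cast Nat.factorial_le (by omega : 2 * k ≤ 2 * k + 1)
  refine h4.trans ?_
  rw [Real.cosh_eq]
  have h5 : Real.exp (-r) ≤ Real.exp r := Real.exp_le_exp.2 (by linarith)
  linarith

/-! ### the reciprocal -/

theorem sinhc_const : constantCoeff sinhc = 1 := by
  rw [← coeff_zero_eq_constantCoeff_apply, coeff_sinhc]
  simp

theorem sinhc_mul_inv : sinhc * sinhc⁻¹ = 1 :=
  PowerSeries.mul_inv_cancel _ (by rw [sinhc_const]; exact one_ne_zero)

theorem term_bound (j : ℕ) : 1 / ((2 * (j + 1) + 1).factorial : ℝ) * 4 ^ (j + 1) ≤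
    2 / 3 * (1 / 5) ^ j := by
  induction j with
  | zero => norm_num [Nat.factorial]
  | succ j ih =>
    have e : ((2 * (j + 1 + 1) + 1).factorial : ℝ) =
        (2 * j + 5) * (2 * j + 4) * ((2 * (j + 1) + 1).factorial : ℝ) := by
      have : 2 * (j + 1 + 1) + 1 = (2 * (j + 1) + 1) + 1 + 1 := by ring
      rw [this, Nat.factorial_succ, Nat.factorial_succ]
      push_cast
      ring
    have hp : (0 : ℝ) < ((2 * (j + 1) + 1).factorial : ℝ) := by positivity
    rw [e]
    have h1 : 1 / ((2 * (j : ℝ) + 5) * (2 * j + 4) * ((2 * (j + 1) + 1).factorial : ℝ)) *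
        4 ^ (j + 1 + 1) = (1 / ((2 * (j + 1) + 1).factorial : ℝ) * 4 ^ (j + 1)) *
          (4 / ((2 * (j : ℝ) + 5) * (2 * j + 4))) := by
      rw [pow_succ (4 : ℝ) (j + 1)]
      field_simp
    rw [h1, pow_succ (1 / 5 : ℝ), ← mul_assoc]
    refine mul_le_mul ih ?_ (by positivity) (by positivity)
    rw [div_le_div_iff₀ (by positivity) (by norm_num)]
    have : (0 : ℝ) ≤ j := Nat.cast_nonneg _
    nlinarith

theorem coeff_inv_bound (k : ℕ) : |coeff k sinhc⁻¹| ≤ (1 / 4) ^ k := by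
  induction k using Nat.strong_induction_on with
  | _ k ih =>
    rcases Nat.eq_zero_or_pos k with h0 | h0
    · subst h0
      rw [coeff_zero_eq_constantCoeff_apply, PowerSeries.constantCoeff_inv, sinhc_const]
      simp
    · obtain ⟨n, rfl⟩ : ∃ n, k = n + 1 := ⟨k - 1, by omega⟩
      have h1 := congrArg (coeff (n + 1)) sinhc_mul_inv
      rw [coeff_mul, coeff_one, if_neg (by omega),
        Finset.Nat.sum_antidiagonal_eq_sum_range_succ_mk, sum_range_succ'] at h1
      have h2 : coeff (n + 1) sinhc⁻¹ =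
          -∑ i ∈ range (n + 1), coeff (i + 1) sinhc * coeff (n + 1 - (i + 1)) sinhc⁻¹ := by
        have h3 : coeff 0 sinhc = 1 := by rw [coeff_sinhc]; simp
        simp only [h3, one_mul, Nat.sub_zero] at h1
        linarith
      rw [h2, abs_neg]
      refine (abs_sum_le_sum_abs _ _).trans ?_
      have h4 : ∀ i ∈ range (n + 1), |coeff (i + 1) sinhc * coeff (n + 1 - (i + 1)) sinhc⁻¹| ≤
          (1 / 4) ^ (n + 1) * (2 / 3 * (1 / 5) ^ i) := by
        intro i hi
        rw [mem_range] at hi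
        have h5 := ih (n + 1 - (i + 1)) (by omega)
        rw [abs_mul, coeff_sinhc, abs_of_nonneg (by positivity :
          (0 : ℝ) ≤ 1 / ((2 * (i + 1) + 1).factorial : ℝ))]
        have h6 := term_bound i
        calc 1 / ((2 * (i + 1) + 1).factorial : ℝ) * |coeff (n + 1 - (i + 1)) sinhc⁻¹|
            ≤ 1 / ((2 * (i + 1) + 1).factorial : ℝ) * (1 / 4) ^ (n + 1 - (i + 1)) :=
              mul_le_mul_of_nonneg_left h5 (by positivity)
          _ = (1 / 4) ^ (n + 1) * (1 / ((2 * (i + 1) + 1).factorial : ℝ) * 4 ^ (i + 1)) := by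
              have e : (1 / 4 : ℝ) ^ (n + 1) = (1 / 4) ^ (n + 1 - (i + 1)) * (1 / 4) ^ (i + 1) := by
                rw [← pow_add]
                congr 1
                omega
              have e2 : (1 / 4 : ℝ) ^ (i + 1) * 4 ^ (i + 1) = 1 := by
                rw [← mul_pow]
                norm_num
              rw [e]
              linear_combination (-(1 / 4 : ℝ) ^ (n + 1 - (i + 1)) /
                ((2 * (i + 1) + 1).factorial : ℝ)) * e2
          _ ≤ _ := mul_le_mul_of_nonneg_left h6 (by positivity)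
      refine (sum_le_sum h4).trans ?_
      rw [← mul_sum, ← mul_sum]
      have h7 : ∑ i ∈ range (n + 1), (1 / 5 : ℝ) ^ i ≤ 5 / 4 := by
        rw [geom_sum_eq (by norm_num)]
        have : (0 : ℝ) ≤ (1 / 5) ^ (n + 1) := by positivity
        rw [div_le_iff_of_neg (by norm_num)]
        linarith
      have h8 : (0 : ℝ) < (1 / 4) ^ (n + 1) := by positivity
      nlinarith

theorem Wr_inv : Wr 2 sinhc⁻¹ := by
  refine Summable.of_nonneg_of_le (fun k => by positivity) (fun k => ?_)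
    (summable_geometric_of_lt_one (by norm_num : (0 : ℝ) ≤ 1 / 2) (by norm_num))
  calc |coeff k sinhc⁻¹| * 2 ^ k ≤ (1 / 4) ^ k * 2 ^ k :=
        mul_le_mul_of_nonneg_right (coeff_inv_bound k) (by positivity)
    _ = (1 / 2) ^ k := by rw [← mul_pow]; norm_num

theorem ev_inv {z : ℂ} (hz : ‖z‖ ≤ 2) : Sf z * ev sinhc⁻¹ z = 1 := by
  unfold Sf
  rw [← ev_mul (Wr_sinhc 2) Wr_inv hz, sinhc_mul_inv, ev_one]

/-! ### the node series -/

/-- the function `G_v` -/
noncomputable def psi (D : Diagram) (v : ℕ) (z : ℂ) : ℂ :=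
  (∏ a ∈ D.leaves v, Sf (((1 / (a : ℝ) ^ 2 : ℝ) : ℂ) * z)) * (Sf z)⁻¹ ^ (D.valence v - 2)

theorem Wr_node (D : Diagram) (v : ℕ) : Wr 2 (D.node v) := by
  unfold Diagram.node
  refine (Wr_prod (by norm_num) _ _ fun a _ => ?_).mul (by norm_num) (Wr_inv.pow (by norm_num) _)
  exact Wr_rescale (by positivity) (Wr_sinhc _)

theorem ev_node (D : Diagram) (v : ℕ) {z : ℂ} (hz : ‖z‖ ≤ 2) : ev (D.node v) z = psi D v z := by
  unfold Diagram.node psi
  have h1 : ∀ a ∈ D.leaves v, Wr 2 (PowerSeries.rescale (1 / (a : ℝ) ^ 2) sinhc) := fun a _ =>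
    Wr_rescale (by positivity) (Wr_sinhc _)
  rw [ev_mul (Wr_prod (by norm_num) _ _ h1) (Wr_inv.pow (by norm_num) _) hz,
    ev_prod (by norm_num) _ _ h1 hz, ev_pow (by norm_num) Wr_inv hz]
  congr 1
  · refine prod_congr rfl fun a _ => ?_
    rw [ev_rescale]
    rfl
  · congr 1
    exact eq_inv_of_mul_eq_one_right (ev_inv hz)

end Pool.Agent.Zk79.LM
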