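import Pool.Agent.Zk79.LM.Comb
import Pool.Agent.Zk79.LM.Ser

set_option autoImplicit false
set_option maxHeartbeats 400000

/-! # Signs of the coefficients of the series of the nodes -/

namespace Pool.Agent.Zk79.LM

open PowerSeries Finset Diagram

/-- nonnegative coefficients -/
def NN (f : PowerSeries ℝ) : Prop := ∀ k, 0 ≤ coeff k f

theorem NN_one : NN 1 := by
  intro k
  rw [coeff_one]
  split_ifs
  · exact zero_le_one
  · exact le_rfl

theorem NN.mul {f g : PowerSeries ℝ} (hf : NN f) (hg : NN g) : NN (f * g) := by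
  intro k
  rw [coeff_mul]
  exact sum_nonneg fun p _ => mul_nonneg (hf _) (hg _)

theorem NN_prod {ι : Type*} (s : Finset ι) (f : ι → PowerSeries ℝ) (hf : ∀ i ∈ s, NN (f i)) :
    NN (∏ i ∈ s, f i) := by
  classical
  induction s using Finset.induction_on with
  | empty => rw [prod_empty]; exact NN_one
  | insert i s hi ih =>
    rw [prod_insert hi]
    exact (hf i (mem_insert_self _ _)).mul (ih fun j hj => hf j (mem_insert_of_mem hj))

theorem NN.rescale {f : PowerSeries ℝ} (hf : NN f) {c : ℝ} (hc : 0 ≤ c) :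
    NN (PowerSeries.rescale c f) := by
  intro k
  rw [coeff_rescale]
  exact mul_nonneg (pow_nonneg hc k) (hf k)

theorem coeff_mul_mono {f g f' g' : PowerSeries ℝ} (hf : NN f) (hg' : NN g')
    (h1 : ∀ k, coeff k f ≤ coeff k f') (h2 : ∀ k, coeff k g ≤ coeff k g') (k : ℕ) :
    coeff k (f * g) ≤ coeff k (f' * g') := by
  rw [coeff_mul, coeff_mul]
  refine sum_le_sum fun p _ => ?_
  exact (mul_le_mul_of_nonneg_left (h2 _) (hf _)).trans (mul_le_mul_of_nonneg_right (h1 _) (hg' _))

theorem coeff_prod_mono {ι : Type*} (s : Finset ι) (f g : ι → PowerSeries ℝ)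
    (hf : ∀ i ∈ s, NN (f i)) (h : ∀ i ∈ s, ∀ k, coeff k (f i) ≤ coeff k (g i)) (k : ℕ) :
    coeff k (∏ i ∈ s, f i) ≤ coeff k (∏ i ∈ s, g i) := by
  classical
  induction s using Finset.induction_on generalizing k with
  | empty => rw [prod_empty, prod_empty]
  | insert i s hi ih =>
    rw [prod_insert hi, prod_insert hi]
    refine coeff_mul_mono (hf i (mem_insert_self _ _)) ?_ (h i (mem_insert_self _ _))
      (ih (fun j hj => hf j (mem_insert_of_mem hj)) fun j hj => h j (mem_insert_of_mem hj)) k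
    exact NN_prod _ _ fun j hj k => (hf j (mem_insert_of_mem hj) k).trans
      (h j (mem_insert_of_mem hj) k)

/-- a coefficient of one factor is at most that of the product -/
theorem coeff_le_prod {ι : Type*} (s : Finset ι) (f : ι → PowerSeries ℝ)
    (hf : ∀ i ∈ s, NN (f i)) (h1 : ∀ i ∈ s, coeff 0 (f i) = 1) {i : ι} (hi : i ∈ s) (k : ℕ) :
    coeff k (f i) ≤ coeff k (∏ j ∈ s, f j) := by
  classical
  rw [← mul_prod_erase s f hi, coeff_mul]
  have h2 : coeff 0 (∏ j ∈ s.erase i, f j) = 1 := by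
    rw [coeff_zero_eq_constantCoeff_apply, map_prod]
    refine prod_eq_one fun j hj => ?_
    rw [← coeff_zero_eq_constantCoeff_apply]
    exact h1 j (mem_of_mem_erase hj)
  have h3 := NN_prod (s.erase i) f fun j hj => hf j (mem_of_mem_erase hj)
  have h4 := single_le_sum (f := fun p : ℕ × ℕ => coeff p.1 (f i) *
    coeff p.2 (∏ j ∈ s.erase i, f j)) (fun p _ => mul_nonneg (hf i hi _) (h3 _))
    (mem_antidiagonal.2 (by simp : k + 0 = k) : (k, 0) ∈ antidiagonal k)
  simp only at h4
  rwa [h2, mul_one] at h4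

/-! ### logarithmic derivatives -/

/-- `W` is the logarithmic derivative of `f` -/
def LD (f W : PowerSeries ℝ) : Prop := derivative ℝ f = W * f

theorem LD.mul {f g V W : PowerSeries ℝ} (hf : LD f V) (hg : LD g W) : LD (f * g) (V + W) := by
  unfold LD at *
  rw [Derivation.leibniz, hf, hg, smul_eq_mul, smul_eq_mul]
  ring

theorem LD_one : LD 1 0 := by
  unfold LD
  rw [derivative_one, zero_mul]

theorem LD.pow {f W : PowerSeries ℝ} (hf : LD f W) (m : ℕ) : LD (f ^ m) ((m : PowerSeries ℝ) * W) := by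
  induction m with
  | zero => rw [pow_zero, Nat.cast_zero, zero_mul]; exact LD_one
  | succ m ih =>
    have := ih.mul hf
    rw [pow_succ]
    convert this using 1
    push_cast
    ring

theorem LD_prod {ι : Type*} (s : Finset ι) (f W : ι → PowerSeries ℝ)
    (hf : ∀ i ∈ s, LD (f i) (W i)) : LD (∏ i ∈ s, f i) (∑ i ∈ s, W i) := by
  classical
  induction s using Finset.induction_on with
  | empty => rw [prod_empty, sum_empty]; exact LD_one
  | insert i s hi ih =>
    rw [prod_insert hi, sum_insert hi]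
    exact (hf i (mem_insert_self _ _)).mul (ih fun j hj => hf j (mem_insert_of_mem hj))

theorem derivative_rescale (c : ℝ) (f : PowerSeries ℝ) :
    derivative ℝ (PowerSeries.rescale c f) = C c * PowerSeries.rescale c (derivative ℝ f) := by
  ext k
  rw [coeff_derivative, coeff_rescale, coeff_C_mul, coeff_rescale, coeff_derivative]
  ring

theorem LD.rescale {f W : PowerSeries ℝ} (hf : LD f W) (c : ℝ) :
    LD (PowerSeries.rescale c f) (C c * PowerSeries.rescale c W) := by
  unfold LD at *
  rw [derivative_rescale, hf, map_mul]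
  ring

theorem NN_of_LD {f W : PowerSeries ℝ} (hf : LD f W) (hW : NN W) (h0 : 0 ≤ coeff 0 f) : NN f := by
  intro k
  induction k using Nat.strong_induction_on with
  | _ k ih =>
    rcases k with _ | k
    · exact h0
    · have h1 := congrArg (coeff k) hf
      rw [coeff_derivative, coeff_mul] at h1
      have h2 : 0 ≤ coeff (k + 1) f * ((k : ℝ) + 1) := by
        rw [h1]
        refine sum_nonneg fun p hp => mul_nonneg (hW _) (ih _ ?_)
        have := mem_antidiagonal.1 hp
        omega
      exact nonneg_of_mul_nonneg_left h2 (by positivity)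

/-! ### the series `T`, `T(y ^ 2) = sin y / y` -/

/-- `T(y ^ 2) = sin y / y` -/
noncomputable def TT : PowerSeries ℝ := PowerSeries.rescale (-1) sinhc

/-- its reciprocal -/
noncomputable def TI : PowerSeries ℝ := PowerSeries.rescale (-1) sinhc⁻¹

theorem coeff_TT (k : ℕ) : coeff k TT = (-1) ^ k / ((2 * k + 1).factorial : ℝ) := by
  rw [TT, coeff_rescale, coeff_sinhc]
  ring

theorem TT_mul_TI : TT * TI = 1 := by
  rw [TT, TI, ← map_mul, sinhc_mul_inv, map_one]

theorem TT_ne : TT ≠ 0 := by
  intro h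
  have := congrArg (coeff 0) h
  rw [coeff_TT] at this
  simp at this

theorem TT_ode : C 4 * X * derivative ℝ (derivative ℝ TT) + C 6 * derivative ℝ TT + TT = 0 := by
  ext k
  rw [map_add, map_add, mul_assoc, coeff_C_mul, coeff_C_mul, coeff_derivative, map_zero]
  rcases k with _ | k
  · rw [coeff_zero_X_mul, coeff_TT, coeff_TT]
    norm_num [Nat.factorial]
  · rw [coeff_succ_X_mul, coeff_derivative, coeff_derivative, coeff_TT, coeff_TT]
    have e : ((2 * (k + 1 + 1) + 1).factorial : ℝ) =
        (2 * k + 5) * (2 * k + 4) * ((2 * (k + 1) + 1).factorial : ℝ) := by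
      have : 2 * (k + 1 + 1) + 1 = (2 * (k + 1) + 1) + 1 + 1 := by ring
      rw [this, Nat.factorial_succ, Nat.factorial_succ]
      push_cast
      ring
    have hp : (0 : ℝ) < ((2 * (k + 1) + 1).factorial : ℝ) := by positivity
    rw [e]
    push_cast
    field_simp
    ring

/-- `-T' / T` -/
noncomputable def uu : PowerSeries ℝ := -derivative ℝ TT * TI

theorem derivative_TT : derivative ℝ TT = -uu * TT := by
  unfold uu
  have h := TT_mul_TI
  linear_combination (-derivative ℝ TT) * h

theorem LD_TT : LD TT (-uu) := derivative_TT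

theorem LD_TI : LD TI uu := by
  unfold LD
  have h1 := congrArg (derivative ℝ) TT_mul_TI
  rw [Derivation.leibniz, derivative_one, derivative_TT, smul_eq_mul, smul_eq_mul] at h1
  have h2 : TT * derivative ℝ TI = TT * (uu * TI) := by linear_combination h1
  exact mul_left_cancel₀ TT_ne h2

theorem uu_ode : C 4 * X * derivative ℝ uu + C 6 * uu = 1 + C 4 * X * uu ^ 2 := by
  have h1 := TT_ode
  have h2 : derivative ℝ (derivative ℝ TT) = (-derivative ℝ uu + uu ^ 2) * TT := by
    rw [derivative_TT, Derivation.leibniz, derivative_TT, smul_eq_mul, smul_eq_mul, map_neg]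
    ring
  rw [h2, derivative_TT] at h1
  have h3 : TT * (C 4 * X * derivative ℝ uu + C 6 * uu) = TT * (1 + C 4 * X * uu ^ 2) := by
    linear_combination (-1 : PowerSeries ℝ) * h1
  exact mul_left_cancel₀ TT_ne h3

theorem solve {c S k : ℝ} (hk : 0 ≤ k) (hS : 0 ≤ S)
    (h : 4 * (c * (k + 1)) + 6 * c = 0 + 4 * S) : 0 ≤ c := by
  have h3 : c * (4 * (k + 1) + 6) = 4 * S := by linear_combination h
  have h4 : 0 ≤ c * (4 * (k + 1) + 6) := by rw [h3]; positivity
  exact nonneg_of_mul_nonneg_left h4 (by positivity)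

theorem NN_uu : NN uu := by
  intro k
  induction k using Nat.strong_induction_on with
  | _ k ih =>
    have h1 := congrArg (coeff k) uu_ode
    rw [map_add, map_add, mul_assoc, mul_assoc, coeff_C_mul, coeff_C_mul, coeff_C_mul,
      coeff_one] at h1
    rcases k with _ | k
    · rw [coeff_zero_X_mul, coeff_zero_X_mul, if_pos rfl] at h1
      linarith
    · rw [coeff_succ_X_mul, coeff_succ_X_mul, coeff_derivative, if_neg (by omega), pow_two,
        coeff_mul] at h1
      have h2 : 0 ≤ ∑ p ∈ antidiagonal k, coeff p.1 uu * coeff p.2 uu := by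
        refine sum_nonneg fun p hp => ?_
        have := mem_antidiagonal.1 hp
        exact mul_nonneg (ih _ (by omega)) (ih _ (by omega))
      exact solve (Nat.cast_nonneg k) h2 h1

/-! ### the series of the nodes -/

variable (D : Diagram)

/-- the series of the node `v` with the sign of the variable changed -/
noncomputable def yy (v : ℕ) : PowerSeries ℝ := PowerSeries.rescale (-1) (D.node v)

theorem yy_eq (v : ℕ) : yy D v =
    (∏ a ∈ D.leaves v, PowerSeries.rescale (1 / (a : ℝ) ^ 2) TT) * TI ^ (D.valence v - 2) := by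
  unfold yy Diagram.node TT TI
  rw [map_mul, map_prod, map_pow]
  congr 1
  refine prod_congr rfl fun a _ => ?_
  rw [rescale_rescale, rescale_rescale, mul_comm]

theorem coeff_yy (v k : ℕ) : coeff k (yy D v) = (-1) ^ k * coeff k (D.node v) := by
  rw [yy, coeff_rescale]

theorem node_zero (v : ℕ) : coeff 0 (D.node v) = 1 := by
  rw [coeff_zero_eq_constantCoeff_apply, Diagram.node, map_mul, map_prod, map_pow,
    PowerSeries.constantCoeff_inv, sinhc_const]
  have h1 : ∀ a ∈ D.leaves v, constantCoeff (PowerSeries.rescale (1 / (a : ℝ) ^ 2) sinhc) = 1 := by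
    intro a _
    rw [← coeff_zero_eq_constantCoeff_apply, coeff_rescale, coeff_sinhc]
    simp
  rw [prod_eq_one h1]
  simp

theorem yy_zero (v : ℕ) : coeff 0 (yy D v) = 1 := by
  rw [coeff_yy, node_zero]
  simp

variable {D}

theorem NN_yy {v : ℕ} (h : ∑ a ∈ D.leaves v, 1 / (a : ℝ) ^ 2 ≤ ((D.valence v - 2 : ℕ) : ℝ)) :
    NN (yy D v) := by
  have h1 : LD (yy D v) (∑ a ∈ D.leaves v, C (1 / (a : ℝ) ^ 2) *
      PowerSeries.rescale (1 / (a : ℝ) ^ 2) (-uu) + ((D.valence v - 2 : ℕ) : PowerSeries ℝ) * uu) := by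
    rw [yy_eq]
    exact (LD_prod _ _ _ fun a _ => LD_TT.rescale _).mul (LD_TI.pow _)
  refine NN_of_LD h1 (fun k => ?_) (by rw [yy_zero]; exact zero_le_one)
  have e1 : coeff k (((D.valence v - 2 : ℕ) : PowerSeries ℝ) * uu) =
      ((D.valence v - 2 : ℕ) : ℝ) * coeff k uu := by
    rw [← map_natCast (C (R := ℝ)), coeff_C_mul]
  rw [map_add, map_sum, e1]
  have e2 : ∀ a ∈ D.leaves v, coeff k (C (1 / (a : ℝ) ^ 2) *
      PowerSeries.rescale (1 / (a : ℝ) ^ 2) (-uu)) = -((1 / (a : ℝ) ^ 2) ^ (k + 1) * coeff k uu) := by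
    intro a _
    rw [coeff_C_mul, coeff_rescale, map_neg]
    ring
  rw [sum_congr rfl e2, sum_neg_distrib, ← sum_mul]
  have e3 : ∑ a ∈ D.leaves v, (1 / (a : ℝ) ^ 2) ^ (k + 1) ≤ ∑ a ∈ D.leaves v, 1 / (a : ℝ) ^ 2 := by
    refine sum_le_sum fun a _ => ?_
    rw [pow_succ]
    refine mul_le_of_le_one_left (by positivity) (pow_le_one₀ (by positivity) ?_)
    rcases Nat.eq_zero_or_pos a with h0 | h0
    · rw [h0]; simp
    · have : (1 : ℝ) ≤ a := by exact_mod_cast h0
      rw [div_le_one (by positivity)]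
      nlinarith
  have e4 := mul_le_mul_of_nonneg_right (e3.trans h) (NN_uu k)
  linarith

theorem sq_sum_le (h : D.IsSplice) {v : ℕ} (hv : v ≤ D.n) :
    ∑ a ∈ D.leaves v, 1 / (a : ℝ) ^ 2 ≤ ((D.valence v - 2 : ℕ) : ℝ) := by
  have h1 : ∑ a ∈ D.leaves v, 1 / (a : ℝ) ^ 2 ≤ 1 / 2 * ∑ a ∈ D.leaves v, 1 / (a : ℝ) := by
    rw [mul_sum]
    refine sum_le_sum fun a ha => ?_
    have h2 : (2 : ℝ) ≤ a := by exact_mod_cast h.two_le v hv a ha
    rw [div_mul_div_comm, one_mul, div_le_div_iff₀ (by positivity) (by positivity)]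
    nlinarith
  have h2 := sum_recip_le h hv
  have h3 := h.three_le v hv
  have h4 : (D.leaves v).card ≤ D.valence v := by
    rw [D.valence_eq v]
    omega
  have h5 : ((D.valence v - 2 : ℕ) : ℝ) = D.valence v - 2 := by
    rw [Nat.cast_sub (by omega)]
    norm_num
  have h6 : (3 : ℝ) ≤ D.valence v := by exact_mod_cast h3
  have h7 : ((D.leaves v).card : ℝ) ≤ D.valence v := by exact_mod_cast h4
  rw [h5]
  linarith

theorem NN_yy' (h : D.IsSplice) {v : ℕ} (hv : v ≤ D.n) : NN (yy D v) := NN_yy (sq_sum_le h hv)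

end Pool.Agent.Zk79.LM
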