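import Pool.Agent.Zk79.LM.Ser

set_option autoImplicit false
set_option maxHeartbeats 400000

/-! # The function `S` in a sector and the functions of the nodes -/

namespace Pool.Agent.Zk79.LM

open PowerSeries Finset

/-- a sector of opening greater than `π / 2` -/
def Sec : Set ℂ := {w | |w.im| < 3 * w.re}

theorem isOpen_Sec : IsOpen Sec :=
  isOpen_lt (Complex.continuous_im.abs) (continuous_const.mul Complex.continuous_re)

theorem Sec.re_pos {w : ℂ} (hw : w ∈ Sec) : 0 < w.re := by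
  have h1 : |w.im| < 3 * w.re := hw
  have := abs_nonneg w.im
  linarith

theorem Sec.norm_le {w : ℂ} (hw : w ∈ Sec) : ‖w‖ ≤ 4 * w.re := by
  have h1 : |w.im| < 3 * w.re := hw
  have h2 := Sec.re_pos hw
  have h3 := Complex.norm_le_abs_re_add_abs_im w
  rw [abs_of_pos h2] at h3
  linarith

theorem sinh_re_le (u : ℂ) (hu : 0 ≤ u.re) : u.re ≤ ‖Complex.sinh u‖ := by
  have h1 : Complex.sinh u = ((Real.sinh u.re * Real.cos u.im : ℝ) : ℂ) +
      ((Real.cosh u.re * Real.sin u.im : ℝ) : ℂ) * Complex.I := by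
    conv_lhs => rw [← Complex.re_add_im u, Complex.sinh_add, Complex.sinh_mul_I,
      Complex.cosh_mul_I]
    push_cast
    ring
  have h2 : ‖Complex.sinh u‖ ^ 2 = Real.sinh u.re ^ 2 + Real.sin u.im ^ 2 := by
    rw [h1, ← Complex.normSq_eq_norm_sq, Complex.normSq_add_mul_I]
    have e1 := Real.cosh_sq u.re
    have e2 := Real.sin_sq_add_cos_sq u.im
    rw [mul_pow, mul_pow, e1]
    linear_combination (Real.sinh u.re ^ 2) * e2
  have h3 : u.re ≤ Real.sinh u.re := Real.self_le_sinh_iff.2 hu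
  have h4 : u.re ^ 2 ≤ ‖Complex.sinh u‖ ^ 2 := by
    rw [h2]
    have := sq_nonneg (Real.sin u.im)
    have : u.re ^ 2 ≤ Real.sinh u.re ^ 2 := pow_le_pow_left₀ hu h3 2
    linarith
  exact le_of_sq_le_sq' h4 (norm_nonneg _) where
  le_of_sq_le_sq' {a b : ℝ} (h : a ^ 2 ≤ b ^ 2) (hb : 0 ≤ b) : a ≤ b := by
    by_contra hlt
    push Not at hlt
    nlinarith

/-- lower bound for `S` in the sector -/
theorem Sf_lower {w : ℂ} (hw : w ∈ Sec) {s : ℝ} (hs : 0 ≤ s) : 1 / 4 ≤ ‖Sf (s * w ^ 2)‖ := by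
  obtain ⟨r, hr, hrs⟩ : ∃ r : ℝ, 0 ≤ r ∧ s = r ^ 2 := ⟨√s, Real.sqrt_nonneg _, (Real.sq_sqrt hs).symm⟩
  have e : (s : ℂ) * w ^ 2 = ((r : ℂ) * w) ^ 2 := by
    rw [hrs]
    push_cast
    ring
  rw [e]
  rcases hr.eq_or_lt with h0 | h0
  · rw [← h0]
    simp only [Complex.ofReal_zero, zero_mul, ne_eq, OfNat.ofNat_ne_zero, not_false_eq_true,
      zero_pow]
    rw [Sf_zero]
    norm_num
  · have h1 := mul_Sf ((r : ℂ) * w)
    have hre : ((r : ℂ) * w).re = r * w.re := by simp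
    have h2 := sinh_re_le ((r : ℂ) * w) (by
      rw [hre]; exact mul_nonneg hr (Sec.re_pos hw).le)
    rw [← h1, norm_mul, hre, norm_mul, Complex.norm_real, Real.norm_eq_abs, abs_of_pos h0] at h2
    have h3 := Sec.norm_le hw
    have h4 := Sec.re_pos hw
    have h5 : 0 < ‖w‖ := norm_pos_iff.2 (by rintro rfl; simp at h4)
    have h6 : r * w.re ≤ (r * (4 * w.re)) * ‖Sf (((r : ℂ) * w) ^ 2)‖ :=
      h2.trans (mul_le_mul_of_nonneg_right (mul_le_mul_of_nonneg_left h3 hr) (norm_nonneg _))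
    have h7 : 0 < r * w.re := mul_pos h0 h4
    by_contra hlt
    push Not at hlt
    nlinarith

theorem Sf_ne {w : ℂ} (hw : w ∈ Sec) {s : ℝ} (hs : 0 ≤ s) : Sf (s * w ^ 2) ≠ 0 := by
  intro h
  have := Sf_lower hw hs
  rw [h, norm_zero] at this
  norm_num at this

/-- `S` is entire -/
theorem differentiable_Sf : Differentiable ℂ Sf := by
  intro z
  have h1 : DifferentiableOn ℂ (fun z : ℂ => ∑' k, ((coeff k sinhc : ℝ) : ℂ) * z ^ k)
      (Metric.ball 0 (‖z‖ + 1)) := by
    refine Complex.differentiableOn_tsum_of_summable_norm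
      (u := fun k => |coeff k sinhc| * (‖z‖ + 1) ^ k) (Wr_sinhc _)
      (fun k => by fun_prop) Metric.isOpen_ball (fun k y hy => ?_)
    rw [mem_ball_zero_iff] at hy
    rw [norm_mul, norm_pow, Complex.norm_real, Real.norm_eq_abs]
    exact mul_le_mul_of_nonneg_left (pow_le_pow_left₀ (norm_nonneg _) hy.le k) (abs_nonneg _)
  exact h1.differentiableAt (Metric.isOpen_ball.mem_nhds (by
    rw [mem_ball_zero_iff]
    linarith))

/-- no zeros in the disc of radius `π ^ 2` -/
theorem Sf_ne_of_norm {z : ℂ} (hz : ‖z‖ < Real.pi ^ 2) : Sf z ≠ 0 := by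
  intro h
  obtain ⟨w, hw⟩ : ∃ w : ℂ, w ^ 2 = z := IsAlgClosed.exists_pow_nat_eq z two_pos
  have h1 := mul_Sf w
  rw [hw, h, mul_zero] at h1
  have h2 : Complex.sin (w * Complex.I) = 0 := by
    rw [Complex.sin_mul_I, ← h1, zero_mul]
  obtain ⟨k, hk⟩ := Complex.sin_eq_zero_iff.1 h2
  rcases eq_or_ne k 0 with h0 | h0
  · rw [h0] at hk
    have hw0 : w = 0 := by
      have : w * Complex.I = 0 := by rw [hk]; simp
      rcases mul_eq_zero.1 this with h3 | h3
      · exact h3
      · exact absurd h3 Complex.I_ne_zero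
    rw [← hw, hw0] at h
    simp only [ne_eq, OfNat.ofNat_ne_zero, not_false_eq_true, zero_pow] at h
    rw [Sf_zero] at h
    exact one_ne_zero h
  · have h3 : ‖w‖ = |(k : ℝ)| * Real.pi := by
      have h4 := congrArg norm hk
      rw [norm_mul, Complex.norm_I, mul_one, norm_mul, Complex.norm_real, Real.norm_eq_abs,
        abs_of_pos Real.pi_pos] at h4
      rw [h4]
      congr 1
      rw [Complex.norm_intCast]
    have h4 : (1 : ℝ) ≤ |(k : ℝ)| := by
      have : (1 : ℤ) ≤ |k| := Int.one_le_abs h0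
      exact_mod_cast this
    have h5 : Real.pi ≤ ‖w‖ := by
      rw [h3]
      nlinarith [Real.pi_pos]
    rw [← hw, norm_pow] at hz
    have := pow_le_pow_left₀ Real.pi_pos.le h5 2
    linarith

theorem Sf_neg_pi_sq : Sf (-((Real.pi : ℂ) ^ 2)) = 0 := by
  have h1 := mul_Sf ((Real.pi : ℂ) * Complex.I)
  rw [Complex.sinh_mul_I, Complex.sin_pi, zero_mul, mul_pow, Complex.I_sq, mul_neg_one] at h1
  rcases mul_eq_zero.1 h1 with h2 | h2
  · exfalso
    rcases mul_eq_zero.1 h2 with h3 | h3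
    · exact Real.pi_ne_zero (by exact_mod_cast h3)
    · exact Complex.I_ne_zero h3
  · exact h2

theorem norm_leaf_le (a : ℕ) (z : ℂ) : ‖Sf (((1 / (a : ℝ) ^ 2 : ℝ) : ℂ) * z)‖ ≤
    Real.exp (√‖z‖) := by
  refine (norm_Sf_le _).trans (Real.exp_le_exp.2 (Real.sqrt_le_sqrt ?_))
  rw [norm_mul, Complex.norm_real, Real.norm_eq_abs, abs_of_nonneg (by positivity)]
  rcases Nat.eq_zero_or_pos a with h0 | h0
  · rw [h0]
    simp
  · have h1 : (1 : ℝ) ≤ a := by exact_mod_cast h0
    have h2 : 1 / (a : ℝ) ^ 2 ≤ 1 := by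
      rw [div_le_one (by positivity)]
      nlinarith
    exact mul_le_of_le_one_left (norm_nonneg _) h2

/-- the bound of the functions of the nodes in the sector -/
theorem norm_psi_le (D : Diagram) (v : ℕ) {w : ℂ} (hw : w ∈ Sec) {s : ℝ} (hs : 0 ≤ s) :
    ‖psi D v (s * w ^ 2)‖ ≤ 4 ^ (D.valence v - 2) *
      Real.exp ((D.leaves v).card * (‖w‖ * √s)) := by
  unfold psi
  have e : √‖(s : ℂ) * w ^ 2‖ = ‖w‖ * √s := by
    rw [norm_mul, norm_pow, Complex.norm_real, Real.norm_eq_abs, abs_of_nonneg hs, mul_comm,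
      Real.sqrt_mul (by positivity), Real.sqrt_sq (norm_nonneg _)]
  rw [norm_mul, norm_prod, norm_pow, norm_inv, mul_comm]
  refine mul_le_mul ?_ ?_ (prod_nonneg fun _ _ => norm_nonneg _) (by positivity)
  · refine pow_le_pow_left₀ (by positivity) ?_ _
    have := Sf_lower hw hs
    rw [inv_le_comm₀ (by linarith) (by norm_num)]
    linarith
  · refine (prod_le_prod (fun _ _ => norm_nonneg _) (fun a _ => norm_leaf_le a _)).trans ?_
    rw [prod_const, ← Real.exp_nat_mul, e]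

theorem differentiableOn_psi (D : Diagram) (v : ℕ) {s : ℝ} (hs : 0 ≤ s) :
    DifferentiableOn ℂ (fun w : ℂ => psi D v (s * w ^ 2)) Sec := by
  unfold psi
  intro w hw
  apply DifferentiableAt.differentiableWithinAt
  have h1 : ∀ c : ℂ, DifferentiableAt ℂ (fun w : ℂ => Sf (c * w ^ 2)) w := fun c =>
    (differentiable_Sf _).comp w (by fun_prop)
  refine DifferentiableAt.mul ?_ ?_
  · refine DifferentiableAt.fun_finsetProd fun a _ => ?_
    have := h1 (((1 / (a : ℝ) ^ 2 : ℝ) : ℂ) * s)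
    simpa only [mul_assoc] using this
  · exact ((h1 s).inv (Sf_ne hw hs)).pow _

theorem differentiableOn_psi_ball (D : Diagram) (v : ℕ) :
    DifferentiableOn ℂ (psi D v) (Metric.ball 0 (Real.pi ^ 2)) := by
  unfold psi
  intro z hz
  rw [mem_ball_zero_iff] at hz
  apply DifferentiableAt.differentiableWithinAt
  refine DifferentiableAt.mul ?_ ?_
  · refine DifferentiableAt.fun_finsetProd fun a _ => ?_
    exact (differentiable_Sf _).comp z (by fun_prop)
  · exact ((differentiable_Sf z).inv (Sf_ne_of_norm hz)).pow _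

end Pool.Agent.Zk79.LM
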