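import Pool.Agent.Zk79.LM.Pos
import Pool.Agent.Zk79.LM.Sec

set_option autoImplicit false
set_option maxHeartbeats 400000

/-! # The radius of convergence of the series of the nodes -/

namespace Pool.Agent.Zk79.LM

open PowerSeries Finset Diagram
open scoped NNReal ENNReal Topology

/-- the coefficients as a formal multilinear series -/
noncomputable def fms (f : PowerSeries ℝ) : FormalMultilinearSeries ℂ ℂ ℂ :=
  FormalMultilinearSeries.ofScalars ℂ fun k => ((coeff k f : ℝ) : ℂ)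

theorem norm_fms (f : PowerSeries ℝ) (k : ℕ) : ‖fms f k‖ = |coeff k f| := by
  rw [FormalMultilinearSeries.norm_apply_eq_norm_coef, fms,
    FormalMultilinearSeries.coeff_ofScalars, Complex.norm_real, Real.norm_eq_abs]

theorem hasF {f : PowerSeries ℝ} {r : ℝ≥0} (hr : 0 < r) (hf : Wr r f) :
    HasFPowerSeriesAt (ev f) (fms f) 0 := by
  refine ⟨r, ?_, ?_, ?_⟩
  · apply FormalMultilinearSeries.le_radius_of_summable_norm
    simp only [norm_fms]
    exact hf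
  · exact_mod_cast hr
  · intro y hy
    rw [zero_add]
    have hy' : ‖y‖ < r := by
      rw [Metric.mem_eball, edist_zero_right] at hy
      rw [← ofReal_norm, ENNReal.ofReal_lt_coe_iff (norm_nonneg _)] at hy
      exact hy
    have h1 := hf.hasSum hy'.le
    have h2 : (fun k => fms f k fun _ : Fin k => y) = fun k => ((coeff k f : ℝ) : ℂ) * y ^ k := by
      funext k
      unfold fms
      rw [FormalMultilinearSeries.ofScalars_apply_eq, smul_eq_mul]
    rw [h2]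
    exact h1

/-- convergence in a disc of holomorphy -/
theorem Wr_of_holo {f : PowerSeries ℝ} {F : ℂ → ℂ} {R ρ r : ℝ} (hρ : 0 < ρ) (hf : Wr ρ f)
    (heq : ∀ z, ‖z‖ ≤ ρ → ev f z = F z) (hF : DifferentiableOn ℂ F (Metric.ball 0 R))
    (hr : 0 ≤ r) (hrR : r < R) : Wr r f := by
  obtain ⟨s, hrs, hsR⟩ := exists_between hrR
  have hs0 : 0 < s := by linarith
  obtain ⟨S, hS⟩ : ∃ S : ℝ≥0, (S : ℝ) = s := ⟨⟨s, hs0.le⟩, rfl⟩
  obtain ⟨P, hP⟩ : ∃ P : ℝ≥0, (P : ℝ) = ρ := ⟨⟨ρ, hρ.le⟩, rfl⟩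
  obtain ⟨Q, hQ⟩ : ∃ Q : ℝ≥0, (Q : ℝ) = r := ⟨⟨r, hr⟩, rfl⟩
  have hS0 : 0 < S := by
    rw [← NNReal.coe_pos, hS]
    exact hs0
  have h1 : HasFPowerSeriesOnBall F (cauchyPowerSeries F 0 S) 0 S := by
    refine DifferentiableOn.hasFPowerSeriesOnBall (hF.mono ?_) hS0
    intro z hz
    rw [mem_closedBall_zero_iff, hS] at hz
    rw [mem_ball_zero_iff]
    linarith
  have h2 : HasFPowerSeriesAt (ev f) (fms f) 0 := hasF (r := P) (by
    rw [← NNReal.coe_pos, hP]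
    exact hρ) (by rw [hP]; exact hf)
  have h3 : F =ᶠ[𝓝 0] ev f := by
    filter_upwards [Metric.closedBall_mem_nhds (0 : ℂ) hρ] with z hz
    rw [mem_closedBall_zero_iff] at hz
    exact (heq z hz).symm
  have h4 := h1.hasFPowerSeriesAt.eq_formalMultilinearSeries_of_eventually h2 h3
  have h5 : (Q : ℝ≥0∞) < (fms f).radius := by
    rw [← h4]
    refine lt_of_lt_of_le ?_ h1.r_le
    rw [ENNReal.coe_lt_coe, ← NNReal.coe_lt_coe, hQ, hS]
    exact hrs
  have h6 := (fms f).summable_norm_mul_pow h5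
  simp only [norm_fms, hQ] at h6
  exact h6

variable (D : Diagram)

theorem Wr_node_of_lt (v : ℕ) {r : ℝ} (hr : 0 ≤ r) (h : r < Real.pi ^ 2) : Wr r (D.node v) :=
  Wr_of_holo (by norm_num) (Wr_node D v) (fun _ hz => ev_node D v hz)
    (differentiableOn_psi_ball D v) hr h

theorem Wr_yy_iff (v : ℕ) (r : ℝ) : Wr r (yy D v) ↔ Wr r (D.node v) := by
  unfold Wr
  have : ∀ k, |coeff k (yy D v)| = |coeff k (D.node v)| := by
    intro k
    rw [coeff_yy, abs_mul, abs_pow, abs_neg, abs_one, one_pow, one_mul]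
  simp only [this]

theorem Wr_yy (v : ℕ) {r : ℝ} (hr : 0 ≤ r) (h : r < Real.pi ^ 2) : Wr r (yy D v) :=
  (Wr_yy_iff D v r).2 (Wr_node_of_lt D v hr h)

variable {D}

theorem node_mul_pow (v : ℕ) : D.node v * sinhc ^ (D.valence v - 2) =
    ∏ a ∈ D.leaves v, PowerSeries.rescale (1 / (a : ℝ) ^ 2) sinhc := by
  unfold Diagram.node
  rw [mul_assoc, ← mul_pow, mul_comm sinhc⁻¹, sinhc_mul_inv, one_pow, mul_one]

/-- the value at the first pole -/
theorem leaf_at {v : ℕ} (h : D.IsSplice) (hv : v ≤ D.n) {a : ℕ} (ha : a ∈ D.leaves v) :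
    Sf (((1 / (a : ℝ) ^ 2 : ℝ) : ℂ) * -((Real.pi : ℂ) ^ 2)) ≠ 0 := by
  apply Sf_ne_of_norm
  have h2 : (2 : ℝ) ≤ a := by exact_mod_cast h.two_le v hv a ha
  have h3 := Real.pi_pos
  rw [norm_mul, norm_neg, norm_pow, Complex.norm_real, Complex.norm_real, Real.norm_eq_abs,
    Real.norm_eq_abs, abs_of_pos h3, abs_of_nonneg (by positivity)]
  have h4 : 1 / (a : ℝ) ^ 2 ≤ 1 / 4 := by
    refine one_div_le_one_div_of_le (by norm_num) ?_
    nlinarith
  have h5 : (0 : ℝ) < Real.pi ^ 2 := by positivity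
  nlinarith

theorem not_Wr_node (h : D.IsSplice) {v : ℕ} (hv : v ≤ D.n) {r : ℝ} (hr : Real.pi ^ 2 ≤ r) :
    ¬ Wr r (D.node v) := by
  intro h0
  have hp : (0 : ℝ) ≤ Real.pi ^ 2 := by positivity
  have h1 : Wr (Real.pi ^ 2) (D.node v) := h0.mono hp hr
  have hz : ‖-((Real.pi : ℂ) ^ 2)‖ ≤ Real.pi ^ 2 := by
    rw [norm_neg, norm_pow, Complex.norm_real, Real.norm_eq_abs, abs_of_pos Real.pi_pos]
  have h2 : ev (D.node v * sinhc ^ (D.valence v - 2)) (-((Real.pi : ℂ) ^ 2)) =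
      ev (∏ a ∈ D.leaves v, PowerSeries.rescale (1 / (a : ℝ) ^ 2) sinhc) (-((Real.pi : ℂ) ^ 2)) := by
    rw [node_mul_pow]
  rw [ev_mul h1 ((Wr_sinhc _).pow hp _) hz, ev_pow hp (Wr_sinhc _) hz,
    ev_prod hp _ _ (fun a _ => Wr_rescale (by positivity) (Wr_sinhc _)) hz] at h2
  have h3 : ev sinhc (-((Real.pi : ℂ) ^ 2)) = 0 := Sf_neg_pi_sq
  have h4 := h.three_le v hv
  rw [h3, zero_pow (by omega), mul_zero] at h2
  obtain ⟨a, ha, h5⟩ := prod_eq_zero_iff.1 h2.symm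
  rw [ev_rescale] at h5
  exact leaf_at h hv ha h5

theorem not_Wr_yy (h : D.IsSplice) {v : ℕ} (hv : v ≤ D.n) {r : ℝ} (hr : Real.pi ^ 2 ≤ r) :
    ¬ Wr r (yy D v) := fun h0 => not_Wr_node h hv hr ((Wr_yy_iff D v r).1 h0)

end Pool.Agent.Zk79.LM
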