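import Pool.Agent.Zk79.LM.Point

set_option autoImplicit false
set_option maxHeartbeats 400000

/-! # The functions of the nodes on the real line -/

namespace Pool.Agent.Zk79.LM

open Finset Diagram

/-- `sinh r / r` -/
noncomputable def shc (r : ℝ) : ℝ := if r = 0 then 1 else Real.sinh r / r

theorem Sf_sq (r : ℝ) : Sf ((r : ℂ) ^ 2) = (shc r : ℝ) := by
  unfold shc
  split_ifs with h
  · rw [h]
    simp [Sf_zero]
  · have h1 := mul_Sf (r : ℂ)
    have h2 : (r : ℂ) ≠ 0 := by exact_mod_cast h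
    rw [eq_comm, ← mul_right_inj' h2, h1]
    push_cast
    field_simp

theorem one_le_shc {r : ℝ} (hr : 0 ≤ r) : 1 ≤ shc r := by
  unfold shc
  split_ifs with h
  · exact le_rfl
  · have h0 : 0 < r := lt_of_le_of_ne hr (Ne.symm h)
    rw [le_div_iff₀ h0, one_mul]
    exact Real.self_le_sinh_iff.2 hr

theorem shc_le_exp {r : ℝ} (hr : 0 ≤ r) : shc r ≤ Real.exp r := by
  have h1 := norm_Sf_le ((r : ℂ) ^ 2)
  rw [Sf_sq, Complex.norm_real, norm_pow, Complex.norm_real, Real.norm_eq_abs, Real.norm_eq_abs,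
    Real.sqrt_sq (abs_nonneg _), abs_of_nonneg hr,
    abs_of_nonneg (by linarith [one_le_shc hr])] at h1
  exact h1

theorem shc_inv_le {r : ℝ} (hr : 0 ≤ r) : (shc r)⁻¹ ≤ 4 * (1 + r) * Real.exp (-r) := by
  have h1 := one_le_shc hr
  rw [inv_le_comm₀ (by linarith) (by positivity)]
  have e : (4 * (1 + r) * Real.exp (-r))⁻¹ = Real.exp r / (4 * (1 + r)) := by
    rw [mul_inv, ← Real.exp_neg, neg_neg, div_eq_mul_inv, mul_comm]
  rw [e, div_le_iff₀ (by positivity)]
  rcases hr.eq_or_lt with h0 | h0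
  · rw [← h0]
    unfold shc
    simp
  · have h2 : shc r = Real.sinh r / r := by
      unfold shc
      rw [if_neg h0.ne']
    rw [h2, div_mul_eq_mul_div, le_div_iff₀ h0, Real.sinh_eq]
    have h3 : 1 + r ≤ Real.exp r := by
      have := Real.add_one_le_exp r
      linarith
    have h4 : Real.exp (-r) * Real.exp r = 1 := by rw [← Real.exp_add]; simp
    have h5 : (1 + r) * Real.exp (-r) ≤ 1 := by
      calc (1 + r) * Real.exp (-r) ≤ Real.exp r * Real.exp (-r) :=
            mul_le_mul_of_nonneg_right h3 (Real.exp_pos _).le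
        _ = 1 := by rw [mul_comm, h4]
    nlinarith [Real.exp_pos r, Real.exp_pos (-r)]

/-- the function of the node `v`, of `r = |x_v|` -/
noncomputable def psr (D : Diagram) (v : ℕ) (r : ℝ) : ℝ :=
  (∏ a ∈ D.leaves v, shc (r / a)) * (shc r)⁻¹ ^ (D.valence v - 2)

theorem psi_sq (D : Diagram) (v : ℕ) (r : ℝ) : psi D v ((r : ℂ) ^ 2) = (psr D v r : ℝ) := by
  unfold psi psr
  push_cast
  rw [Sf_sq]
  congr 1
  refine prod_congr rfl fun a _ => ?_
  rw [← Sf_sq]
  congr 1
  push_cast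
  ring

theorem psr_pos (D : Diagram) (v : ℕ) {r : ℝ} (hr : 0 ≤ r) : 0 < psr D v r := by
  unfold psr
  have h1 := one_le_shc hr
  refine mul_pos (prod_pos fun a _ => ?_) (by positivity)
  have := one_le_shc (div_nonneg hr (Nat.cast_nonneg a))
  linarith

theorem psr_lower (D : Diagram) (v : ℕ) {r : ℝ} (hr : 0 ≤ r) :
    Real.exp (-((D.valence v - 2 : ℕ) * r)) ≤ psr D v r := by
  unfold psr
  have h1 := one_le_shc hr
  have h2 : 1 ≤ ∏ a ∈ D.leaves v, shc (r / a) := by
    rw [← prod_const_one (s := D.leaves v)]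
    exact prod_le_prod (fun _ _ => zero_le_one) fun a _ =>
      one_le_shc (div_nonneg hr (Nat.cast_nonneg a))
  have h3 : Real.exp (-((D.valence v - 2 : ℕ) * r)) ≤ (shc r)⁻¹ ^ (D.valence v - 2) := by
    rw [Real.exp_neg, Real.exp_nat_mul, ← inv_pow]
    refine pow_le_pow_left₀ (by positivity) ?_ _
    rw [inv_le_inv₀ (Real.exp_pos _) (by linarith)]
    exact shc_le_exp hr
  have h4 : 0 ≤ (shc r)⁻¹ ^ (D.valence v - 2) := by positivity
  calc _ ≤ (shc r)⁻¹ ^ (D.valence v - 2) := h3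
    _ ≤ _ := le_mul_of_one_le_left h4 h2

theorem psr_upper (D : Diagram) (v : ℕ) {k : ℝ} (hk : 0 < k)
    (hκ : ∑ a ∈ D.leaves v, 1 / (a : ℝ) + 2 * k ≤ (D.valence v - 2 : ℕ)) :
    ∃ C : ℝ, 0 < C ∧ ∀ r : ℝ, 0 ≤ r → psr D v r ≤ C * Real.exp (-(k * r)) := by
  obtain ⟨m, hm⟩ : ∃ m, m = D.valence v - 2 := ⟨_, rfl⟩
  rw [← hm] at hκ
  refine ⟨4 ^ m * (m.factorial * (1 / k) ^ m * Real.exp k), by positivity, fun r hr => ?_⟩
  unfold psr
  rw [← hm]
  have h1 := one_le_shc hr
  have h2 : ∏ a ∈ D.leaves v, shc (r / a) ≤ Real.exp (r * ∑ a ∈ D.leaves v, 1 / (a : ℝ)) := by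
    rw [mul_sum, Real.exp_sum]
    refine prod_le_prod (fun a _ => ?_) fun a _ => ?_
    · have := one_le_shc (div_nonneg hr (Nat.cast_nonneg a))
      linarith
    · rw [mul_one_div]
      exact shc_le_exp (div_nonneg hr (Nat.cast_nonneg a))
  have h3 : (shc r)⁻¹ ^ m ≤ 4 ^ m * (1 + r) ^ m * Real.exp (-(m * r)) := by
    have := pow_le_pow_left₀ (by positivity) (shc_inv_le hr) m
    refine this.trans (le_of_eq ?_)
    rw [mul_pow, mul_pow, ← Real.exp_nat_mul]
    congr 2
    ring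
  have h4 : (1 + r) ^ m ≤ m.factorial * (1 / k) ^ m * Real.exp (k * (1 + r)) := by
    have h5 := Real.pow_div_factorial_le_exp (k * (1 + r)) (by positivity) m
    rw [div_le_iff₀ (by positivity)] at h5
    calc (1 + r) ^ m = (k * (1 + r)) ^ m * (1 / k) ^ m := by
          rw [← mul_pow]
          congr 1
          field_simp
      _ ≤ (Real.exp (k * (1 + r)) * m.factorial) * (1 / k) ^ m :=
          mul_le_mul_of_nonneg_right h5 (by positivity)
      _ = _ := by ring
  calc _ ≤ Real.exp (r * ∑ a ∈ D.leaves v, 1 / (a : ℝ)) *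
        (4 ^ m * (m.factorial * (1 / k) ^ m * Real.exp (k * (1 + r))) * Real.exp (-(m * r))) := by
        refine mul_le_mul h2 (h3.trans ?_) (by positivity) (Real.exp_pos _).le
        exact mul_le_mul_of_nonneg_right (mul_le_mul_of_nonneg_left h4 (by positivity))
          (Real.exp_pos _).le
    _ = 4 ^ m * (m.factorial * (1 / k) ^ m) * (Real.exp (r * ∑ a ∈ D.leaves v, 1 / (a : ℝ)) *
        Real.exp (k * (1 + r)) * Real.exp (-(m * r))) := by ring
    _ = 4 ^ m * (m.factorial * (1 / k) ^ m) * Real.exp (r * ∑ a ∈ D.leaves v, 1 / (a : ℝ) +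
        k * (1 + r) + -(m * r)) := by rw [Real.exp_add, Real.exp_add]
    _ ≤ 4 ^ m * (m.factorial * (1 / k) ^ m) * Real.exp (k + -(k * r)) := by
        refine mul_le_mul_of_nonneg_left (Real.exp_le_exp.2 ?_) (by positivity)
        have := mul_le_mul_of_nonneg_left hκ hr
        nlinarith
    _ = _ := by
        rw [Real.exp_add]
        ring

theorem PP_real (D : Diagram) (s : Fin (D.n + 1) → ℝ) (hs : ∀ v, 0 ≤ s v) (t : ℝ) :
    PP D s ((t : ℂ) ^ 2) = ((∏ v : Fin (D.n + 1), psr D v (t * √(s v)) : ℝ) : ℂ) := by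
  unfold PP
  push_cast
  refine prod_congr rfl fun v _ => ?_
  rw [← psi_sq]
  congr 1
  push_cast
  rw [mul_pow, mul_comm]
  congr 1
  exact_mod_cast (Real.sq_sqrt (hs v)).symm

end Pool.Agent.Zk79.LM
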