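import Pool.Agent.Zk79.LM.Gro

set_option autoImplicit false
set_option maxHeartbeats 400000

/-! # Diagrams with one node -/

namespace Pool.Agent.Zk79.LM

open PowerSeries Finset Diagram MeasureTheory

theorem sinhc_ne : sinhc ≠ 0 := by
  intro h
  have := congrArg (coeff 0) h
  rw [coeff_sinhc] at this
  simp at this

/-- the product of the leaf series -/
noncomputable def LP (L : Finset ℕ) : PowerSeries ℝ :=
  ∏ a ∈ L, PowerSeries.rescale (1 / (a : ℝ) ^ 2) sinhc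

theorem ev_LP (L : Finset ℕ) (z : ℂ) :
    ev (LP L) z = ∏ a ∈ L, Sf (((1 / (a : ℝ) ^ 2 : ℝ) : ℂ) * z) := by
  unfold LP
  rw [ev_prod (norm_nonneg z) _ _ (fun a _ => Wr_rescale (by positivity) (Wr_sinhc _)) le_rfl]
  refine prod_congr rfl fun a _ => ?_
  rw [ev_rescale]
  rfl

/-- a zero of `S` -/
theorem dvd_of_Sf {a c : ℕ} (ha : 0 < a) (hc : 0 < c)
    (h : Sf (((1 / (a : ℝ) ^ 2 : ℝ) : ℂ) * -(((Real.pi : ℂ) * c) ^ 2)) = 0) : a ∣ c := by
  have ha' : (a : ℂ) ≠ 0 := by exact_mod_cast ha.ne'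
  have hc' : (c : ℂ) ≠ 0 := by exact_mod_cast hc.ne'
  have hp : (Real.pi : ℂ) ≠ 0 := by exact_mod_cast Real.pi_ne_zero
  obtain ⟨w, hw⟩ : ∃ w : ℂ, w = (Real.pi : ℂ) * c / a * Complex.I := ⟨_, rfl⟩
  have e : ((1 / (a : ℝ) ^ 2 : ℝ) : ℂ) * -(((Real.pi : ℂ) * c) ^ 2) = w ^ 2 := by
    have e1 : ((Real.pi : ℂ) * c / a * Complex.I) ^ 2 = -((Real.pi : ℂ) * c / a) ^ 2 := by
      rw [mul_pow, Complex.I_sq]
      ring
    rw [hw, e1]
    push_cast
    field_simp
  have h1 := mul_Sf w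
  rw [e] at h
  rw [h, mul_zero] at h1
  rw [hw, Complex.sinh_mul_I] at h1
  have h2 : Complex.sin ((Real.pi : ℂ) * c / a) = 0 := by
    rcases mul_eq_zero.1 h1.symm with h3 | h3
    · exact h3
    · exact absurd h3 Complex.I_ne_zero
  obtain ⟨k, hk⟩ := Complex.sin_eq_zero_iff.1 h2
  have h3 : (c : ℂ) = k * a := by
    have h4 : (Real.pi : ℂ) * c = (Real.pi : ℂ) * (k * a) := by
      field_simp at hk
      linear_combination (Real.pi : ℂ) * hk
    exact mul_left_cancel₀ hp h4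
  have h5 : (c : ℤ) = k * a := by exact_mod_cast h3
  have h6 : (a : ℤ) ∣ c := ⟨k, by rw [h5, mul_comm]⟩
  exact_mod_cast h6

theorem leaf_zero {L L' : Finset ℕ} (hL : ∀ a ∈ L, 0 < a) (hL' : ∀ a ∈ L', 0 < a)
    (h : LP L = LP L') {c : ℕ} (hc : c ∈ L) : ∃ a ∈ L', a ∣ c := by
  obtain ⟨z, hz⟩ : ∃ z : ℂ, z = -(((Real.pi : ℂ) * c) ^ 2) := ⟨_, rfl⟩
  have h1 : ev (LP L) z = 0 := by
    rw [ev_LP]
    refine prod_eq_zero hc ?_
    have hc' : (c : ℂ) ≠ 0 := by exact_mod_cast (hL c hc).ne'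
    have e : ((1 / (c : ℝ) ^ 2 : ℝ) : ℂ) * z = -((Real.pi : ℂ) ^ 2) := by
      rw [hz]
      push_cast
      field_simp
    rw [e]
    exact Sf_neg_pi_sq
  rw [h, ev_LP] at h1
  obtain ⟨a, ha, h2⟩ := prod_eq_zero_iff.1 h1
  rw [hz] at h2
  exact ⟨a, ha, dvd_of_Sf (hL' a ha) (hL c hc) h2⟩

theorem leaves_subset {L L' : Finset ℕ} (hL : ∀ a ∈ L, 2 ≤ a) (hL' : ∀ a ∈ L', 2 ≤ a)
    (hc : ∀ a ∈ L, ∀ b ∈ L, a ≠ b → a.Coprime b) (h : LP L = LP L') : L ⊆ L' := by
  intro c hcL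
  have p1 : ∀ a ∈ L, 0 < a := fun a ha => by have := hL a ha; omega
  have p2 : ∀ a ∈ L', 0 < a := fun a ha => by have := hL' a ha; omega
  obtain ⟨a, ha, hac⟩ := leaf_zero p1 p2 h hcL
  obtain ⟨c', hc', hca⟩ := leaf_zero p2 p1 h.symm ha
  have h1 : c' ∣ c := hca.trans hac
  have h2 : c' = c := by
    by_contra hne
    have h3 := hc c' hc' c hcL hne
    have h4 : c' = 1 := Nat.eq_one_of_self_dvd_coprime h3 h1
    have := hL c' hc'
    omega
  rw [h2] at hca
  have h3 : a = c := Nat.dvd_antisymm hac hca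
  rw [← h3]
  exact ha
where
  Nat.eq_one_of_self_dvd_coprime {a b : ℕ} (h : a.Coprime b) (hd : a ∣ b) : a = 1 := by
    have := Nat.gcd_eq_left hd
    rw [Nat.Coprime, this] at h
    exact h

/-- the series of the node determines the weights -/
theorem leaves_eq {L L' : Finset ℕ} (hL : ∀ a ∈ L, 2 ≤ a) (hL' : ∀ a ∈ L', 2 ≤ a)
    (hc : ∀ a ∈ L, ∀ b ∈ L, a ≠ b → a.Coprime b)
    (hc' : ∀ a ∈ L', ∀ b ∈ L', a ≠ b → a.Coprime b) {m m' : ℕ}
    (h : LP L * sinhc⁻¹ ^ m = LP L' * sinhc⁻¹ ^ m') : L = L' := by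
  have hpi : ∀ L : Finset ℕ, (∀ a ∈ L, 2 ≤ a) → ev (LP L) (-((Real.pi : ℂ) ^ 2)) ≠ 0 := by
    intro L hL h0
    rw [ev_LP] at h0
    obtain ⟨a, ha, h1⟩ := prod_eq_zero_iff.1 h0
    have h2 := hL a ha
    have h3 : Sf (((1 / (a : ℝ) ^ 2 : ℝ) : ℂ) * -(((Real.pi : ℂ) * ((1 : ℕ) : ℂ)) ^ 2)) = 0 := by
      rw [Nat.cast_one, mul_one]
      exact h1
    have h4 := dvd_of_Sf (by omega) one_pos h3
    have := Nat.le_of_dvd one_pos h4
    omega
  have key : ∀ (L L' : Finset ℕ) (m m' : ℕ), (∀ a ∈ L, 2 ≤ a) → (∀ a ∈ L', 2 ≤ a) →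
      LP L * sinhc⁻¹ ^ m = LP L' * sinhc⁻¹ ^ m' → m ≤ m' := by
    intro L L' m m' hL hL' h
    by_contra hcon
    push Not at hcon
    obtain ⟨d, hd⟩ : ∃ d, m = m' + (d + 1) := ⟨m - m' - 1, by omega⟩
    have h1 : LP L = LP L' * sinhc ^ (d + 1) := by
      have h2 : sinhc ^ m * sinhc⁻¹ ^ m = 1 := by rw [← mul_pow, sinhc_mul_inv, one_pow]
      have h3 : sinhc ^ m' * sinhc⁻¹ ^ m' = 1 := by rw [← mul_pow, sinhc_mul_inv, one_pow]
      have h4 : sinhc ^ m = sinhc ^ m' * sinhc ^ (d + 1) := by rw [hd, pow_add]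
      calc LP L = LP L * sinhc⁻¹ ^ m * sinhc ^ m := by
            rw [mul_assoc, mul_comm (sinhc⁻¹ ^ m), h2, mul_one]
        _ = LP L' * (sinhc ^ m' * sinhc⁻¹ ^ m') * sinhc ^ (d + 1) := by
            rw [h, h4]
            ring
        _ = _ := by rw [h3, mul_one]
    have h2 := congrArg (fun f => ev f (-((Real.pi : ℂ) ^ 2))) h1
    beta_reduce at h2
    have hp : (0 : ℝ) ≤ ‖-((Real.pi : ℂ) ^ 2)‖ := norm_nonneg _
    have hW : Wr ‖-((Real.pi : ℂ) ^ 2)‖ (LP L') :=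
      Wr_prod hp _ _ fun a _ => Wr_rescale (by positivity) (Wr_sinhc _)
    rw [ev_mul hW ((Wr_sinhc _).pow hp _) le_rfl, ev_pow hp (Wr_sinhc _) le_rfl] at h2
    have h3 : ev sinhc (-((Real.pi : ℂ) ^ 2)) = 0 := Sf_neg_pi_sq
    rw [h3, zero_pow (by omega), mul_zero] at h2
    exact hpi L hL h2
  have hm : m = m' := le_antisymm (key L L' m m' hL hL' h) (key L' L m' m hL' hL h.symm)
  subst hm
  have h1 : LP L = LP L' := by
    have h2 : sinhc⁻¹ ^ m * sinhc ^ m = 1 := by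
      rw [← mul_pow, mul_comm, sinhc_mul_inv, one_pow]
    calc LP L = LP L * sinhc⁻¹ ^ m * sinhc ^ m := by rw [mul_assoc, h2, mul_one]
      _ = LP L' * sinhc⁻¹ ^ m * sinhc ^ m := by rw [h]
      _ = LP L' := by rw [mul_assoc, h2, mul_one]
  exact Subset.antisymm (leaves_subset hL hL' hc h1) (leaves_subset hL' hL hc' h1.symm)

variable {D : Diagram}

/-- the coefficients for one node -/
theorem coeff_one_node (h : D.IsSplice) (hn : D.n = 0) (k : ℕ) :
    coeff k D.gaussSeries = ((D.P 0 : ℝ) / 2) ^ k * mom k * coeff k (D.node 0) := by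
  rw [coeff_gaussSeries]
  obtain ⟨w, hw⟩ : ∃ w : Fin (D.n + 1), (w : ℕ) = 0 := ⟨⟨0, by omega⟩, rfl⟩
  have hu : ∀ v : Fin (D.n + 1), v = w := by
    intro v
    apply Fin.ext
    omega
  have h1 : ∀ x : Sp D.n, coeff k (FF D (nsq x)) = nsq x w ^ k * coeff k (D.node 0) := by
    intro x
    unfold FF
    have h2 : (univ : Finset (Fin (D.n + 1))) = {w} := by
      ext v
      simp [hu v]
    rw [h2, prod_singleton, coeff_rescale, hw]
  simp_rw [h1]
  rw [integral_mul_const, integral_nsq_pow h w k, hw]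

theorem ext_of_zero {D D' : Diagram} (h : D.IsSplice) (h' : D'.IsSplice) (hn : D.n = 0)
    (hn' : D'.n = 0) (hL : D.leaves 0 = D'.leaves 0) : D = D' := by
  apply Diagram.ext
  · rw [hn, hn']
  · funext i
    rcases Nat.eq_zero_or_pos i with h0 | h0
    · rw [h0, h.zero.1, h'.zero.1]
    · rw [h.parent_zero i (by omega), h'.parent_zero i (by omega)]
  · funext i
    rcases Nat.eq_zero_or_pos i with h0 | h0
    · rw [h0, h.zero.2.1, h'.zero.2.1]
    · rw [(h.weight_zero i (by omega)).1, (h'.weight_zero i (by omega)).1]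
  · funext i
    rcases Nat.eq_zero_or_pos i with h0 | h0
    · rw [h0, h.zero.2.2, h'.zero.2.2]
    · rw [(h.weight_zero i (by omega)).2, (h'.weight_zero i (by omega)).2]
  · funext i
    rcases Nat.eq_zero_or_pos i with h0 | h0
    · rw [h0, hL]
    · rw [h.leaves_zero i (by omega), h'.leaves_zero i (by omega)]

theorem P_zero_node (hn : D.n = 0) : D.P 0 = ∏ a ∈ D.leaves 0, a := by
  rw [P_eq]
  have hc : D.children 0 = ∅ := by
    unfold children
    rw [hn]
    rfl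
  rw [hc, prod_empty, upw, if_pos rfl, mul_one, mul_one]

theorem valence_zero_node (hn : D.n = 0) : D.valence 0 = (D.leaves 0).card := by
  rw [valence_eq]
  have hc : D.children 0 = ∅ := by
    unfold children
    rw [hn]
    rfl
  rw [hc, card_empty, if_pos rfl]
  omega

/-- the Poincaré sphere -/
theorem leaves_thirty (h : D.IsSplice) (hn : D.n = 0) (hP : D.P 0 = 30) :
    D.leaves 0 = {2, 3, 5} := by
  rw [P_zero_node hn] at hP
  have h3 := h.three_le 0 (Nat.zero_le _)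
  rw [valence_zero_node hn] at h3
  have hd : ∀ a ∈ D.leaves 0, a ∈ ({2, 3, 5, 6, 10, 15, 30} : Finset ℕ) := by
    intro a ha
    have h1 : a ∣ 30 := by
      rw [← hP]
      exact dvd_prod_of_mem (fun a => a) ha
    have h2 := h.two_le 0 (Nat.zero_le _) a ha
    have h4 : a ∈ Nat.divisors 30 := Nat.mem_divisors.2 ⟨h1, by norm_num⟩
    have h5 : Nat.divisors 30 = {1, 2, 3, 5, 6, 10, 15, 30} := by decide
    rw [h5] at h4
    simp only [mem_insert, mem_singleton] at h4 ⊢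
    omega
  have hcop := fun a ha b hb => leaves_coprime h (Nat.zero_le _) (a := a) (b := b) ha hb
  -- each leaf is a prime since there are three of them
  have hprime : ∀ a ∈ D.leaves 0, a ∈ ({2, 3, 5} : Finset ℕ) := by
    intro a ha
    have h1 : ((D.leaves 0).erase a).card = (D.leaves 0).card - 1 := card_erase_of_mem ha
    have h2 : 6 ≤ ∏ b ∈ (D.leaves 0).erase a, b := by
      obtain ⟨t, ht, htc⟩ := Finset.exists_subset_card_eq (s := (D.leaves 0).erase a) (n := 2)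
        (by omega)
      obtain ⟨x, y, hxy, e⟩ := Finset.card_eq_two.1 htc
      have hx : x ∈ (D.leaves 0).erase a := ht (by rw [e]; simp)
      have hy : y ∈ (D.leaves 0).erase a := ht (by rw [e]; simp)
      have hx2 := h.two_le 0 (Nat.zero_le _) x (mem_of_mem_erase hx)
      have hy2 := h.two_le 0 (Nat.zero_le _) y (mem_of_mem_erase hy)
      have h6 : x * y ≤ ∏ b ∈ (D.leaves 0).erase a, b := by
        rw [← prod_pair hxy (f := fun b => b), ← e]
        refine Finset.prod_le_prod_of_subset_of_one_le' ht fun b hb _ => ?_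
        have := h.two_le 0 (Nat.zero_le _) b (mem_of_mem_erase hb)
        omega
      have h7 : 6 ≤ x * y := by
        rcases lt_or_gt_of_ne hxy with h8 | h8
        · nlinarith
        · nlinarith
      omega
    have h4 := hd a ha
    rw [← mul_prod_erase _ _ ha] at hP
    generalize (∏ b ∈ (D.leaves 0).erase a, b) = q at hP h2
    simp only [mem_insert, mem_singleton] at h4 ⊢
    rcases h4 with h5 | h5 | h5 | h5 | h5 | h5 | h5
    · left; exact h5
    · right; left; exact h5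
    · right; right; exact h5
    · rw [h5] at hP; omega
    · rw [h5] at hP; omega
    · rw [h5] at hP; omega
    · rw [h5] at hP; omega
  exact eq_of_subset_of_card_le hprime (by
    have : ({2, 3, 5} : Finset ℕ).card = 3 := rfl
    omega)

end Pool.Agent.Zk79.LM
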